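import Pool.Agent.Helper28_TP.Defs

/-! # The laws are probability measures -/

set_option autoImplicit false

namespace Pool.Agent.TP

open MeasureTheory ProbabilityTheory

instance stepLaw_prob (k : ℕ) (s : ℝ) : IsProbabilityMeasure (stepLaw k s) := by
  unfold stepLaw
  infer_instance

instance unit_prob : IsProbabilityMeasure (volume.restrict (Set.Ico (0 : ℝ) 1)) :=
  ⟨by simp⟩

instance unif_prob (k : ℕ) : IsProbabilityMeasure (unif k) := by
  unfold unif
  infer_instance

instance walkLaw_prob (k : ℕ) (s : ℝ) : IsProbabilityMeasure (walkLaw k s) := by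
  unfold walkLaw
  infer_instance

instance markLaw_prob (k : ℕ) (s : ℝ) : IsProbabilityMeasure (markLaw k s) := by
  unfold markLaw
  infer_instance

instance confLaw_prob (k : ℕ) (lam s : ℝ) : IsProbabilityMeasure (confLaw k lam s) := by
  unfold confLaw
  infer_instance

theorem measurable_walk {k : ℕ} (i : ℕ) :
    Measurable (fun x : Sp k × (ℕ → Sp k) => walk x.1 x.2 i) := by
  unfold walk
  fun_prop

theorem measurable_walk' {k : ℕ} {Ω : Type} [MeasurableSpace Ω] {f : Ω → Sp k}
    {g : Ω → ℕ → Sp k} (hf : Measurable f) (hg : Measurable g) (i : ℕ) :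
    Measurable (fun x => walk (f x) (g x) i) :=
  (measurable_walk i).comp (hf.prodMk hg)

theorem measurable_start {k : ℕ} (v : Pt k × ℕ) :
    Measurable (fun ω : Cf k => (fun a => (v.1 a : ℝ) + ((ω v.1).2 v.2).1 a : Sp k)) := by
  fun_prop

theorem measurable_steps {k : ℕ} (v : Pt k × ℕ) :
    Measurable (fun ω : Cf k => ((ω v.1).2 v.2).2) := by
  fun_prop

theorem measurable_pos {k : ℕ} (i : ℕ) (v : Pt k × ℕ) :
    Measurable (fun ω : Cf k => pos ω i v) :=
  measurable_walk' (measurable_start v) (measurable_steps v) i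

theorem measurableSet_alive {k : ℕ} (v : Pt k × ℕ) : MeasurableSet {ω : Cf k | alive ω v} := by
  have h : Measurable (fun ω : Cf k => (ω v.1).1) := by fun_prop
  exact h (measurableSet_Ioi (a := v.2))

end Pool.Agent.TP
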