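import Pool.Agent.Helper28_TP.Lat

/-!
# Definitions and statements of the modules of the dynamic part
-/

set_option autoImplicit false

namespace Pool.Agent.TP

open MeasureTheory ProbabilityTheory

variable {k : ℕ}

/-- Half open cube. -/
def cube (y : Sp k) (κ : ℝ) : Set (Sp k) := {x | ∀ a, y a ≤ x a ∧ x a < y a + κ}

/-- Cell number `c` of side `h` seen from `w`. -/
def cel (h : ℝ) (w : Sp k) (c : Pt k) : Set (Sp k) := cube (fun a => w a + h * c a) h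

/-- Cells (of side `h`, seen from `w`) that contain a node at time `i`. -/
def occ (h : ℝ) (w : Sp k) (i : ℕ) (ω : Cf k) : Set (Pt k) :=
  {c | ∃ v, alive ω v ∧ pos ω i v ∈ cel h w c}

/-- The cube at `y` of side `κ` contains at least `M` nodes at time `i`. -/
def many (y : Sp k) (κ : ℝ) (i : ℕ) (ω : Cf k) (M : ℕ) : Prop :=
  ∃ F : Finset (Pt k × ℕ), M ≤ F.card ∧ ∀ v ∈ F, alive ω v ∧ pos ω i v ∈ cube y κ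

/-- Node data with the steps of index at least `T` taken from the second configuration. -/
def glue (T : ℕ) (x : Cf k × Cf k) : Cf k := fun z => ((x.1 z).1, fun j =>
  (((x.1 z).2 j).1, fun i => if i < T then ((x.1 z).2 j).2 i else ((x.2 z).2 j).2 i))

/-- Loss of a logarithm in dimension two. -/
noncomputable def Lw (k A : ℕ) : ℝ := if k = 0 then 1 + A else 1

/-- Side of the boxes of level `a`. -/
noncomputable def side (κ₀ : ℝ) (a τ : ℕ) : ℝ := κ₀ * Real.sqrt (2 ^ a * τ)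

/-- Monotone events about sets of cells that depend only on the box of radius `R`. -/
def MonoLoc (R : ℕ) (E : Set (Pt k) → Prop) : Prop :=
  (∀ O O', O ⊆ O' → E O → E O') ∧ ∀ O, E O ↔ E (O ∩ ↑(bx (0 : Pt k) R))

/-- Blocks of dyadic levels inside `[2 ^ A, 2 ^ (A + 1))`, pairwise disjoint.  The block `(a, j)`
is the interval `[j 2 ^ a, (j + 1) 2 ^ a)`. -/
def GoodJ (A : ℕ) (𝒥 : Finset (ℕ × ℕ)) : Prop :=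
  (∀ J ∈ 𝒥, J.1 ≤ A ∧ 2 ^ A ≤ J.2 * 2 ^ J.1 ∧ (J.2 + 1) * 2 ^ J.1 ≤ 2 ^ (A + 1)) ∧
  ∀ J ∈ 𝒥, ∀ J' ∈ 𝒥, J ≠ J' →
    (J.2 + 1) * 2 ^ J.1 ≤ J'.2 * 2 ^ J'.1 ∨ (J'.2 + 1) * 2 ^ J'.1 ≤ J.2 * 2 ^ J.1

/-- The box at `y` of level `a` has few nodes at the check time of the block `(a, j)`. -/
def spa (lam ε κ₀ : ℝ) (τ a j : ℕ) (y : Sp k) (ω : Cf k) : Prop :=
  ¬ many y (side κ₀ a τ) ((j - 1) * 2 ^ a * τ) ω ⌈(1 - ε) * lam * side κ₀ a τ ^ (k + 2)⌉₊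

/-! ### The Poisson process -/

/-- MEAS: measurability. -/
def MeasStmt : Prop :=
  ∀ k : ℕ, (∀ (h : ℝ) (w : Sp k) (i : ℕ) (c : Pt k), MeasurableSet {ω : Cf k | c ∈ occ h w i ω}) ∧
    (∀ (y : Sp k) (κ : ℝ) (i M : ℕ), MeasurableSet {ω : Cf k | many y κ i ω M}) ∧
    (∀ (h : ℝ) (w : Sp k) (i R : ℕ) (E : Set (Pt k) → Prop), MonoLoc R E →
      MeasurableSet {ω : Cf k | E (occ h w i ω)}) ∧
    ∀ (h : ℝ) (i : ℕ) (c : Pt k), MeasurableSet {x : Cf k × Sp k | c ∈ occ h x.2 i x.1}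

/-- MTP: measurability of the percolation time. -/
def MtpStmt : Prop :=
  ∀ (k : ℕ) (r : ℝ) (t : ℕ),
    MeasurableSet {x : Cf k × (ℕ → Sp k) | (t : ℕ∞) ≤ Tperc r x.1 x.2}

/-- LF: Laplace functional. -/
def LfStmt : Prop :=
  ∀ (k : ℕ) (lam s : ℝ), 0 ≤ lam → ∀ (Z : Finset (Pt k)) (g : Pt k → Mk k → ENNReal),
    (∀ z, Measurable (g z)) → (∀ z m, g z m ≤ 1) →
    ∫⁻ ω, ∏ z ∈ Z, ∏ j ∈ Finset.range (ω z).1, g z ((ω z).2 j) ∂(confLaw k lam s) =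
      ∏ z ∈ Z, ENNReal.ofReal (Real.exp (-(lam * (1 - (∫⁻ m, g z m ∂(markLaw k s)).toReal))))

/-- LEB: a uniform point in every unit cell is Lebesgue measure. -/
def LebStmt : Prop :=
  ∀ (k : ℕ) (s : ℝ) (f : Sp k × (ℕ → Sp k) → ENNReal), Measurable f →
    ∑' z : Pt k, ∫⁻ m, f (fun a => (z a : ℝ) + m.1 a, m.2) ∂(markLaw k s) =
      ∫⁻ x, ∫⁻ y, f (x, y) ∂(walkLaw k s)

/-- VOI: void probabilities determine the law of a random subset of a finite set. -/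
def VoiStmt : Prop :=
  ∀ (Ω : Type) [MeasurableSpace Ω] (P : Measure Ω) [IsProbabilityMeasure P] (α : Type)
    [DecidableEq α] (V : Finset α) (q : α → ℝ) (O : Ω → Finset α), U01 V q →
    (∀ ω, O ω ⊆ V) → (∀ a ∈ V, MeasurableSet {ω | a ∈ O ω}) →
    (∀ S ⊆ V, P.real {ω | Disjoint S (O ω)} = ∏ a ∈ S, (1 - q a)) →
    ∀ E : Finset α → Prop, P.real {ω | E (O ω)} = PS V q E

open Classical in
/-- STAT: the occupied cells at a fixed time. -/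
def StatStmt : Prop :=
  ∀ (k : ℕ) (lam s h : ℝ), 0 ≤ lam → 0 < h → ∀ (w : Sp k) (i : ℕ) (V : Finset (Pt k))
    (E : Finset (Pt k) → Prop),
    (confLaw k lam s).real {ω | E (V.filter (fun c => c ∈ occ h w i ω))} =
      PS V (fun _ => 1 - Real.exp (-(lam * h ^ (k + 2)))) E

/-- VOID: probability that no node belongs to a set of trajectories. -/
def VoidStmt : Prop :=
  ∀ (k : ℕ) (lam s : ℝ), 0 ≤ lam → ∀ 𝒜 : Set (Sp k × (ℕ → Sp k)), MeasurableSet 𝒜 →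
    ∫⁻ x, walkLaw k s {y | (x, y) ∈ 𝒜} ≠ ⊤ →
    confLaw k lam s {ω | ∀ v, alive ω v →
      (fun a => (v.1 a : ℝ) + ((ω v.1).2 v.2).1 a, ((ω v.1).2 v.2).2) ∉ 𝒜} =
      ENNReal.ofReal (Real.exp (-(lam * (∫⁻ x, walkLaw k s {y | (x, y) ∈ 𝒜}).toReal)))

/-- CHER: many boxes are sparse (Laplace functional with weights). -/
def CherStmt : Prop :=
  ∀ (k : ℕ) (lam s ε : ℝ), 0 < lam → 0 < s → 0 < ε → ε < 1 → ∀ (ι : Type) (𝒥 : Finset ι)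
    (Y : ι → Sp k) (κ : ι → ℝ) (t : ι → ℕ) (th : ι → ℝ), (∀ J, 0 < κ J) → (∀ J, 0 ≤ th J) →
    confLaw k lam s {ω | ∀ J ∈ 𝒥, ¬ many (Y J) (κ J) (t J) ω ⌈(1 - ε) * lam * κ J ^ (k + 2)⌉₊} ≤
      ENNReal.ofReal (Real.exp (-(lam * (ε * ∑ J ∈ 𝒥, th J * κ J ^ (k + 2) -
        (∑ J ∈ 𝒥, ∑ J' ∈ 𝒥, th J * th J' * (∫⁻ x, walkLaw k s {y | walk x y (t J) ∈
          cube (Y J) (κ J) ∧ walk x y (t J') ∈ cube (Y J') (κ J')}).toReal) / 2))))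

/-- PAIR: mean number of common visitors of two boxes. -/
def PairStmt : Prop :=
  ∀ (k : ℕ) (s : ℝ), 0 < s → ∀ (Y Y' : Sp k) (κ κ' : ℝ) (t t' : ℕ), 0 < κ → 0 < κ' →
    ∫⁻ x, walkLaw k s {y | walk x y t ∈ cube Y κ ∧ walk x y t' ∈ cube Y' κ'} ≤
      ENNReal.ofReal (κ ^ (k + 2)) ∧
    (t < t' → ∫⁻ x, walkLaw k s {y | walk x y t ∈ cube Y κ ∧ walk x y t' ∈ cube Y' κ'} ≤
      ENNReal.ofReal (κ ^ (k + 2) * (κ' / (s * Real.sqrt (t' - t))) ^ (k + 2)))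

/-- SST: the sum over disjoint blocks. -/
def SstStmt : Prop :=
  ∀ k : ℕ, ∃ C : ℝ, 0 < C ∧ ∀ (A : ℕ) (𝒥 : Finset (ℕ × ℕ)), GoodJ A 𝒥 → ∀ u : ℕ, u < 2 ^ (A + 1) →
    ∑ J ∈ 𝒥.filter (fun J => u ≤ (J.2 - 1) * 2 ^ J.1), Real.sqrt (2 ^ J.1) ^ (-(k : ℤ)) *
      (if u = (J.2 - 1) * 2 ^ J.1 then 1 else
        min 1 (Real.sqrt (2 ^ J.1 / (((J.2 - 1) * 2 ^ J.1 : ℕ) - (u : ℝ))) ^ (k + 2))) ≤
      C * Lw k A

/-- CHB: a fixed collection of disjoint blocks is sparse. -/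
def ChbStmt : Prop :=
  ∀ (k : ℕ) (lam s ε κ₀ : ℝ), 0 < lam → 0 < s → 0 < ε → ε < 1 → 0 < κ₀ → κ₀ ≤ s →
    ∀ C₁ : ℝ, ∃ C₀ : ℝ, 0 < C₀ ∧ ∀ A τ : ℕ, C₀ * Lw k A ≤ τ → ∀ 𝒥 : Finset (ℕ × ℕ), GoodJ A 𝒥 →
      ∀ Y : ℕ × ℕ → Sp k, confLaw k lam s {ω | ∀ J ∈ 𝒥, spa lam ε κ₀ τ J.1 J.2 (Y J) ω} ≤
        ENNReal.ofReal (Real.exp (-(C₁ * ∑ J ∈ 𝒥, (2 : ℝ) ^ J.1)))

/-- DYA: number of collections of blocks, and the maximal bad blocks. -/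
def DyaStmt : Prop :=
  ∀ A : ℕ, (∀ 𝒞 : Finset (Finset (ℕ × ℕ)), (∀ 𝒥 ∈ 𝒞, GoodJ A 𝒥) → 𝒞.card ≤ 3 ^ 2 ^ A) ∧
    ∀ bad : ℕ → ℕ → Prop, ∃ 𝒥 : Finset (ℕ × ℕ), GoodJ A 𝒥 ∧ (∀ J ∈ 𝒥, bad J.1 J.2) ∧
      ∀ q ∈ Finset.Ico (2 ^ A) (2 ^ (A + 1)), (∃ a ≤ A, bad a (q / 2 ^ a)) →
        ∃ J ∈ 𝒥, J.2 * 2 ^ J.1 ≤ q ∧ q < (J.2 + 1) * 2 ^ J.1

open Classical in
/-- DENS: few times have a sparse box. -/
def DensStmt : Prop :=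
  ∀ (k : ℕ) (lam s ε κ₀ : ℝ), 0 < lam → 0 < s → 0 < ε → ε < 1 → 0 < κ₀ → κ₀ ≤ s →
    ∀ C₂ v : ℝ, 0 < v → ∃ C₀ : ℝ, 0 < C₀ ∧ ∀ A τ : ℕ, C₀ * Lw k A ≤ τ →
      ∀ Bo : ℕ → ℕ → Finset (Sp k), (∀ a j, ((Bo a j).card : ℝ) ≤ Real.exp (C₂ * 2 ^ a)) →
      confLaw k lam s {ω | v * 2 ^ A ≤ (((Finset.Ico (2 ^ A) (2 ^ (A + 1))).filter (fun q =>
        ∃ a ≤ A, ∃ y ∈ Bo a (q / 2 ^ a), spa lam ε κ₀ τ a (q / 2 ^ a) y ω)).card : ℝ)} ≤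
        ENNReal.ofReal (Real.exp (-(4 * 2 ^ A)))

/-! ### Refreshing -/

/-- GLUE: resampling the future steps preserves the law. -/
def GlueStmt : Prop :=
  ∀ (k : ℕ) (lam s : ℝ) (T : ℕ),
    MeasurePreserving (glue (k := k) T) ((confLaw k lam s).prod (confLaw k lam s))
      (confLaw k lam s)

open Classical in
/-- DOM: `M` independent points per box dominate a Bernoulli set of cells. -/
def DomStmt : Prop :=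
  ∀ (Ω : Type) [MeasurableSpace Ω] (P : Measure Ω) [IsProbabilityMeasure P] (ι α : Type)
    [Fintype ι] [DecidableEq α] (M : ℕ) (Y : ι × Fin M → Ω → Option α)
    (V : Finset α) (f : ι → α → ℝ) (μ p : ℝ),
    (∀ x c, MeasurableSet {ω | Y x ω = some c}) →
    (∀ S : Finset (ι × Fin M), ∀ g : ι × Fin M → Set (Option α),
      P.real {ω | ∀ x ∈ S, Y x ω ∈ g x} = ∏ x ∈ S, P.real {ω | Y x ω ∈ g x}) →
    (∀ b c, 0 ≤ f b c) → (∀ b, ∑ c ∈ V, f b c ≤ 1) →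
    (∀ x c, c ∈ V → f x.1 c ≤ P.real {ω | Y x ω = some c}) →
    0 ≤ μ → 0 ≤ p → p < 1 → (∀ c ∈ V, p ≤ 1 - Real.exp (-(μ * ∑ b, f b c))) →
    ∀ E : Finset α → Prop, (∀ A B, A ⊆ B → E A → E B) →
      P.real {ω | ¬ E (V.filter (fun c => ∃ x, Y x ω = some c))} ≤
        PS V (fun _ => p) (fun A => ¬ E A) +
          Fintype.card ι * (poissonMeasure (Real.toNNReal μ)).real {n | M < n}

/-- POI: upper tail of the Poisson law. -/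
def PoiStmt : Prop :=
  ∀ ε : ℝ, 0 < ε → ε < 1 → ∃ c : ℝ, 0 < c ∧ ∀ (M : ℕ) (μ : ℝ), 0 ≤ μ → μ ≤ (1 - ε) * M →
    (poissonMeasure (Real.toNNReal μ)).real {n | M < n} ≤ Real.exp (-(c * M))

/-- GAU: law of the position after `Δ` steps: density bound for cubes. -/
def GauStmt : Prop :=
  ∀ (k : ℕ) (s : ℝ), 0 < s → ∀ (Δ : ℕ), 1 ≤ Δ → ∀ (x : Sp k) (S : Set (Sp k)), MeasurableSet S →
    walkLaw k s {y | walk x y Δ ∈ S} = ∫⁻ z in S, ENNReal.ofReal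
      (∏ a, Real.exp (-(z a - x a) ^ 2 / (2 * (s ^ 2 * Δ))) / Real.sqrt (2 * Real.pi * (s ^ 2 * Δ)))

/-- RIE: lower Riemann sums of the Gaussian density over boxes. -/
def RieStmt : Prop :=
  ∀ (k : ℕ) (s ε : ℝ), 0 < s → 0 < ε → ε < 1 → ∃ (κ₀ : ℝ) (Cm : ℕ), 0 < κ₀ ∧ κ₀ ≤ s ∧
    ∀ (Δ : ℕ) (κ h : ℝ), 1 ≤ Δ → 0 < κ → κ ≤ κ₀ * Real.sqrt Δ → κ₀ * Real.sqrt Δ ≤ 2 * κ →
      0 < h → ∀ w : Sp k, ∃ f : Pt k → Pt k → ℝ, (∀ j c, 0 ≤ f j c) ∧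
      (∀ j c, ∀ x ∈ cube (fun a => w a + κ * j a) κ,
        f j c ≤ (walkLaw k s).real {y | walk x y Δ ∈ cel h w c}) ∧
      ∀ R : ℕ, ∀ c ∈ bx (0 : Pt k) R, (1 - ε) * h ^ (k + 2) ≤
        ∑ j ∈ bx (0 : Pt k) (⌈h * (R + 1) / κ⌉₊ + Cm), κ ^ (k + 2) * f j c

/-- RF: refreshing in dense boxes. -/
def RfStmt : Prop :=
  ∀ (k : ℕ) (lam s h p : ℝ), 0 < lam → 0 < s → 0 < h → 0 < p →
    p < 1 - Real.exp (-(lam * h ^ (k + 2))) → ∃ (ε κ₀ c₃ : ℝ) (Cm : ℕ), 0 < ε ∧ ε < 1 ∧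
      0 < κ₀ ∧ κ₀ ≤ s ∧ 0 < c₃ ∧ ∀ (T Δ R : ℕ) (κ : ℝ) (w : Sp k) (ω₁ : Cf k), 1 ≤ Δ → 0 < κ →
      κ ≤ κ₀ * Real.sqrt Δ → κ₀ * Real.sqrt Δ ≤ 2 * κ →
      (∀ j ∈ bx (0 : Pt k) (⌈h * (R + 1) / κ⌉₊ + Cm),
        many (fun a => w a + κ * j a) κ T ω₁ ⌈(1 - ε) * lam * κ ^ (k + 2)⌉₊) →
      ∀ E : Set (Pt k) → Prop, MonoLoc R E →
        (confLaw k lam s).real {ω₂ | ¬ E (occ h w (T + Δ) (glue T (ω₁, ω₂)))} ≤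
          PS (bx (0 : Pt k) R) (fun _ => p) (fun A => ¬ E ↑A) +
            (2 * (⌈h * (R + 1) / κ⌉₊ + Cm : ℕ) + 1) ^ (k + 2) * Real.exp (-(c₃ * κ ^ (k + 2)))

/-- SEQ: consecutive conditional events. -/
def SeqStmt : Prop :=
  ∀ (k : ℕ) (lam s π : ℝ), 0 ≤ π → ∀ (T : ℕ → ℕ) (E : ℕ → Set (Cf k)), Monotone T →
    (∀ j, MeasurableSet (E j)) →
    (∀ j ω ω₂, glue (T (j + 1)) (ω, ω₂) ∈ E j ↔ ω ∈ E j) →
    (∀ j ω₁, (confLaw k lam s).real {ω₂ | glue (T j) (ω₁, ω₂) ∈ E j} ≤ π) →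
    ∀ n : ℕ, (confLaw k lam s).real {ω | ∀ j < n, ω ∈ E j} ≤ π ^ n

open Classical in
/-- REFB: number of bad blocks of one level. -/
def RefbStmt : Prop :=
  ∀ (k : ℕ) (lam s π v : ℝ) (a τ A : ℕ), 0 ≤ π → 0 < v → a ≤ A →
    π ≤ Real.exp (-(12 * 2 ^ a / v)) → ∀ E : ℕ → Set (Cf k), (∀ j, MeasurableSet (E j)) →
    (∀ j ω ω₂, glue ((j + 1) * 2 ^ a * τ) (ω, ω₂) ∈ E j ↔ ω ∈ E j) →
    (∀ j ω₁, (confLaw k lam s).real {ω₂ | glue ((j - 1) * 2 ^ a * τ) (ω₁, ω₂) ∈ E j} ≤ π) →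
    (confLaw k lam s).real {ω | v * 2 ^ A ≤ 2 ^ a * (((Finset.Ico (2 ^ (A - a))
      (2 ^ (A - a + 1))).filter (fun j => ω ∈ E j)).card : ℝ)} ≤ Real.exp (-(4 * 2 ^ A))

/-! ### The dynamic theorems -/

open Classical in
/-- DYN: typical structures of all scales are present at most times. -/
def DynStmt : Prop :=
  ∀ (k : ℕ) (lam s h p : ℝ), 0 < lam → 0 < s → 0 < h → 0 < p →
    p < 1 - Real.exp (-(lam * h ^ (k + 2))) → ∀ (v cp : ℝ) (CR : ℕ), 0 < v → 0 < cp →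
    ∃ L₀ : ℕ, ∀ L ≥ L₀, ∃ C₀ : ℝ, 0 < C₀ ∧ ∀ (A τ : ℕ) (w : ℕ → Sp k)
      (𝒱 : ℕ → ℕ → Set (Pt k) → Prop), C₀ * Lw k A ≤ τ →
      (∀ l ≥ L, ∀ q, MonoLoc (CR * 2 ^ l) (𝒱 l q) ∧
        PS (bx (0 : Pt k) (CR * 2 ^ l)) (fun _ => p) (fun O => ¬ 𝒱 l q ↑O) ≤
          Real.exp (-(cp * ((l : ℝ) + 1) ^ 2))) →
      (confLaw k lam s).real {ω | v * 2 ^ A ≤ (((Finset.Ico (2 ^ A) (2 ^ (A + 1))).filter
        (fun q => ∃ l ≥ L, ¬ 𝒱 l q (occ h (w q) (q * τ) ω))).card : ℝ)} ≤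
        Real.exp (-(2 ^ A))

open Classical in
/-- LOC: local events of positive probability occur at a positive fraction of the times. -/
def LocStmt : Prop :=
  ∀ (k : ℕ) (lam s h p : ℝ), 0 < lam → 0 < s → 0 < h → 0 < p →
    p < 1 - Real.exp (-(lam * h ^ (k + 2))) → ∀ (c₁ : ℝ) (R : ℕ), 0 < c₁ → c₁ ≤ 1 →
    ∃ (C₀ c : ℝ) (A₀ : ℕ), 0 < C₀ ∧ 0 < c ∧ ∀ (A τ : ℕ) (w : ℕ → Sp k) (Q : Finset ℕ)
      (𝒰 : ℕ → Set (Pt k) → Prop), A₀ ≤ A → C₀ * Lw k A ≤ τ → Q ⊆ Finset.Ico (2 ^ A) (2 ^ (A + 1)) →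
      (∀ q ∈ Q, MonoLoc R (𝒰 q) ∧
        c₁ ≤ PS (bx (0 : Pt k) R) (fun _ => p) (fun O => 𝒰 q ↑O)) →
      (confLaw k lam s).real {ω | ((Q.filter (fun q => 𝒰 q (occ h (w q) (q * τ) ω))).card : ℝ) ≤
        c₁ / 2 * Q.card - c₁ / 8 * 2 ^ A} ≤ Real.exp (-(c * 2 ^ A))

/-- MRG: superposition. -/
def MrgStmt : Prop :=
  ∀ (k : ℕ) (l₁ l₂ s : ℝ), 0 ≤ l₁ → 0 ≤ l₂ → ∃ G : Cf k × Cf k → Cf k,
    MeasurePreserving G ((confLaw k l₁ s).prod (confLaw k l₂ s)) (confLaw k (l₁ + l₂) s) ∧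
    ∀ (h : ℝ) (w : Sp k) (i : ℕ) (ω : Cf k × Cf k),
      occ h w i (G ω) = occ h w i ω.1 ∪ occ h w i ω.2

/-! ### Continuum and lattice -/

/-- Offsets of cells of side `h` all of whose points are within distance `r`. -/
noncomputable def Nb (k : ℕ) (r h : ℝ) : Finset (Pt k) := by
  classical
  exact (bx (0 : Pt k) ⌈r / h⌉₊).filter (fun z => ∑ a, ((|z a| + 1 : ℤ) * h) ^ 2 ≤ r ^ 2)

/-- NBG: the neighbourhood of cells is good. -/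
def NbgStmt : Prop :=
  ∀ (k : ℕ) (r h : ℝ), 0 < r → 0 < h → 2 * Real.sqrt (k + 2) * h ≤ r →
    ∃ ρ : ℕ, GoodN (Nb k r h) ρ

/-- PRC: percolation of the continuum graph gives percolation of cells. -/
def PrcStmt : Prop :=
  ∀ (k : ℕ) (r lam b : ℝ) (M : ℕ), 0 < r → 0 < lam → 0 < b → 1 ≤ M →
    b * r + 2 * Real.sqrt (k + 2) * (b / M) ≤ r → Percolates k r lam →
    ∀ ρ : ℕ, GoodN (Nb k r (b / M)) ρ → ∃ θ : ℝ, 0 < θ ∧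
      PercN (Nb k r (b / M)) ρ (1 - Real.exp (-(lam / M ^ (k + 2)))) θ

/-- CONT: infinite clusters of occupied cells give infinite components. -/
def ContStmt : Prop :=
  ∀ (k : ℕ) (r h : ℝ) (ω : Cf k) (w : Sp k) (i : ℕ), 0 < r → 0 < h →
    {x | Conn (Nb k r h) (occ h w i ω) 0 x}.Infinite → InInf (graphWith r ω w i) none

/-- CAP: structures of consecutive scales have many common blocks. -/
def CapStmt : Prop :=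
  ∃ l₂ : ℕ, ∀ l ≥ l₂, ∀ C C' : Finset (ℤ × ℤ),
    StrC (2 ^ l) (3 * 2 ^ (l - 1)) (2 ^ (l + 2)) (2 * ((l : ℤ) + 1) ^ 2) C →
    StrC (2 ^ (l + 1)) (3 * 2 ^ l) (2 ^ (l + 3)) (2 * ((l : ℤ) + 2) ^ 2) C' →
    ∃ Z : Finset (ℤ × ℤ), Z ⊆ C ∩ C' ∧ Z.card = (l + 1) ^ 2

/-- GLP: one of many boxes is full. -/
def GlpStmt : Prop :=
  ∀ (k D B R : ℕ) (p : ℝ), 2 * B < D → 0 < p → p < 1 → ∀ Z : Finset (ℤ × ℤ),
    (∀ z ∈ Z, bx (cen k D z) B ⊆ bx 0 R) →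
    PS (bx (0 : Pt k) R) (fun _ => p) (fun O => ¬ ∃ z ∈ Z, bx (cen k D z) B ⊆ O) ≤
      (1 - p ^ (2 * B + 1) ^ (k + 2)) ^ Z.card

/-- FINC: structures of all scales, glued, give an infinite cluster. -/
def FincStmt : Prop :=
  ∀ (k : ℕ) (N : Finset (Pt k)) (ρ D B l₁ : ℕ) (O O' : Set (Pt k)) (C : ℕ → Finset (ℤ × ℤ))
    (V : ℕ → Finset (Pt k)), GoodN N ρ → 1 ≤ B → 2 * B < D → 1 ≤ l₁ →
    2 * (l₁ + 1) ^ 2 < 2 ^ l₁ →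
    (∀ l ≥ l₁, StrC (2 ^ l) (3 * 2 ^ (l - 1)) (2 ^ (l + 2)) (2 * ((l : ℤ) + 1) ^ 2) (C l) ∧
      Vis N D B (C l) (V l) ∧ (↑(V l) : Set (Pt k)) ⊆ O) →
    (∀ l ≥ l₁, ∃ z ∈ C l ∩ C (l + 1), ↑(bx (cen k D z) B) ⊆ O') →
    ↑(bx (0 : Pt k) (D * 2 ^ (l₁ + 1))) ⊆ O' →
    {x | Conn N (O ∪ O') 0 x}.Infinite

/-! ### Lower bound -/

/-- SAU: mean number of nodes that come near the target. -/
def SauStmt : Prop :=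
  ∀ (k : ℕ) (r s : ℝ), 0 < r → 0 < s → ∃ C : ℝ, 0 < C ∧ ∀ t : ℕ, 2 ≤ t →
    ∫⁻ y, ∫⁻ x, walkLaw k s {y' | ∃ i < t, near r (walk x y' i) (walk 0 y i)} ∂volume
      ∂(walkLaw k s) ≤ ENNReal.ofReal (C * expo k t)

/-- LOW: the lower bound. -/
def LowStmt : Prop :=
  ∀ (k : ℕ) (r lam s : ℝ), 0 < r → 0 < lam → 0 < s → ∃ C : ℝ, 0 < C ∧ ∀ t : ℕ, 2 ≤ t →
    Real.exp (-(C * expo k t)) ≤ tail k r lam s t

/-- UPP: the upper bound. -/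
def UppStmt : Prop :=
  ∀ (k : ℕ) (r lam s : ℝ), 0 < r → 0 < s → lamC k r < ENNReal.ofReal lam →
    ∃ c : ℝ, 0 < c ∧ ∃ t₀ : ℕ, ∀ t ≥ t₀, tail k r lam s t ≤ Real.exp (-(c * expo k t))

end Pool.Agent.TP
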