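import Pool.Agent.Helper28_TP.U5
import Pool.Agent.Helper67_TP.Dyn
import Pool.Agent.Helper94_TP.Loc
import Pool.Agent.Helper94_TP.Prc
import Pool.Agent.Helper59_TP.Psm
import Pool.Agent.Helper9_TP.Meas
import Pool.Agent.Helper79_TP.Stat
import Pool.Agent.Helper79_TP.Glue
import Pool.Agent.Helper39_TP.Voi
import Pool.Agent.Helper39_TP.Leb
import Pool.Agent.Helper26_TP.Void
import Pool.Agent.Helper26_TP.Nbg
import Pool.Agent.Helper26_TP.Mtp
import Pool.Agent.Helper76_TP.Lf
import Pool.Agent.Helper18_TP.Dens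
import Pool.Agent.Helper18_TP.Cher
import Pool.Agent.Helper18_TP.Rf
import Pool.Agent.Helper40_TP.Chb
import Pool.Agent.Helper20_TPM.Pair
import Pool.Agent.Helper13_TP.Gau
import Pool.Agent.Helper64_TP.Sst
import Pool.Agent.Helper68_TP.Dya
import Pool.Agent.Helper68_TP.Seq
import Pool.Agent.Helper67_TP.Dom
import Pool.Agent.Helper67_TP.Poi
import Pool.Agent.Helper99_TP.Rie
import Pool.Agent.Helper53_TP.Mrg
import Pool.Agent.Helper53_TP.Finc
import Pool.Agent.Helper53_TP.Cap
import Pool.Agent.Helper70_TP.Cont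
import Pool.Agent.Helper70_TP.Glp

/-! # The dynamic part of the upper bound -/

set_option autoImplicit false

namespace Pool.Agent.TP

theorem void_all : VoidStmt := H26.void H76.lf H39.leb

theorem stat_all : StatStmt := H79.stat H9.meas H39.voi void_all

theorem dens_all : DensStmt :=
  H18.dens (H40.chb (H18.cher H76.lf H39.leb) (H20.pair H13.gau) H64.sst) H68.dya

theorem rf_all : RfStmt := H18.rf (H67.dom H59.psm H39.voi) H67.poi (H99.rie H13.gau)

theorem dyn_all : DynStmt :=
  H67.dyn H59.psm H9.meas stat_all dens_all rf_all (H68.refb (H68.seq H79.glue))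

theorem loc_all : LocStmt := H94.loc H9.meas dens_all H79.glue rf_all

theorem upp_of (hPsh : PshStmt) (hSta : StaStmt) : UppStmt :=
  upp hPsh hSta dyn_all loc_all H53.mrgThm H26.nbg (H94.prc stat_all) H70.cont H53.cap H70.glp
    H53.finc H26.mtp

end Pool.Agent.TP
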