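import Pool.Agent.Helper48_TP.Ann
import Pool.Agent.Helper18_TP.Orth
import Pool.Agent.Helper63_TP.Seed
import Pool.Agent.Helper99_TP.Spr
import Pool.Agent.Helper31_TP.Tow
import Pool.Agent.Helper31_TP.Psl
import Pool.Agent.Helper59_TP.Psm
import Pool.Agent.Helper72_TP.Step
import Pool.Agent.Helper72_TP.Keep
import Pool.Agent.Helper76_TP.Sto
import Pool.Agent.Helper93_TP.Att
import Pool.Agent.Helper93_TP.Pot
import Pool.Agent.Helper34_TP.Corr
import Pool.Agent.Helper46_TP.Init
import Pool.Agent.Helper40_TP.One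
import Pool.Agent.Helper33_TP.Plz
import Pool.Agent.Helper33_TP.Run
import Pool.Agent.Helper97_TP.Succ
import Pool.Agent.Helper26_TP.An8
import Pool.Agent.Helper64_TP.Cnt
import Pool.Agent.Helper7_TPM.Du1
import Pool.Agent.Helper81_TP.Du2
import Pool.Agent.Helper51_TP.Sep
import Pool.Agent.Helper51_TP.Subt
import Pool.Agent.Helper65_TP.Term

/-! # The static part -/

set_option autoImplicit false

namespace Pool.Agent.TP

theorem step_of (hPsh : PshStmt) (hMany : ManyStmt) (hAts : AtsStmt) (hSym : SymStmt) : StepStmt :=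
  H72.step H31.tow (H63.seed H48.ann hMany (H18.orth hPsh) hAts hSym) H99.spr H76.sto

theorem run_of (hGeo : GeoStmt) : RunStmt :=
  H33.run (H93.att (H72.keep hGeo) (H97.succ hGeo) (H34.corr H40.one) (H33.plz H40.one))
    (H46.init H31.tow (H97.succ hGeo) (H33.plz H40.one)) H93.pot (H7.du1 H51.sep H51.subt)
    (H81.du2 H51.sep H51.subt) (H64.cnt H26.an8) H65.term

end Pool.Agent.TP
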