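import Pool.Agent.Helper28_TP.StS

/-! # GEO: the region of an edge avoids the regions of the other edges -/

set_option autoImplicit false

namespace Pool.Agent.TP.H28

open Pool.Agent.TP

variable {k : ℕ}

theorem cen0 (D : ℤ) (z : ℤ × ℤ) : cen k D z 0 = D * z.1 := by simp [cen]

theorem cen1 (D : ℤ) (z : ℤ × ℤ) : cen k D z 1 = D * z.2 := by
  have : (1 : Fin (k + 2)) ≠ 0 := by simp
  simp [cen, this]

theorem pcf (D : ℤ) (z : ℤ × ℤ) (g : ℤ) (x : Pt k) :
    pc D z false g x = g * (x 0 - D * z.1) := by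
  simp [pc, axi, cen0]

theorem pct (D : ℤ) (z : ℤ × ℤ) (g : ℤ) (x : Pt k) :
    pc D z true g x = g * (x 1 - D * z.2) := by
  simp [pc, axi, cen1]

theorem lcf (D : ℤ) (z : ℤ × ℤ) (x : Pt k) : lc D z false x = x 1 - D * z.2 := by
  simp [lc, axi, cen1]

theorem lct (D : ℤ) (z : ℤ × ℤ) (x : Pt k) : lc D z true x = x 0 - D * z.1 := by
  simp [lc, axi, cen0]

/-- Forward and lateral coordinates. -/
def fw (a : Bool) (g ξ η : ℤ) : ℤ := if a then g * η else g * ξ

/-- Lateral coordinate. -/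
def lw (a : Bool) (ξ η : ℤ) : ℤ := if a then ξ else η

theorem pc_fw (D : ℤ) (z : ℤ × ℤ) (a : Bool) (g : ℤ) (x : Pt k) :
    pc D z a g x = fw a g (x 0 - D * z.1) (x 1 - D * z.2) := by
  cases a
  · rw [pcf]; simp [fw]
  · rw [pct]; simp [fw]

theorem lc_lw (D : ℤ) (z : ℤ × ℤ) (a : Bool) (x : Pt k) :
    lc D z a x = lw a (x 0 - D * z.1) (x 1 - D * z.2) := by
  cases a
  · rw [lcf]; simp [lw]
  · rw [lct]; simp [lw]

theorem bd_of {M u ξ : ℤ} (hM : 0 < M) {c d e : ℤ} (h1 : |ξ| ≤ c * M) (h2 : |ξ - 10 * M * u| ≤ d * M)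
    (h3 : c + d < 10 * (e + 1)) : -e ≤ u ∧ u ≤ e := by
  rw [abs_le] at h1 h2
  constructor
  · by_contra hc
    push Not at hc
    have : u ≤ -e - 1 := by omega
    nlinarith
  · by_contra hc
    push Not at hc
    have : e + 1 ≤ u := by omega
    nlinarith

/-- Plane part of the region of an edge, relative to the block. -/
def EdP (M n : ℤ) (a : Bool) (g ξ η : ℤ) : Prop :=
  1 ≤ fw a g ξ η ∧ fw a g ξ η ≤ 14 * M ∧ |lw a ξ η| ≤ 4 * M ∧
    (fw a g ξ η < 6 * M → |lw a ξ η| ≤ M + n)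

theorem EdP.bd {M n : ℤ} {a : Bool} {g ξ η : ℤ} (hM : 0 < M) (hg : g = 1 ∨ g = -1)
    (h : EdP M n a g ξ η) : |ξ| ≤ 14 * M ∧ |η| ≤ 14 * M := by
  obtain ⟨h1, h2, h3, -⟩ := h
  rcases hg with rfl | rfl <;> cases a <;> simp only [fw, lw] at h1 h2 h3 <;>
    simp only [abs_le, if_true, Bool.false_eq_true, if_false] at * <;>
    constructor <;> constructor <;> linarith [h3.1, h3.2]

theorem geo1 {M n : ℤ} {a : Bool} {g ξ η u v : ℤ} (hM : 0 < M) (hg : g = 1 ∨ g = -1)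
    (h : EdP M n a g ξ η) (h1 : |ξ - 10 * M * u| ≤ 4 * M) (h2 : |η - 10 * M * v| ≤ 4 * M) :
    (u = 0 ∧ v = 0) ∨ (u = (if a then 0 else g) ∧ v = (if a then g else 0)) := by
  obtain ⟨b1, b2⟩ := h.bd hM hg
  have c1 := bd_of hM b1 h1 (show (14 : ℤ) + 4 < 10 * (1 + 1) by norm_num)
  have c2 := bd_of hM b2 h2 (show (14 : ℤ) + 4 < 10 * (1 + 1) by norm_num)
  obtain ⟨e1, e2, e3, -⟩ := h
  obtain ⟨c11, c12⟩ := c1
  obtain ⟨c21, c22⟩ := c2
  rcases hg with rfl | rfl <;> cases a <;> simp only [fw, lw] at e1 e2 e3 <;>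
    simp only [abs_le, if_true, Bool.false_eq_true, if_false] at * <;>
    interval_cases u <;> interval_cases v <;> omega

theorem geo2 {M n m : ℤ} {a a' : Bool} {g g' ξ η u v : ℤ} (hm : 0 ≤ m) (hn : 4 * m + 4 ≤ n)
    (hMn : M = n + m + 1) (hg : g = 1 ∨ g = -1) (hg' : g' = 1 ∨ g' = -1)
    (h : EdP M n a g ξ η) (h1 : M + n + 1 ≤ fw a' g' (ξ - 10 * M * u) (η - 10 * M * v))
    (h2 : fw a' g' (ξ - 10 * M * u) (η - 10 * M * v) < 6 * M)
    (h3 : |lw a' (ξ - 10 * M * u) (η - 10 * M * v)| ≤ 2 * M) :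
    (u = 0 ∧ v = 0 ∧ a' = a ∧ g' = g) ∨
    (u + (if a' then 0 else g') = 0 ∧ v + (if a' then g' else 0) = 0) ∨
    (u + (if a' then 0 else g') = (if a then 0 else g) ∧
      v + (if a' then g' else 0) = (if a then g else 0)) ∨
    (u = (if a then 0 else g) ∧ v = (if a then g else 0)) := by
  have hM : 0 < M := by omega
  obtain ⟨b1, b2⟩ := h.bd hM hg
  have d1 : |ξ - 10 * M * u| ≤ 6 * M := by
    rcases hg' with rfl | rfl <;> cases a' <;> simp only [fw, lw] at h1 h2 h3 <;>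
      simp only [abs_le, if_true, Bool.false_eq_true, if_false] at * <;> constructor <;> omega
  have d2 : |η - 10 * M * v| ≤ 6 * M := by
    rcases hg' with rfl | rfl <;> cases a' <;> simp only [fw, lw] at h1 h2 h3 <;>
      simp only [abs_le, if_true, Bool.false_eq_true, if_false] at * <;> constructor <;> omega
  have c1 := bd_of hM b1 d1 (show (14 : ℤ) + 6 < 10 * (2 + 1) by norm_num)
  have c2 := bd_of hM b2 d2 (show (14 : ℤ) + 6 < 10 * (2 + 1) by norm_num)
  clear d1 d2 b1 b2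
  obtain ⟨e1, e2, e3, e4⟩ := h
  obtain ⟨c11, c12⟩ := c1
  obtain ⟨c21, c22⟩ := c2
  rcases hg with rfl | rfl <;> cases a <;> rcases hg' with rfl | rfl <;> cases a' <;>
    simp only [fw, lw] at e1 e2 e3 e4 h1 h2 h3 <;>
    simp only [abs_le, if_true, Bool.false_eq_true, if_false] at * <;>
    interval_cases u <;> interval_cases v <;> omega

theorem geo3 {M n m : ℤ} {a a' : Bool} {g g' ξ η u v : ℤ} (hm : 0 ≤ m) (hn : 4 * m + 4 ≤ n)
    (hMn : M = n + m + 1) (hg : g = 1 ∨ g = -1) (hg' : g' = 1 ∨ g' = -1)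
    (h : EdP M n a g ξ η) (h1 : 4 * M < fw a' g' (ξ - 10 * M * u) (η - 10 * M * v))
    (h2 : fw a' g' (ξ - 10 * M * u) (η - 10 * M * v) < 6 * M)
    (h3 : |lw a' (ξ - 10 * M * u) (η - 10 * M * v)| ≤ 2 * M) :
    (u = 0 ∧ v = 0) ∨
    (u + (if a' then 0 else g') = 0 ∧ v + (if a' then g' else 0) = 0) ∨
    (u + (if a' then 0 else g') = (if a then 0 else g) ∧
      v + (if a' then g' else 0) = (if a then g else 0)) ∨
    (u = (if a then 0 else g) ∧ v = (if a then g else 0)) := by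
  have hM : 0 < M := by omega
  obtain ⟨b1, b2⟩ := h.bd hM hg
  have d1 : |ξ - 10 * M * u| ≤ 6 * M := by
    rcases hg' with rfl | rfl <;> cases a' <;> simp only [fw, lw] at h1 h2 h3 <;>
      simp only [abs_le, if_true, Bool.false_eq_true, if_false] at * <;> constructor <;> omega
  have d2 : |η - 10 * M * v| ≤ 6 * M := by
    rcases hg' with rfl | rfl <;> cases a' <;> simp only [fw, lw] at h1 h2 h3 <;>
      simp only [abs_le, if_true, Bool.false_eq_true, if_false] at * <;> constructor <;> omega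
  have c1 := bd_of hM b1 d1 (show (14 : ℤ) + 6 < 10 * (2 + 1) by norm_num)
  have c2 := bd_of hM b2 d2 (show (14 : ℤ) + 6 < 10 * (2 + 1) by norm_num)
  clear d1 d2 b1 b2
  obtain ⟨e1, e2, e3, e4⟩ := h
  obtain ⟨c11, c12⟩ := c1
  obtain ⟨c21, c22⟩ := c2
  rcases hg with rfl | rfl <;> cases a <;> rcases hg' with rfl | rfl <;> cases a' <;>
    simp only [fw, lw] at e1 e2 e3 e4 h1 h2 h3 <;>
    simp only [abs_le, if_true, Bool.false_eq_true, if_false] at * <;>
    interval_cases u <;> interval_cases v <;> omega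

theorem geo4 {M n : ℤ} {a : Bool} {g ξ η u v : ℤ} (hM : 0 < M) (hg : g = 1 ∨ g = -1)
    (h : EdP M n a g ξ η) (h1 : |ξ - 10 * M * u| ≤ 20 * M) (h2 : |η - 10 * M * v| ≤ 20 * M)
    (h3 : (u - (if a then 0 else g)) % 3 = 0) (h4 : (v - (if a then g else 0)) % 3 = 0) :
    u = (if a then 0 else g) ∧ v = (if a then g else 0) := by
  obtain ⟨b1, b2⟩ := h.bd hM hg
  have c1 := bd_of hM b1 h1 (show (14 : ℤ) + 20 < 10 * (3 + 1) by norm_num)
  have c2 := bd_of hM b2 h2 (show (14 : ℤ) + 20 < 10 * (3 + 1) by norm_num)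
  obtain ⟨e1, e2, e3, -⟩ := h
  obtain ⟨c11, c12⟩ := c1
  obtain ⟨c21, c22⟩ := c2
  rcases hg with rfl | rfl <;> cases a <;> simp only [fw, lw] at e1 e2 e3 <;>
    simp only [abs_le, if_true, Bool.false_eq_true, if_false] at * <;>
    interval_cases u <;> interval_cases v <;> omega

theorem nbr_if (z : ℤ × ℤ) (a : Bool) (g : ℤ) :
    nbr z a g = (z.1 + (if a then 0 else g), z.2 + (if a then g else 0)) := by
  cases a <;> simp [nbr]

theorem geo : GeoStmt := by
  intro k m n hn z a g x hg hE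
  set M : ℤ := Ms m n with hM
  have hMn : M = (n : ℤ) + m + 1 := by rw [hM, Ms]
  have hn' : 4 * (m : ℤ) + 4 ≤ n := by exact_mod_cast hn
  have hm' : (0 : ℤ) ≤ m := by positivity
  have hMpos : 0 < M := by omega
  obtain ⟨h1, h2, h3, h4, -⟩ := hE
  rw [pc_fw] at h1 h2 h4
  rw [lc_lw] at h3 h4
  set ξ : ℤ := x 0 - 10 * M * z.1 with hξ
  set η : ℤ := x 1 - 10 * M * z.2 with hη
  have hP : EdP M n a g ξ η := ⟨h1, h2, h3, h4⟩
  have ex : ∀ y : ℤ × ℤ, x 0 - 10 * M * y.1 = ξ - 10 * M * (y.1 - z.1) := by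
    intro y; rw [hξ]; ring
  have ey : ∀ y : ℤ × ℤ, x 1 - 10 * M * y.2 = η - 10 * M * (y.2 - z.2) := by
    intro y; rw [hη]; ring
  have hnb := nbr_if z a g
  refine ⟨?_, ?_, ?_, ?_, ?_⟩
  · rintro y hy1 hy2 ⟨n1, n2⟩
    rw [cen0, ex y] at n1
    rw [cen1, ey y] at n2
    rcases geo1 hMpos hg hP n1 n2 with ⟨e1, e2⟩ | ⟨e1, e2⟩
    · exact hy1 (Prod.ext (by omega) (by omega))
    · refine hy2 ?_
      rw [hnb]
      exact Prod.ext (by simp only; rw [← e1]; ring) (by simp only; rw [← e2]; ring)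
  · rintro y a' g' hg' hne hn1 hn2 hy ⟨n1, n2, n3⟩
    rw [pc_fw, ex y, ey y] at n1 n2
    rw [lc_lw, ex y, ey y] at n3
    have hnb' := nbr_if y a' g'
    rcases geo2 hm' hn' hMn hg hg' hP n1 n2 n3 with ⟨e1, e2, e3, e4⟩ | ⟨e1, e2⟩ | ⟨e1, e2⟩ | ⟨e1, e2⟩
    · have : y = z := Prod.ext (by omega) (by omega)
      exact hne (by rw [this, e3, e4])
    · apply hn1
      rw [hnb']
      exact Prod.ext (by simp only; linarith) (by simp only; linarith)
    · apply hn2
      rw [hnb', hnb]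
      exact Prod.ext (by simp only; linarith) (by simp only; linarith)
    · refine hy ?_
      rw [hnb]
      exact Prod.ext (by simp only; linarith) (by simp only; linarith)
  · rintro y a' g' hg' hy1 hy2 hn1 hn2 ⟨n1, n2, n3⟩
    rw [pc_fw, ex y, ey y] at n1 n2
    rw [lc_lw, ex y, ey y] at n3
    have hnb' := nbr_if y a' g'
    rcases geo3 hm' hn' hMn hg hg' hP n1 n2 n3 with ⟨e1, e2⟩ | ⟨e1, e2⟩ | ⟨e1, e2⟩ | ⟨e1, e2⟩
    · exact hy1 (Prod.ext (by omega) (by omega))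
    · apply hn1
      rw [hnb']
      exact Prod.ext (by simp only; linarith) (by simp only; linarith)
    · apply hn2
      rw [hnb', hnb]
      exact Prod.ext (by simp only; linarith) (by simp only; linarith)
    · refine hy2 ?_
      rw [hnb]
      exact Prod.ext (by simp only; linarith) (by simp only; linarith)
  · rintro y hy m1 m2 ⟨n1, n2⟩
    rw [cen0, ex y] at n1
    rw [cen1, ey y] at n2
    rw [hnb] at m1 m2
    simp only at m1 m2
    obtain ⟨e1, e2⟩ := geo4 hMpos hg hP n1 n2 (by omega) (by omega)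
    refine hy ?_
    rw [hnb]
    exact Prod.ext (by simp only; linarith) (by simp only; linarith)
  · rw [hnb]
    simp only
    have e0 : x 0 = ξ + 10 * M * z.1 := by rw [hξ]; ring
    rw [e0, mul_add]
    rcases hg with rfl | rfl <;> cases a <;> simp only [fw, lw] at h1 h2 h3 <;>
      simp only [abs_le, if_true, Bool.false_eq_true, if_false] at * <;> omega

end Pool.Agent.TP.H28
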