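import Pool.Agent.Helper28_TP.StS

/-! # SYM: all seed events have the same probability -/

set_option autoImplicit false

namespace Pool.Agent.TP.H28

open Pool.Agent.TP

variable {k : ℕ}

theorem flip_mem {N : Finset (Pt k)} {ρ : ℕ} (hN : GoodN N ρ) (T : Finset (Fin (k + 2))) :
    ∀ z ∈ N, (fun i => if i ∈ T then -z i else z i) ∈ N := by
  induction T using Finset.induction_on with
  | empty =>
    intro z hz
    simpa using hz
  | insert a T ha ih =>
    intro z hz
    have h1 := hN.neg _ (ih z hz) a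
    convert h1 using 1
    funext i
    by_cases hi : i = a
    · subst hi
      simp [ha]
    · simp [hi]

/-- Signed permutation with the transposition of `0` and `a`. -/
def sg (a : Fin (k + 2)) (σ : Pt k) (x : Pt k) : Pt k := fun i => σ i * x (Equiv.swap 0 a i)

theorem sg_mem {N : Finset (Pt k)} {ρ : ℕ} (hN : GoodN N ρ) (a : Fin (k + 2)) {σ : Pt k}
    (hσ : IsSg σ) {z : Pt k} (hz : z ∈ N) : sg a σ z ∈ N := by
  have h1 := hN.perm z hz (Equiv.swap 0 a)
  have h2 := flip_mem hN (Finset.univ.filter (fun i => σ i = -1)) _ h1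
  convert h2 using 1
  funext i
  unfold sg
  rcases hσ i with h | h
  · rw [h]
    simp [h]
  · rw [h]
    simp [h]

theorem sq_one {σ : Pt k} (hσ : IsSg σ) (i : Fin (k + 2)) : σ i * σ i = 1 := by
  rcases hσ i with h | h <;> rw [h] <;> norm_num

theorem sg_inv (a : Fin (k + 2)) {σ : Pt k} (hσ : IsSg σ) (x : Pt k) :
    sg a (fun i => σ (Equiv.swap 0 a i)) (sg a σ x) = x := by
  funext i
  simp only [sg, Equiv.swap_apply_self, ← mul_assoc, sq_one hσ, one_mul]

theorem sg_inv' (a : Fin (k + 2)) {σ : Pt k} (hσ : IsSg σ) (x : Pt k) :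
    sg a σ (sg a (fun i => σ (Equiv.swap 0 a i)) x) = x := by
  funext i
  simp only [sg, Equiv.swap_apply_self, ← mul_assoc, sq_one hσ, one_mul]

/-- The affine map. -/
def em (b : Pt k) (a : Fin (k + 2)) (σ : Pt k) (hσ : IsSg σ) : Pt k ≃ Pt k where
  toFun x := b + sg a σ x
  invFun y := sg a (fun i => σ (Equiv.swap 0 a i)) (y - b)
  left_inv x := by
    simp only [add_sub_cancel_left]
    exact sg_inv a hσ x
  right_inv y := by
    simp only
    rw [sg_inv' a hσ]
    abel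

theorem em_sub (b : Pt k) (a : Fin (k + 2)) (σ : Pt k) (hσ : IsSg σ) (x y : Pt k) :
    em b a σ hσ x - em b a σ hσ y = sg a σ (x - y) := by
  funext i
  simp only [em, Equiv.coe_fn_mk, Pi.sub_apply, Pi.add_apply, sg]
  ring

theorem em_mem {N : Finset (Pt k)} {ρ : ℕ} (hN : GoodN N ρ) (b : Pt k) (a : Fin (k + 2))
    (σ : Pt k) (hσ : IsSg σ) (x y : Pt k) :
    em b a σ hσ x - em b a σ hσ y ∈ N ↔ x - y ∈ N := by
  rw [em_sub]
  constructor
  · intro h
    have hσ' : IsSg (fun i => σ (Equiv.swap 0 a i)) := fun i => hσ _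
    have := sg_mem hN a hσ' h
    rwa [sg_inv a hσ] at this
  · exact sg_mem hN a hσ

theorem abs_sg {σ : Pt k} (hσ : IsSg σ) (i : Fin (k + 2)) (t : ℤ) : |σ i * t| = |t| := by
  rcases hσ i with h | h <;> rw [h] <;> simp

theorem mem_bx_em (b : Pt k) (a : Fin (k + 2)) (σ : Pt k) (hσ : IsSg σ) (c x : Pt k) (r : ℕ) :
    em b a σ hσ x ∈ bx (em b a σ hσ c) r ↔ x ∈ bx c r := by
  rw [mem_bx, mem_bx]
  have key : ∀ i, em b a σ hσ x i - em b a σ hσ c i = σ i * (x - c) (Equiv.swap 0 a i) := by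
    intro i
    have := congrFun (em_sub b a σ hσ x c) i
    simpa [sg] using this
  constructor
  · intro h i
    have := h (Equiv.swap 0 a i)
    rw [key, abs_sg hσ, Equiv.swap_apply_self] at this
    exact this
  · intro h i
    rw [key, abs_sg hσ]
    exact h _

theorem bx_em (b : Pt k) (a : Fin (k + 2)) (σ : Pt k) (hσ : IsSg σ) (c : Pt k) (r : ℕ) :
    bx (em b a σ hσ c) r = (bx c r).map (em b a σ hσ).toEmbedding := by
  ext y
  obtain ⟨x, rfl⟩ := (em b a σ hσ).surjective y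
  rw [mem_bx_em]
  simp

theorem em_zero (b : Pt k) (a : Fin (k + 2)) (σ : Pt k) (hσ : IsSg σ) :
    em b a σ hσ 0 = b := by
  funext i
  simp [em, sg]

theorem bx_em0 (b : Pt k) (a : Fin (k + 2)) (σ : Pt k) (hσ : IsSg σ) (r : ℕ) :
    bx b r = (bx 0 r).map (em b a σ hσ).toEmbedding := by
  rw [← bx_em, em_zero]

theorem swap_ne {a i : Fin (k + 2)} (h : i ≠ a) : Equiv.swap 0 a i ≠ 0 := by
  intro h'
  have : Equiv.swap 0 a (Equiv.swap 0 a i) = Equiv.swap 0 a 0 := by rw [h']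
  rw [Equiv.swap_apply_self, Equiv.swap_apply_left] at this
  exact h this

theorem em_coord (b : Pt k) (a : Fin (k + 2)) (σ : Pt k) (hσ : IsSg σ) (x : Pt k)
    (i : Fin (k + 2)) : σ i * (em b a σ hσ x i - b i) = x (Equiv.swap 0 a i) := by
  simp only [em, Equiv.coe_fn_mk, Pi.add_apply, add_sub_cancel_left, sg, ← mul_assoc, sq_one hσ,
    one_mul]

/-- Passage from the coordinates of `a` to the coordinates of `0`. -/
theorem all_iff (b : Pt k) (a : Fin (k + 2)) (σ : Pt k) (hσ : IsSg σ) (x : Pt k)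
    (P Q : ℤ → Prop) : (P (σ a * (em b a σ hσ x a - b a)) ∧
      ∀ i, i ≠ a → Q (σ i * (em b a σ hσ x i - b i))) ↔
      (P (x 0) ∧ ∀ i, i ≠ 0 → Q (x i)) := by
  rw [em_coord, Equiv.swap_apply_right]
  refine and_congr Iff.rfl ?_
  constructor
  · intro h i hi
    have h1 : Equiv.swap 0 a i ≠ a := by
      intro h'
      have : Equiv.swap 0 a (Equiv.swap 0 a i) = Equiv.swap 0 a a := by rw [h']
      rw [Equiv.swap_apply_self, Equiv.swap_apply_right] at this
      exact hi this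
    have h2 := h _ h1
    rwa [em_coord, Equiv.swap_apply_self] at h2
  · intro h i hi
    rw [em_coord]
    exact h _ (swap_ne hi)

theorem tgt_em (m n : ℕ) (b : Pt k) (a : Fin (k + 2)) (σ : Pt k) (hσ : IsSg σ) :
    tgt m n b a σ = (tgt m n 0 0 (fun _ => 1)).map (em b a σ hσ).toEmbedding := by
  ext y
  obtain ⟨x, rfl⟩ := (em b a σ hσ).surjective y
  have h1 := mem_bx_em b a σ hσ 0 x (n + 2 * m + 1)
  rw [em_zero] at h1
  have h2 := all_iff b a σ hσ x (fun t => (n : ℤ) + 1 ≤ t) (fun t => 0 ≤ t ∧ t ≤ n)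
  rw [tgt, Finset.mem_filter, h1, h2]
  simp [tgt]

theorem win_em (m n : ℕ) (b : Pt k) (a : Fin (k + 2)) (σ : Pt k) (hσ : IsSg σ) :
    win m n b a σ = (win m n 0 0 (fun _ => 1)).map (em b a σ hσ).toEmbedding := by
  rw [win, win, Finset.map_union, ← bx_em0, ← tgt_em]

theorem isNew_em (m n : ℕ) (b : Pt k) (a : Fin (k + 2)) (σ : Pt k) (hσ : IsSg σ) (c : Pt k) :
    isNew m n b a σ (em b a σ hσ c) ↔ isNew m n 0 0 (fun _ => 1) c := by
  have h2 := all_iff b a σ hσ c (fun t => t = (n : ℤ) + m + 1)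
    (fun t => (m : ℤ) ≤ t ∧ t ≤ n - m)
  rw [isNew, h2]
  simp [isNew]

theorem conn_em {N : Finset (Pt k)} {ρ : ℕ} (hN : GoodN N ρ) (b : Pt k) (a : Fin (k + 2))
    (σ : Pt k) (hσ : IsSg σ) (B : Finset (Pt k)) (x y : Pt k) :
    Conn N ↑(B.map (em b a σ hσ).toEmbedding) (em b a σ hσ x) (em b a σ hσ y) ↔
      Conn N ↑B x y := by
  constructor
  · intro h
    have h1 := Relation.ReflTransGen.lift (p := fun u v => v - u ∈ N ∧ v ∈ (↑B : Set (Pt k)))
      (r := fun u v => v - u ∈ N ∧ v ∈ (↑(B.map (em b a σ hσ).toEmbedding) : Set (Pt k)))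
      (em b a σ hσ).symm (by
        rintro u v ⟨h1, h2⟩
        obtain ⟨u', rfl⟩ := (em b a σ hσ).surjective u
        obtain ⟨v', rfl⟩ := (em b a σ hσ).surjective v
        rw [em_mem hN] at h1
        show _ ∧ _
        simp only [Equiv.symm_apply_apply]
        refine ⟨h1, ?_⟩
        simpa using h2) _ _ h
    simpa [Conn, Function.onFun] using h1
  · intro h
    exact Relation.ReflTransGen.lift (r := fun u v => v - u ∈ N ∧ v ∈ (↑B : Set (Pt k)))
      (p := fun u v => v - u ∈ N ∧ v ∈ (↑(B.map (em b a σ hσ).toEmbedding) : Set (Pt k)))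
      (em b a σ hσ) (by
        rintro u v ⟨h1, h2⟩
        refine ⟨(em_mem hN b a σ hσ v u).2 h1, ?_⟩
        simpa using h2) _ _ h

theorem sym : SymStmt := by
  intro k N ρ p hN m n b a σ hσ
  rw [win_em m n b a σ hσ, PS_map]
  refine PS_congr (fun _ _ => rfl) fun A _ => ?_
  have hsub : ∀ c : Pt k, (bx (em b a σ hσ c) m ⊆ A.map (em b a σ hσ).toEmbedding ↔
      bx c m ⊆ A) := by
    intro c
    rw [bx_em, Finset.map_subset_map]
  have hint : A.map (em b a σ hσ).toEmbedding ∩ bx b n =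
      (A ∩ bx 0 n).map (em b a σ hσ).toEmbedding := by
    rw [bx_em0 b a σ hσ n, Finset.map_inter]
  have hb : ∀ (x : Pt k) (r : ℕ), em b a σ hσ x ∈ bx b r ↔ x ∈ bx (0 : Pt k) r := by
    intro x r
    have := mem_bx_em b a σ hσ 0 x r
    rwa [em_zero] at this
  constructor
  · rintro ⟨b', h1, h2, s, hs, x, hx, hc, y, hy, hxy⟩
    obtain ⟨c, rfl⟩ := (em b a σ hσ).surjective b'
    obtain ⟨s', rfl⟩ := (em b a σ hσ).surjective s
    obtain ⟨x', rfl⟩ := (em b a σ hσ).surjective x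
    obtain ⟨y', rfl⟩ := (em b a σ hσ).surjective y
    rw [hint, conn_em hN] at hc
    exact ⟨c, (isNew_em m n b a σ hσ c).1 h1, (hsub c).1 h2, s', (hb _ _).1 hs, x',
      (hb _ _).1 hx, hc, y', (mem_bx_em b a σ hσ c y' m).1 hy, (em_mem hN b a σ hσ y' x').1 hxy⟩
  · rintro ⟨c, h1, h2, s, hs, x, hx, hc, y, hy, hxy⟩
    refine ⟨em b a σ hσ c, (isNew_em m n b a σ hσ c).2 h1, (hsub c).2 h2, em b a σ hσ s,
      (hb _ _).2 hs, em b a σ hσ x, (hb _ _).2 hx, ?_, em b a σ hσ y,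
      (mem_bx_em b a σ hσ c y m).2 hy, (em_mem hN b a σ hσ y x).2 hxy⟩
    rw [hint, conn_em hN]
    exact hc

end Pool.Agent.TP.H28
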