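import Pool.Agent.Helper28_TP.AsmL
import Pool.Agent.Helper28_TP.AsmD
import Pool.Agent.Helper28_TP.AsmS
import Pool.Agent.Helper11_TP.Psh
import Pool.Agent.Helper10_TP.Many
import Pool.Agent.Helper10_TP.Sta
import Pool.Agent.Helper28_TP.Geo
import Pool.Agent.Helper28_TP.Sym

/-! # Both bounds -/

set_option autoImplicit false

namespace Pool.Agent.TP

open MeasureTheory

theorem upp_of1 (hAts : AtsStmt) : UppStmt :=
  upp_of H11.psh (H10.sta H59.psm H31.psl (step_of H11.psh H10.many hAts H28.sym)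
    (run_of H28.geo))

/-- Both bounds. -/
theorem both_of (hU : UppStmt) (hL : LowStmt) (k : ℕ) (r lam s : ℝ) (hr : 0 < r) (hs : 0 < s)
    (hlam : lamC k r < ENNReal.ofReal lam) :
    ∃ c C : ℝ, 0 < c ∧ c ≤ C ∧ ∃ t₀ : ℕ, ∀ t ≥ t₀,
      Real.exp (-(C * expo k t)) ≤ tail k r lam s t ∧
      tail k r lam s t ≤ Real.exp (-(c * expo k t)) := by
  have hl : 0 < lam := by
    by_contra h
    rw [ENNReal.ofReal_of_nonpos (not_lt.1 h)] at hlam
    exact absurd hlam (by simp)
  obtain ⟨c, hc, t₀, hu⟩ := hU k r lam s hr hs hlam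
  obtain ⟨C, hC, hlow⟩ := hL k r lam s hr hl hs
  refine ⟨c, max c C, hc, le_max_left _ _, max t₀ 2, fun t ht => ?_⟩
  have h1 : t₀ ≤ t := le_trans (le_max_left _ _) ht
  have h2 : 2 ≤ t := le_trans (le_max_right _ _) ht
  refine ⟨le_trans ?_ (hlow t h2), hu t h1⟩
  rw [Real.exp_le_exp]
  have he : 0 ≤ expo k t := by
    unfold expo
    split_ifs
    · have : 0 ≤ Real.log t := Real.log_natCast_nonneg t
      positivity
    · positivity
  have := mul_le_mul_of_nonneg_right (le_max_right c C) he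
  linarith

end Pool.Agent.TP
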