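import Pool.Agent.Helper9_TP.Low
import Pool.Agent.Helper26_TP.Void
import Pool.Agent.Helper76_TP.Lf
import Pool.Agent.Helper39_TP.Leb
import Pool.Agent.Helper13_TP.Sau
import Pool.Agent.Helper13_TP.Gau

/-! # The lower bound -/

set_option autoImplicit false

namespace Pool.Agent.TP

theorem low_all : LowStmt := H9.low (H26.void H76.lf H39.leb) (H13.sau H13.gau)

end Pool.Agent.TP
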