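import Mathlib

/-!
# Mobile geometric graphs: definitions

The dimension is `d = k + 2`.  The Poisson process of nodes is constructed cell by cell: the unit
cube with corner `z` contains `N z` nodes at independent uniform points, `N z` Poisson; each node
carries the sequence of its Gaussian steps.
-/

set_option autoImplicit false

namespace Pool.Agent.TP

open MeasureTheory ProbabilityTheory

/-- Lattice points. -/
abbrev Pt (k : ℕ) : Type := Fin (k + 2) → ℤ

/-- Points of space. -/
abbrev Sp (k : ℕ) : Type := Fin (k + 2) → ℝ

/-- Data of one node: its position relative to the corner of its cell, and its steps. -/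
abbrev Mk (k : ℕ) : Type := Sp k × (ℕ → Sp k)

/-- Configurations: for every cell the number of its nodes and the data of the nodes (only the
first `N` of the sequence are nodes). -/
abbrev Cf (k : ℕ) : Type := Pt k → ℕ × (ℕ → Mk k)

/-- Law of one step: centred Gaussian vector with covariance `s ^ 2` times the identity. -/
noncomputable def stepLaw (k : ℕ) (s : ℝ) : Measure (Sp k) :=
  Measure.pi (fun _ => gaussianReal 0 (Real.toNNReal (s ^ 2)))

/-- Uniform law on the unit cube. -/
noncomputable def unif (k : ℕ) : Measure (Sp k) :=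
  Measure.pi (fun _ => volume.restrict (Set.Ico (0 : ℝ) 1))

/-- Law of the steps of one walker. -/
noncomputable def walkLaw (k : ℕ) (s : ℝ) : Measure (ℕ → Sp k) :=
  Measure.infinitePi (fun _ => stepLaw k s)

/-- Law of the data of one node. -/
noncomputable def markLaw (k : ℕ) (s : ℝ) : Measure (Mk k) := (unif k).prod (walkLaw k s)

/-- Law of the configuration: independent cells, Poisson numbers with mean `lam`, independent
nodes. -/
noncomputable def confLaw (k : ℕ) (lam s : ℝ) : Measure (Cf k) :=
  Measure.infinitePi (fun _ => (poissonMeasure (Real.toNNReal lam)).prod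
    (Measure.infinitePi (fun _ => markLaw k s)))

/-- Position after `i` steps of the walker that starts at `x` and has steps `y`. -/
def walk {k : ℕ} (x : Sp k) (y : ℕ → Sp k) (i : ℕ) : Sp k :=
  fun a => x a + ∑ j ∈ Finset.range i, y j a

/-- Position at time `i` of the node with label `v` (cell and number). -/
def pos {k : ℕ} (ω : Cf k) (i : ℕ) (v : Pt k × ℕ) : Sp k :=
  walk (fun a => (v.1 a : ℝ) + ((ω v.1).2 v.2).1 a) ((ω v.1).2 v.2).2 i

/-- The label `v` belongs to a node. -/
def alive {k : ℕ} (ω : Cf k) (v : Pt k × ℕ) : Prop := v.2 < (ω v.1).1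

/-- Euclidean distance at most `r`. -/
def near {k : ℕ} (r : ℝ) (x y : Sp k) : Prop := ∑ a, (x a - y a) ^ 2 ≤ r ^ 2

/-- The geometric graph on the points `p v` with `v` in `A`. -/
def geo {k : ℕ} {V : Type} (r : ℝ) (A : V → Prop) (p : V → Sp k) : SimpleGraph V :=
  SimpleGraph.fromRel (fun u v => A u ∧ A v ∧ near r (p u) (p v))

/-- The graph `G_i` on the nodes. -/
def graphAt {k : ℕ} (r : ℝ) (ω : Cf k) (i : ℕ) : SimpleGraph (Pt k × ℕ) :=
  geo r (alive ω) (pos ω i)

/-- The graph `G_i` with the additional node `none` at the point `w`. -/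
def graphWith {k : ℕ} (r : ℝ) (ω : Cf k) (w : Sp k) (i : ℕ) : SimpleGraph (Option (Pt k × ℕ)) :=
  geo r (fun v => ∀ u ∈ v, alive ω u) (fun v => v.elim w (pos ω i))

/-- The component of `v` in the graph `G` is infinite. -/
def InInf {V : Type} (G : SimpleGraph V) (v : V) : Prop := {u | G.Reachable v u}.Infinite

/-- The Poisson random geometric graph of intensity `lam` has an infinite component with positive
probability. -/
def Percolates (k : ℕ) (r lam : ℝ) : Prop :=
  confLaw k lam 0 {ω | ∃ v, InInf (graphAt r ω 0) v} ≠ 0

/-- The percolation threshold. -/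
noncomputable def lamC (k : ℕ) (r : ℝ) : ENNReal :=
  sInf {x | ∃ lam : ℝ, 0 < lam ∧ Percolates k r lam ∧ x = ENNReal.ofReal lam}

/-- The percolation time of the additional node, which starts at the origin and has steps `y`. -/
noncomputable def Tperc {k : ℕ} (r : ℝ) (ω : Cf k) (y : ℕ → Sp k) : ℕ∞ :=
  sInf {x | ∃ i : ℕ, InInf (graphWith r ω (walk 0 y i) i) none ∧ x = (i : ℕ∞)}

/-- Probability that the percolation time is at least `t`. -/
noncomputable def tail (k : ℕ) (r lam s : ℝ) (t : ℕ) : ℝ :=
  ((confLaw k lam s).prod (walkLaw k s)).real {x | (t : ℕ∞) ≤ Tperc r x.1 x.2}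

/-- The conjectured exponent: `t / log t` in dimension two and `t` in higher dimensions. -/
noncomputable def expo (k t : ℕ) : ℝ := if k = 0 then t / Real.log t else t

end Pool.Agent.TP
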