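import Mathlib

/-!
# Random subsets of a finite set

`EX V q f` is the expectation of `f A` for the random subset `A` of the finite set `V` that
contains each `a` independently with probability `q a`; `PS V q E` is the probability of `E A`.
-/

set_option autoImplicit false

namespace Pool.Agent.TP

variable {α : Type} [DecidableEq α]

/-- The weight of the subset `A` of `V`. -/
noncomputable def wt (V : Finset α) (q : α → ℝ) (A : Finset α) : ℝ :=
  ∏ a ∈ V, (if a ∈ A then q a else 1 - q a)

/-- Expectation over the random subset of `V` with inclusion probabilities `q`. -/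
noncomputable def EX (V : Finset α) (q : α → ℝ) (f : Finset α → ℝ) : ℝ :=
  ∑ A ∈ V.powerset, wt V q A * f A

open Classical in
/-- Probability over the random subset of `V` with inclusion probabilities `q`. -/
noncomputable def PS (V : Finset α) (q : α → ℝ) (E : Finset α → Prop) : ℝ :=
  EX V q (fun A => if E A then 1 else 0)

/-- The inclusion probabilities lie in the unit interval. -/
def U01 (V : Finset α) (q : α → ℝ) : Prop := ∀ a ∈ V, 0 ≤ q a ∧ q a ≤ 1

theorem wt_nonneg {V : Finset α} {q : α → ℝ} (h : U01 V q) (A : Finset α) : 0 ≤ wt V q A := by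
  refine Finset.prod_nonneg fun a ha => ?_
  obtain ⟨h1, h2⟩ := h a ha
  split_ifs <;> linarith

theorem wt_congr {V : Finset α} {q q' : α → ℝ} {A A' : Finset α} (h : ∀ a ∈ V, q a = q' a)
    (h' : ∀ a ∈ V, (a ∈ A ↔ a ∈ A')) : wt V q A = wt V q' A' := by
  refine Finset.prod_congr rfl fun a ha => ?_
  rw [h a ha]
  by_cases hA : a ∈ A
  · rw [if_pos hA, if_pos ((h' a ha).1 hA)]
  · rw [if_neg hA, if_neg (fun h2 => hA ((h' a ha).2 h2))]

theorem EX_congr {V : Finset α} {q q' : α → ℝ} {f f' : Finset α → ℝ} (h : ∀ a ∈ V, q a = q' a)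
    (h' : ∀ A ⊆ V, f A = f' A) : EX V q f = EX V q' f' := by
  refine Finset.sum_congr rfl fun A hA => ?_
  rw [wt_congr (A := A) (A' := A) h (fun _ _ => Iff.rfl), h' A (Finset.mem_powerset.1 hA)]

theorem EX_empty (q : α → ℝ) (f : Finset α → ℝ) : EX ∅ q f = f ∅ := by
  simp [EX, wt]

/-- Fubini for one more element. -/
theorem EX_insert {V : Finset α} {a : α} (ha : a ∉ V) (q : α → ℝ) (f : Finset α → ℝ) :
    EX (insert a V) q f = q a * EX V q (fun A => f (insert a A)) + (1 - q a) * EX V q f := by
  unfold EX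
  rw [Finset.sum_powerset_insert ha, add_comm, Finset.mul_sum, Finset.mul_sum]
  congr 1
  · refine Finset.sum_congr rfl fun A hA => ?_
    have hA' := Finset.mem_powerset.1 hA
    unfold wt
    rw [Finset.prod_insert ha, if_pos (Finset.mem_insert_self a A), mul_assoc]
    congr 2
    refine Finset.prod_congr rfl fun b hb => ?_
    have hba : b ≠ a := fun h => ha (h ▸ hb)
    simp [hba]
  · refine Finset.sum_congr rfl fun A hA => ?_
    have hA' := Finset.mem_powerset.1 hA
    have haA : a ∉ A := fun h => ha (hA' h)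
    unfold wt
    rw [Finset.prod_insert ha, if_neg haA, mul_assoc]

theorem EX_add (V : Finset α) (q : α → ℝ) (f g : Finset α → ℝ) :
    EX V q (fun A => f A + g A) = EX V q f + EX V q g := by
  unfold EX
  rw [← Finset.sum_add_distrib]
  exact Finset.sum_congr rfl fun A _ => by ring

theorem EX_sub (V : Finset α) (q : α → ℝ) (f g : Finset α → ℝ) :
    EX V q (fun A => f A - g A) = EX V q f - EX V q g := by
  unfold EX
  rw [← Finset.sum_sub_distrib]
  exact Finset.sum_congr rfl fun A _ => by ring

theorem EX_mul (V : Finset α) (q : α → ℝ) (c : ℝ) (f : Finset α → ℝ) :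
    EX V q (fun A => c * f A) = c * EX V q f := by
  unfold EX
  rw [Finset.mul_sum]
  exact Finset.sum_congr rfl fun A _ => by ring

theorem EX_sum {ι : Type} (V : Finset α) (q : α → ℝ) (S : Finset ι) (f : ι → Finset α → ℝ) :
    EX V q (fun A => ∑ i ∈ S, f i A) = ∑ i ∈ S, EX V q (f i) := by
  unfold EX
  rw [Finset.sum_comm]
  exact Finset.sum_congr rfl fun A _ => by rw [Finset.mul_sum]

theorem EX_mono {V : Finset α} {q : α → ℝ} (h : U01 V q) {f g : Finset α → ℝ}
    (hfg : ∀ A ⊆ V, f A ≤ g A) : EX V q f ≤ EX V q g :=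
  Finset.sum_le_sum fun A hA =>
    mul_le_mul_of_nonneg_left (hfg A (Finset.mem_powerset.1 hA)) (wt_nonneg h A)

theorem EX_const (V : Finset α) (q : α → ℝ) (c : ℝ) : EX V q (fun _ => c) = c := by
  induction V using Finset.induction_on with
  | empty => exact EX_empty q _
  | insert a V ha ih => rw [EX_insert ha, ih]; ring

theorem EX_nonneg {V : Finset α} {q : α → ℝ} (h : U01 V q) {f : Finset α → ℝ}
    (hf : ∀ A ⊆ V, 0 ≤ f A) : 0 ≤ EX V q f := by
  have := EX_mono h (f := fun _ => 0) (g := f) hf
  rwa [EX_const] at this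

/-- Comparison only on the subsets that occur. -/
theorem EX_mono' {V : Finset α} {q : α → ℝ} (h : U01 V q) {f g : Finset α → ℝ}
    (hfg : ∀ A ⊆ V, (∀ a ∈ V, q a = 1 → a ∈ A) → (∀ a ∈ V, q a = 0 → a ∉ A) → f A ≤ g A) :
    EX V q f ≤ EX V q g := by
  refine Finset.sum_le_sum fun A hA => ?_
  have hA' := Finset.mem_powerset.1 hA
  by_cases h1 : ∀ a ∈ V, q a = 1 → a ∈ A
  · by_cases h0 : ∀ a ∈ V, q a = 0 → a ∉ A
    · exact mul_le_mul_of_nonneg_left (hfg A hA' h1 h0) (wt_nonneg h A)
    · push Not at h0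
      obtain ⟨a, ha, hq, haA⟩ := h0
      have : wt V q A = 0 := Finset.prod_eq_zero ha (by rw [if_pos haA, hq])
      rw [this, zero_mul, zero_mul]
  · push Not at h1
    obtain ⟨a, ha, hq, haA⟩ := h1
    have : wt V q A = 0 := Finset.prod_eq_zero ha (by rw [if_neg haA, hq, sub_self])
    rw [this, zero_mul, zero_mul]

/-- **Fubini**: the traces on two disjoint sets are independent. -/
theorem EX_union {V W : Finset α} (hd : Disjoint V W) (q : α → ℝ)
    (f : Finset α → Finset α → ℝ) :
    EX (V ∪ W) q (fun A => f (A ∩ V) (A ∩ W)) = EX V q (fun B => EX W q (fun C => f B C)) := by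
  induction V using Finset.induction_on generalizing f with
  | empty =>
    rw [EX_empty, Finset.empty_union]
    refine EX_congr (fun _ _ => rfl) fun A hA => ?_
    rw [Finset.inter_empty, Finset.inter_eq_left.2 hA]
  | insert a V ha ih =>
    rw [Finset.disjoint_insert_left] at hd
    obtain ⟨haW, hd⟩ := hd
    have haV : a ∉ V ∪ W := by simp [ha, haW]
    rw [Finset.insert_union, EX_insert haV, EX_insert ha]
    congr 1
    · congr 1
      rw [← ih hd (fun B C => f (insert a B) C)]
      refine EX_congr (fun _ _ => rfl) fun A hA => ?_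
      congr 1
      · rw [Finset.insert_inter_distrib]
      · rw [Finset.insert_inter_of_notMem haW]
    · congr 1
      rw [← ih hd f]
      refine EX_congr (fun _ _ => rfl) fun A hA => ?_
      have haA : a ∉ A := fun h => haV (hA h)
      congr 1
      rw [Finset.inter_insert_of_notMem haA]

/-- Marginals. -/
theorem EX_marg {V V' : Finset α} (h : V' ⊆ V) (q : α → ℝ) (f : Finset α → ℝ) :
    EX V q (fun A => f (A ∩ V')) = EX V' q f := by
  have h1 : V' ∪ (V \ V') = V := Finset.union_sdiff_of_subset h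
  have h2 := EX_union (V := V') (W := V \ V') Finset.disjoint_sdiff q (fun B _ => f B)
  rw [h1] at h2
  rw [h2]
  exact EX_congr (fun _ _ => rfl) fun A _ => EX_const _ _ _

theorem EX_marg' {V V' : Finset α} (h : V' ⊆ V) (q : α → ℝ) {f : Finset α → ℝ}
    (hf : ∀ A ⊆ V, f A = f (A ∩ V')) : EX V q f = EX V' q f := by
  rw [← EX_marg h q f]
  exact EX_congr (fun _ _ => rfl) hf

/-- Products of functions of disjoint traces. -/
theorem EX_indep {V V' : Finset α} (W : Finset α) (h : V ⊆ W) (h' : V' ⊆ W) (hd : Disjoint V V')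
    (q : α → ℝ) {f g : Finset α → ℝ} (hf : ∀ A ⊆ W, f A = f (A ∩ V))
    (hg : ∀ A ⊆ W, g A = g (A ∩ V')) :
    EX W q (fun A => f A * g A) = EX W q f * EX W q g := by
  rw [EX_marg' h q hf, EX_marg' h' q hg]
  have h1 : EX W q (fun A => f A * g A) = EX (V ∪ V') q (fun A => f (A ∩ V) * g (A ∩ V')) := by
    rw [← EX_marg (Finset.union_subset h h') q]
    refine EX_congr (fun _ _ => rfl) fun A hA => ?_
    rw [hf A hA, hg A hA]
    congr 2
    · rw [Finset.inter_assoc, Finset.inter_eq_right.2 Finset.subset_union_left]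
    · rw [Finset.inter_assoc, Finset.inter_eq_right.2 Finset.subset_union_right]
  rw [h1, EX_union hd q (fun B C => f B * g C)]
  have h2 : ∀ B ⊆ V, EX V' q (fun C => f B * g C) = EX V' q g * f B := by
    intro B _
    rw [EX_mul]; ring
  rw [EX_congr (fun _ _ => rfl) h2, EX_mul]; ring

/-- Change of variables under an injection. -/
theorem EX_map {β : Type} [DecidableEq β] (e : α ↪ β) (V : Finset α) (q : β → ℝ)
    (f : Finset β → ℝ) : EX (V.map e) q f = EX V (fun a => q (e a)) (fun A => f (A.map e)) := by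
  induction V using Finset.induction_on generalizing f with
  | empty => simp [EX_empty]
  | insert a V ha ih =>
    have h1 : e a ∉ V.map e := by simpa using ha
    rw [Finset.map_insert, EX_insert h1, EX_insert ha, ih, ih]
    congr 2
    refine EX_congr (fun _ _ => rfl) fun A _ => ?_
    rw [Finset.map_insert]

/-! ### Probabilities -/

theorem PS_def (V : Finset α) (q : α → ℝ) (E : Finset α → Prop) [DecidablePred E] :
    PS V q E = EX V q (fun A => if E A then 1 else 0) := by
  unfold PS
  congr 1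
  funext A
  by_cases h : E A <;> simp [h]

theorem PS_nonneg {V : Finset α} {q : α → ℝ} (h : U01 V q) (E : Finset α → Prop) :
    0 ≤ PS V q E := by
  classical
  rw [PS_def]
  exact EX_nonneg h fun A _ => by split_ifs <;> norm_num

theorem PS_true (V : Finset α) (q : α → ℝ) : PS V q (fun _ => True) = 1 := by
  classical
  rw [PS_def]
  simpa using EX_const V q 1

theorem PS_false (V : Finset α) (q : α → ℝ) : PS V q (fun _ => False) = 0 := by
  classical
  rw [PS_def]
  simpa using EX_const V q 0

theorem PS_mono {V : Finset α} {q : α → ℝ} (h : U01 V q) {E F : Finset α → Prop}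
    (hEF : ∀ A ⊆ V, E A → F A) : PS V q E ≤ PS V q F := by
  classical
  rw [PS_def, PS_def]
  refine EX_mono h fun A hA => ?_
  by_cases h1 : E A
  · simp [h1, hEF A hA h1]
  · by_cases h2 : F A <;> simp [h1, h2]

/-- Comparison only on the subsets that occur. -/
theorem PS_mono' {V : Finset α} {q : α → ℝ} (h : U01 V q) {E F : Finset α → Prop}
    (hEF : ∀ A ⊆ V, (∀ a ∈ V, q a = 1 → a ∈ A) → (∀ a ∈ V, q a = 0 → a ∉ A) → E A → F A) :
    PS V q E ≤ PS V q F := by
  classical
  rw [PS_def, PS_def]
  refine EX_mono' h fun A hA h1' h0' => ?_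
  by_cases h1 : E A
  · simp [h1, hEF A hA h1' h0' h1]
  · by_cases h2 : F A <;> simp [h1, h2]

theorem PS_congr {V : Finset α} {q q' : α → ℝ} {E F : Finset α → Prop}
    (h : ∀ a ∈ V, q a = q' a) (h' : ∀ A ⊆ V, (E A ↔ F A)) : PS V q E = PS V q' F := by
  classical
  rw [PS_def, PS_def]
  refine EX_congr h fun A hA => ?_
  simp [h' A hA]

theorem PS_le_one {V : Finset α} {q : α → ℝ} (h : U01 V q) (E : Finset α → Prop) :
    PS V q E ≤ 1 := by
  rw [← PS_true V q]
  exact PS_mono h fun _ _ _ => trivial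

theorem PS_not (V : Finset α) (q : α → ℝ) (E : Finset α → Prop) :
    PS V q (fun A => ¬ E A) = 1 - PS V q E := by
  classical
  have h1 := EX_sub V q (fun _ => 1) (fun A => if E A then (1 : ℝ) else 0)
  rw [EX_const] at h1
  rw [PS_def, PS_def, ← h1]
  refine EX_congr (fun _ _ => rfl) fun A _ => ?_
  by_cases h : E A <;> simp [h]

theorem PS_or_le {V : Finset α} {q : α → ℝ} (h : U01 V q) (E F : Finset α → Prop) :
    PS V q (fun A => E A ∨ F A) ≤ PS V q E + PS V q F := by
  classical
  rw [PS_def, PS_def, PS_def, ← EX_add]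
  refine EX_mono h fun A _ => ?_
  by_cases h1 : E A <;> by_cases h2 : F A <;> simp [h1, h2]

theorem PS_exists_le {ι : Type} {V : Finset α} {q : α → ℝ} (h : U01 V q) (S : Finset ι)
    (E : ι → Finset α → Prop) :
    PS V q (fun A => ∃ i ∈ S, E i A) ≤ ∑ i ∈ S, PS V q (E i) := by
  classical
  simp only [PS_def]
  rw [← EX_sum]
  refine EX_mono h fun A _ => ?_
  by_cases h1 : ∃ i ∈ S, E i A
  · rw [if_pos h1]
    obtain ⟨i, hi, hE⟩ := h1
    refine le_trans ?_ (Finset.single_le_sum (f := fun i => if E i A then (1 : ℝ) else 0)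
      (fun j _ => by split_ifs <;> norm_num) hi)
    simp [hE]
  · rw [if_neg h1]
    exact Finset.sum_nonneg fun j _ => by split_ifs <;> norm_num

theorem PS_marg {V V' : Finset α} (h : V' ⊆ V) (q : α → ℝ) {E : Finset α → Prop}
    (hE : ∀ A ⊆ V, (E A ↔ E (A ∩ V'))) : PS V q E = PS V' q E := by
  classical
  rw [PS_def, PS_def]
  exact EX_marg' h q fun A hA => by simp only [hE A hA]

theorem PS_indep {V V' : Finset α} (W : Finset α) (h : V ⊆ W) (h' : V' ⊆ W) (hd : Disjoint V V')
    (q : α → ℝ) {E F : Finset α → Prop} (hE : ∀ A ⊆ W, (E A ↔ E (A ∩ V)))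
    (hF : ∀ A ⊆ W, (F A ↔ F (A ∩ V'))) :
    PS W q (fun A => E A ∧ F A) = PS W q E * PS W q F := by
  classical
  rw [PS_def, PS_def, PS_def, ← EX_indep W h h' hd q (fun A hA => by simp only [hE A hA])
    (fun A hA => by simp only [hF A hA])]
  refine EX_congr (fun _ _ => rfl) fun A _ => ?_
  by_cases h1 : E A <;> by_cases h2 : F A <;> simp [h1, h2]

theorem PS_map {β : Type} [DecidableEq β] (e : α ↪ β) (V : Finset α) (q : β → ℝ)
    (E : Finset β → Prop) :
    PS (V.map e) q E = PS V (fun a => q (e a)) (fun A => E (A.map e)) := by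
  classical
  rw [PS_def, PS_def, EX_map]

end Pool.Agent.TP
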