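import Pool.Agent.Helper28_TP.Defs
import Pool.Agent.Helper28_TP.PS
import Pool.Agent.Helper33_FPP.Unicoherent

/-!
# Finite range site percolation: definitions for the static part
-/

set_option autoImplicit false

namespace Pool.Agent.TP

open Pool.Agent.Helper33_FPP (Z2 dst Rect)

variable {k : ℕ}

/-! ### Boxes, adjacency, connections -/

/-- The box of radius `n` around `b`. -/
noncomputable def bx (b : Pt k) (n : ℕ) : Finset (Pt k) := Finset.Icc (fun i => b i - n) (fun i => b i + n)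

theorem mem_bx {b x : Pt k} {n : ℕ} : x ∈ bx b n ↔ ∀ i, |x i - b i| ≤ n := by
  simp only [bx, Finset.mem_Icc, Pi.le_def, abs_le]
  constructor
  · rintro ⟨h1, h2⟩ i
    have := h1 i
    have := h2 i
    constructor <;> linarith
  · intro h
    exact ⟨fun i => by linarith [(h i).1], fun i => by linarith [(h i).2]⟩

/-- The neighbourhood `N` is invariant under the symmetries of the cube, has range `ρ`, and
contains `ρ e₀` and `e₀`. -/
structure GoodN (N : Finset (Pt k)) (ρ : ℕ) : Prop where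
  perm : ∀ z ∈ N, ∀ π : Equiv.Perm (Fin (k + 2)), (fun i => z (π i)) ∈ N
  neg : ∀ z ∈ N, ∀ i, Function.update z i (-(z i)) ∈ N
  bd : ∀ z ∈ N, ∀ i, |z i| ≤ ρ
  ax : (Pi.single 0 (ρ : ℤ) : Pt k) ∈ N
  unit : (Pi.single 0 (1 : ℤ) : Pt k) ∈ N

/-- `y` can be reached from `x` by steps in `N` such that all points after `x` lie in `A`. -/
def Conn (N : Finset (Pt k)) (A : Set (Pt k)) (x y : Pt k) : Prop :=
  Relation.ReflTransGen (fun u v => v - u ∈ N ∧ v ∈ A) x y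

/-- One-arm probabilities of site percolation with parameter `p` are at least `θ`. -/
def PercN (N : Finset (Pt k)) (ρ : ℕ) (p θ : ℝ) : Prop :=
  ∀ n : ℕ, θ ≤ PS (bx (0 : Pt k) (n + ρ)) (fun _ => p)
    (fun A => ∃ y ∈ bx (0 : Pt k) (n + ρ) \ bx 0 n, Conn N ↑A 0 y)

/-- `x` is joined to the box of radius `m` around the origin. -/
def Hit (N : Finset (Pt k)) (m : ℕ) (A : Finset (Pt k)) (x : Pt k) : Prop :=
  ∃ s ∈ bx (0 : Pt k) m, Conn N ↑A s x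

/-- The inner boundary layer of the box of radius `n`. -/
noncomputable def lay (k n ρ : ℕ) : Finset (Pt k) := bx 0 n \ bx 0 (n - ρ)

/-- One orthant of one face of the layer. -/
noncomputable def fac (k n ρ : ℕ) : Finset (Pt k) :=
  (lay k n ρ).filter (fun x => (n : ℤ) - ρ < x 0 ∧ ∀ i, 0 ≤ x i)

open Classical in
/-- Number of points of `S` joined to the box of radius `m`. -/
noncomputable def cnt (N : Finset (Pt k)) (m : ℕ) (S A : Finset (Pt k)) : ℕ :=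
  (S.filter (Hit N m A)).card

/-! ### Seeds -/

/-- Sign vectors. -/
def IsSg (σ : Pt k) : Prop := ∀ i, σ i = 1 ∨ σ i = -1

/-- Target region of a step from `b` in direction `σ a • e_a` with lateral signs `σ`. -/
noncomputable def tgt (m n : ℕ) (b : Pt k) (a : Fin (k + 2)) (σ : Pt k) : Finset (Pt k) :=
  (bx b (n + 2 * m + 1)).filter (fun x => (n : ℤ) + 1 ≤ σ a * (x a - b a) ∧
    ∀ i, i ≠ a → 0 ≤ σ i * (x i - b i) ∧ σ i * (x i - b i) ≤ n)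

/-- `b'` is an admissible centre of a new seed in the target region. -/
def isNew (m n : ℕ) (b : Pt k) (a : Fin (k + 2)) (σ b' : Pt k) : Prop :=
  σ a * (b' a - b a) = n + m + 1 ∧
    ∀ i, i ≠ a → (m : ℤ) ≤ σ i * (b' i - b i) ∧ σ i * (b' i - b i) ≤ n - m

/-- Window of a step. -/
noncomputable def win (m n : ℕ) (b : Pt k) (a : Fin (k + 2)) (σ : Pt k) : Finset (Pt k) :=
  bx b n ∪ tgt m n b a σ

/-- The box of radius `m` around `b` is joined inside the box of radius `n` to a full box of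
radius `m` in the target region. -/
def SeedEv (N : Finset (Pt k)) (m n : ℕ) (b : Pt k) (a : Fin (k + 2)) (σ : Pt k)
    (A : Finset (Pt k)) : Prop :=
  ∃ b', isNew m n b a σ b' ∧ bx b' m ⊆ A ∧
    ∃ s ∈ bx b m, ∃ x ∈ bx b n, Conn N ↑(A ∩ bx b n) s x ∧ ∃ y ∈ bx b' m, y - x ∈ N

/-! ### Exploration with layers

Points of `Pt k × ℕ` are pairs (site, layer); layer `0` has parameter `p`, the layers
`1, …, K` have parameter `ε`. -/

/-- Initial inclusion probabilities. -/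
def q0 (p ε : ℝ) (x : Pt k × ℕ) : ℝ := if x.2 = 0 then p else ε

/-- A state: inclusion probabilities (`0` or `1` for revealed pairs), the explored open
cluster `R` and the set `E` of the other explored sites. -/
structure St (k : ℕ) where
  q : Pt k × ℕ → ℝ
  R : Finset (Pt k)
  E : Finset (Pt k)

/-- Consistency of a state. -/
structure OKs (p ε : ℝ) (K : ℕ) (s : St k) : Prop where
  free : ∀ v, v ∉ s.R → v ∉ s.E → ∀ j, s.q (v, j) = q0 p ε (v, j)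
  opn : ∀ v ∈ s.R, ∃ j ≤ K, s.q (v, j) = 1
  val : ∀ v j, s.q (v, j) = 0 ∨ s.q (v, j) = 1 ∨ s.q (v, j) = q0 p ε (v, j)

/-- Conditional probability of the event `Φ` given the state `s`; `Λ` is the volume. -/
noncomputable def PSt (Λ : Finset (Pt k)) (K : ℕ) (s : St k)
    (Φ : Finset (Pt k × ℕ) → Prop) : ℝ :=
  PS (Λ ×ˢ Finset.range (K + 1)) s.q Φ

/-- Open sites of the window outside the cluster, seen through layer `ℓ` and, for unexplored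
sites, layer `0`. -/
noncomputable def opAt (W : Finset (Pt k)) (ℓ : ℕ) (s : St k) (A : Finset (Pt k × ℕ)) : Finset (Pt k) :=
  (W \ s.R).filter (fun v => (v, ℓ) ∈ A ∨ (v ∉ s.E ∧ (v, 0) ∈ A))

open Classical in
/-- The cluster after the step. -/
noncomputable def nR (N : Finset (Pt k)) (W : Finset (Pt k)) (ℓ : ℕ) (s : St k)
    (A : Finset (Pt k × ℕ)) : Finset (Pt k) :=
  s.R ∪ (opAt W ℓ s A).filter (fun x => ∃ r ∈ s.R, Conn N ↑(opAt W ℓ s A) r x)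

open Classical in
/-- The closed sites met in the step. -/
noncomputable def nB (N : Finset (Pt k)) (W : Finset (Pt k)) (ℓ : ℕ) (s : St k)
    (A : Finset (Pt k × ℕ)) : Finset (Pt k) :=
  (W \ nR N W ℓ s A).filter (fun v => ∃ u ∈ nR N W ℓ s A, v - u ∈ N)

/-- The sites revealed in the step. -/
noncomputable def rv (N : Finset (Pt k)) (W : Finset (Pt k)) (ℓ : ℕ) (s : St k)
    (A : Finset (Pt k × ℕ)) : Finset (Pt k) :=
  (nR N W ℓ s A \ s.R) ∪ nB N W ℓ s A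

/-- The state after the step. -/
noncomputable def nxt (N : Finset (Pt k)) (W : Finset (Pt k)) (ℓ : ℕ) (s : St k)
    (A : Finset (Pt k × ℕ)) : St k where
  q x := if x.1 ∈ rv N W ℓ s A ∧ (x.2 = ℓ ∨ (x.2 = 0 ∧ x.1 ∉ s.E)) then (if x ∈ A then 1 else 0)
    else s.q x
  R := nR N W ℓ s A
  E := (s.E \ nR N W ℓ s A) ∪ nB N W ℓ s A

/-- `s'` is a possible state after a step with window `W` and layer `ℓ`. -/
structure Nxt (N : Finset (Pt k)) (p ε : ℝ) (K : ℕ) (W : Finset (Pt k)) (ℓ : ℕ)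
    (s s' : St k) : Prop where
  ok : OKs p ε K s'
  sub : s.R ⊆ s'.R
  cov : s'.R ∪ s'.E ⊆ s.R ∪ s.E ∪ W
  covR : s'.R ⊆ s.R ∪ W
  keep : ∀ v j, s'.q (v, j) ≠ s.q (v, j) → v ∈ W ∧ (j = 0 ∨ j = ℓ)
  conn : ∀ x ∈ s'.R, ∃ r ∈ s.R, Conn N ↑s'.R r x
  adj : ∀ v ∈ s'.E, v ∈ s.E ∨ ∃ u ∈ s'.R, v - u ∈ N

/-- The one-step estimate with failure probability `δ`. -/
def StepAt (N : Finset (Pt k)) (p ε : ℝ) (K m n : ℕ) (δ : ℝ) : Prop :=
  ∀ (Λ : Finset (Pt k)) (s : St k) (b : Pt k) (a : Fin (k + 2)) (σ : Pt k) (ℓ : ℕ),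
    IsSg σ → OKs p ε K s → 1 ≤ ℓ → ℓ ≤ K → win m n b a σ ⊆ Λ → bx b m ⊆ s.R →
    Disjoint (tgt m n b a σ) (s.R ∪ s.E) → (∀ v ∈ win m n b a σ, s.q (v, ℓ) = ε) →
    (∀ v ∈ s.E, v ∈ win m n b a σ → ∃ u ∈ s.R, v - u ∈ N) →
    ∀ (Φ : Finset (Pt k × ℕ) → Prop) (βS βF : ℝ), 0 ≤ βS → βS ≤ βF →
    (∀ s', Nxt N p ε K (win m n b a σ) ℓ s s' →
      (∃ b', isNew m n b a σ b' ∧ bx b' m ⊆ s'.R) → PSt Λ K s' Φ ≤ βS) →
    (∀ s', Nxt N p ε K (win m n b a σ) ℓ s s' → PSt Λ K s' Φ ≤ βF) →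
    PSt Λ K s Φ ≤ (1 - δ) * βS + δ * βF

/-! ### Coarse blocks

`M` is the step length `n + m + 1`; block `z` has its centre at `cen (10 M) z`. -/

/-- Step length. -/
def Ms (m n : ℕ) : ℤ := n + m + 1

/-- Centre of block `z`. -/
def cen (k : ℕ) (D : ℤ) (z : ℤ × ℤ) : Pt k :=
  fun i => if i = 0 then D * z.1 else if i = 1 then D * z.2 else 0

/-- Axis number of a plane direction. -/
def axi (k : ℕ) (a : Bool) : Fin (k + 2) := if a then 1 else 0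

/-- Neighbouring block. -/
def nbr (z : ℤ × ℤ) (a : Bool) (g : ℤ) : ℤ × ℤ := if a then (z.1, z.2 + g) else (z.1 + g, z.2)

/-- Coordinate of `x` relative to block `z` in direction `g e_a`. -/
def pc (D : ℤ) (z : ℤ × ℤ) (a : Bool) (g : ℤ) (x : Pt k) : ℤ :=
  g * (x (axi k a) - cen k D z (axi k a))

/-- Lateral coordinate of `x` relative to block `z` for the axis `a`. -/
def lc (D : ℤ) (z : ℤ × ℤ) (a : Bool) (x : Pt k) : ℤ := x (axi k (!a)) - cen k D z (axi k (!a))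

/-- `x` is within plane distance `w` of the centre of block `z`. -/
def nearB (D : ℤ) (z : ℤ × ℤ) (w : ℤ) (x : Pt k) : Prop :=
  |x 0 - cen k D z 0| ≤ w ∧ |x 1 - cen k D z 1| ≤ w

/-- The region used by an attempt from block `z` to the block in direction `g e_a`. -/
def Edg (M n : ℤ) (z : ℤ × ℤ) (a : Bool) (g : ℤ) (x : Pt k) : Prop :=
  1 ≤ pc (10 * M) z a g x ∧ pc (10 * M) z a g x ≤ 14 * M ∧ |lc (10 * M) z a x| ≤ 4 * M ∧
    (pc (10 * M) z a g x < 6 * M → |lc (10 * M) z a x| ≤ M + n) ∧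
    ∀ i, i ≠ 0 → i ≠ 1 → |x i| ≤ 2 * M

/-- Layers used by the attempt on block `z`. -/
def lyr (z : ℤ × ℤ) (i : ℕ) : ℕ := 1 + 16 * (3 * (z.1 % 3).toNat + (z.2 % 3).toNat) + i

/-- Number of the last layer. -/
def KK : ℕ := 144

/-- A branch seed of block `z` in direction `g e_a`, with unexplored sites ahead of it. -/
def TubeD (m n : ℕ) (z : ℤ × ℤ) (a : Bool) (g : ℤ) (s : St k) : Prop :=
  ∃ b, bx b m ⊆ s.R ∧ Ms m n ≤ pc (10 * Ms m n) z a g b ∧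
    pc (10 * Ms m n) z a g b ≤ 3 * Ms m n ∧ |lc (10 * Ms m n) z a b| ≤ Ms m n ∧
    (∀ i, i ≠ 0 → i ≠ 1 → |b i| ≤ n) ∧
    ∀ x ∈ s.R ∪ s.E, ¬ (Ms m n + n + 1 ≤ pc (10 * Ms m n) z a g x ∧
      pc (10 * Ms m n) z a g b + m < pc (10 * Ms m n) z a g x ∧
      pc (10 * Ms m n) z a g x < 6 * Ms m n ∧ |lc (10 * Ms m n) z a x| ≤ 2 * Ms m n)

/-- The explored cluster meets the neighbourhood of the centre of block `z`. -/
def HitB (m n : ℕ) (z : ℤ × ℤ) (s : St k) : Prop :=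
  ∃ x ∈ s.R, nearB (10 * Ms m n) z (2 * Ms m n) x ∧ ∀ i, i ≠ 0 → i ≠ 1 → |x i| ≤ 2 * Ms m n

/-- Validity of the state `s` when the blocks `C` are reached, the blocks `F` failed, and only
blocks in `Reg` are considered; sites with first coordinate below `X` may be in any state. -/
structure Valid (N : Finset (Pt k)) (p ε : ℝ) (m n : ℕ) (Reg C F : Finset (ℤ × ℤ)) (X : ℤ)
    (s : St k) : Prop where
  ok : OKs p ε KK s
  rc : ∀ x ∈ s.R, ∀ y ∈ s.R, Conn N ↑s.R x y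
  hit : ∀ z ∈ C, HitB m n z s
  z4 : ∀ z ∈ Reg, z ∉ C → z ∉ F → ∀ x ∈ s.R ∪ s.E, ¬ nearB (10 * Ms m n) z (4 * Ms m n) x
  lays : ∀ z ∈ Reg, z ∉ C → z ∉ F → ∀ v, nearB (10 * Ms m n) z (20 * Ms m n) v →
    ∀ i < 16, s.q (v, lyr z i) = ε
  mid : ∀ z ∈ Reg, z ∉ C → z ∉ F → ∀ a g, (g = 1 ∨ g = -1) → nbr z a g ∈ Reg →
    nbr z a g ∉ C → nbr z a g ∉ F → ∀ x ∈ s.R ∪ s.E,
    ¬ (4 * Ms m n < pc (10 * Ms m n) z a g x ∧ pc (10 * Ms m n) z a g x < 6 * Ms m n ∧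
      |lc (10 * Ms m n) z a x| ≤ 2 * Ms m n)
  tube : ∀ z ∈ C, ∀ a g, (g = 1 ∨ g = -1) → nbr z a g ∈ Reg → nbr z a g ∉ C →
    nbr z a g ∉ F → TubeD m n z a g s
  loc : ∀ v j, s.q (v, j) ≠ q0 p ε (v, j) → v 0 < X ∨
    ∃ z ∈ C ∪ F, v 0 ≤ 10 * Ms m n * z.1 + 14 * Ms m n
  inV : ∀ x ∈ s.R, (∃ z ∈ C ∪ F, nearB (10 * Ms m n) z (14 * Ms m n) x) ∧
    ∀ i, i ≠ 0 → i ≠ 1 → |x i| ≤ 2 * Ms m n
  xr : ∀ z ∈ Reg, X + 20 * Ms m n ≤ 10 * Ms m n * z.1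
  adj : ∀ v ∈ s.E, v 0 < X ∨ ∃ u ∈ s.R, v - u ∈ N

/-- `s'` is obtained from `s` by steps in the region of the edge from `z` in direction `g e_a`
with layers of the block `nbr z a g` of index less than `i₀`. -/
structure Post (N : Finset (Pt k)) (p ε : ℝ) (m n : ℕ) (z : ℤ × ℤ) (a : Bool) (g : ℤ) (i₀ : ℕ)
    (s s' : St k) : Prop where
  ok : OKs p ε KK s'
  rc : ∀ x ∈ s'.R, ∀ y ∈ s'.R, Conn N ↑s'.R x y
  sub : s.R ⊆ s'.R
  cov : ∀ x ∈ s'.R ∪ s'.E, x ∈ s.R ∪ s.E ∨ Edg (Ms m n) n z a g x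
  covR : ∀ x ∈ s'.R, x ∈ s.R ∨ Edg (Ms m n) n z a g x
  keep : ∀ v j, s'.q (v, j) ≠ s.q (v, j) → Edg (Ms m n) n z a g v ∧
    (j = 0 ∨ ∃ i < i₀, j = lyr (nbr z a g) i)
  adj : ∀ v ∈ s'.E, v ∈ s.E ∨ ∃ u ∈ s'.R, v - u ∈ N

/-- Position of an explored site relative to the current seed: `u` forward, `v` lateral. -/
def Tier (m n u v : ℤ) : Prop :=
  u ≤ -n - 1 ∨ (u ≤ -m - 1 ∧ |v| ≤ 2 * n - m) ∨ (u ≤ m ∧ |v| ≤ n - m)

/-- Arrival at block `nbr z a g` with the seed `b`. -/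
structure Arr (N : Finset (Pt k)) (p ε : ℝ) (m n : ℕ) (z : ℤ × ℤ) (a : Bool) (g : ℤ)
    (s s' : St k) (b : Pt k) : Prop where
  post : Post N p ε m n z a g 10 s s'
  seed : bx b m ⊆ s'.R
  p1 : 9 * Ms m n < pc (10 * Ms m n) z a g b
  p1' : pc (10 * Ms m n) z a g b ≤ 10 * Ms m n
  p2 : |lc (10 * Ms m n) z a b| ≤ Ms m n
  p3 : ∀ i, i ≠ 0 → i ≠ 1 → |b i| ≤ n
  tier : ∀ x ∈ s'.R ∪ s'.E, nearB (10 * Ms m n) (nbr z a g) (4 * Ms m n) x →
    Tier m n (pc (10 * Ms m n) z a g x - pc (10 * Ms m n) z a g b)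
      (lc (10 * Ms m n) z a x - lc (10 * Ms m n) z a b) ∧ |lc (10 * Ms m n) z a x| ≤ Ms m n + n

/-- Plane part of the target region of a step from `b` in direction `g e_a` with lateral sign
`t`. -/
def inT (m n : ℤ) (b : Pt k) (a : Bool) (g t : ℤ) (x : Pt k) : Prop :=
  n + 1 ≤ g * (x (axi k a) - b (axi k a)) ∧ g * (x (axi k a) - b (axi k a)) ≤ n + 2 * m + 1 ∧
    0 ≤ t * (x (axi k (!a)) - b (axi k (!a))) ∧ t * (x (axi k (!a)) - b (axi k (!a))) ≤ n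

/-- Plane part of the window of a step. -/
def inW (m n : ℤ) (b : Pt k) (a : Bool) (g t : ℤ) (x : Pt k) : Prop :=
  (|x 0 - b 0| ≤ n ∧ |x 1 - b 1| ≤ n) ∨ inT m n b a g t x

/-- The volume is large enough for the region `Reg`. -/
def VolOK (m n : ℕ) (Reg : Finset (ℤ × ℤ)) (Λ : Finset (Pt k)) : Prop :=
  ∀ z ∈ Reg, ∀ v : Pt k, nearB (10 * Ms m n) z (20 * Ms m n) v →
    (∀ i, i ≠ 0 → i ≠ 1 → |v i| ≤ 3 * Ms m n) → v ∈ Λ

/-- Sites with first coordinate at least `X` are unexplored. -/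
def Rst (p ε : ℝ) (X : ℤ) (q : Pt k × ℕ → ℝ) : Prop :=
  (∀ v j, X ≤ v 0 → q (v, j) = q0 p ε (v, j)) ∧
  ∀ v j, q (v, j) = 0 ∨ q (v, j) = 1 ∨ q (v, j) = q0 p ε (v, j)

/-! ### Connected sets of blocks -/

/-- Connected in the square grid. -/
def ZC (S : Set (ℤ × ℤ)) : Prop :=
  ∀ x ∈ S, ∀ y ∈ S, ∃ q : Z2.Walk x y, ∀ v ∈ q.support, v ∈ S

/-- Connected with respect to the eight neighbours. -/
def SC (T : Finset (ℤ × ℤ)) : Prop :=
  ∀ x ∈ T, ∀ y ∈ T, Relation.ReflTransGen (fun u v => v ∈ T ∧ dst u v ≤ 1) x y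

/-- Coarse part of the structure event for the columns `x₀, …, x₂`. -/
def StrC (x₀ x₁ x₂ H : ℤ) (C : Finset (ℤ × ℤ)) : Prop :=
  (∀ z ∈ C, x₀ ≤ z.1 ∧ z.1 ≤ x₂ ∧ 0 ≤ z.2 ∧ z.2 ≤ H) ∧ ZC ↑C ∧ (∃ z ∈ C, z.1 ≤ x₁) ∧
  (∃ z ∈ C, z.1 = x₂) ∧
  ∀ x, x₁ ≤ x → x + H ≤ x₂ → ∀ B : Set (ℤ × ℤ), B ⊆ Rect (x, 0) (x + H, H) → ZC B →
    (∃ u ∈ B, u.1 = x) → (∃ u ∈ B, u.1 = x + H) → ∃ z ∈ C, z ∈ B

/-- The set `O` of open sites contains a connected set that visits all blocks of `C`. -/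
def Vis (N : Finset (Pt k)) (D B : ℕ) (C : Finset (ℤ × ℤ)) (O : Finset (Pt k)) : Prop :=
  ∃ S : Finset (Pt k), S ⊆ O ∧ (∀ x ∈ S, ∀ y ∈ S, Conn N ↑S x y) ∧
    ∀ z ∈ C, ∃ x ∈ S, x ∈ bx (cen k D z) B

/-- Structure event. -/
def StrEv (N : Finset (Pt k)) (D B : ℕ) (x₀ x₁ x₂ H : ℤ) (O : Finset (Pt k)) : Prop :=
  ∃ C, StrC x₀ x₁ x₂ H C ∧ Vis N D B C O

/-- The structure event of scale `l`. -/
def StrL (N : Finset (Pt k)) (D B l : ℕ) (O : Finset (Pt k)) : Prop :=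
  StrEv N D B (2 ^ l) (3 * 2 ^ (l - 1)) (2 ^ (l + 2)) (2 * ((l : ℤ) + 1) ^ 2) O

end Pool.Agent.TP
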