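import Pool.Agent.Helper28_TP.Lat

/-!
# Statements of the modules of the static part
-/

set_option autoImplicit false

namespace Pool.Agent.TP

open Pool.Agent.Helper33_FPP (Z2 dst Rect)

/-! ### Random subsets -/

/-- PSH: Harris inequality for monotone events. -/
def PshStmt : Prop :=
  ∀ (α : Type) [DecidableEq α] (V : Finset α) (q : α → ℝ), U01 V q →
    ∀ (ι : Type) (S : Finset ι) (E : ι → Finset α → Prop),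
      ((∀ i ∈ S, ∀ A B, A ⊆ B → E i A → E i B) →
        ∏ i ∈ S, PS V q (E i) ≤ PS V q (fun A => ∀ i ∈ S, E i A)) ∧
      ((∀ i ∈ S, ∀ A B, A ⊆ B → E i B → E i A) →
        ∏ i ∈ S, PS V q (E i) ≤ PS V q (fun A => ∀ i ∈ S, E i A))

/-- PSM: monotonicity in the inclusion probabilities. -/
def PsmStmt : Prop :=
  ∀ (α : Type) [DecidableEq α] (V : Finset α) (q q' : α → ℝ), U01 V q → U01 V q' →
    (∀ a ∈ V, q a ≤ q' a) → ∀ E : Finset α → Prop, (∀ A B, A ⊆ B → E A → E B) →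
      PS V q E ≤ PS V q' E

/-- PSL: union of the layers. -/
def PslStmt : Prop :=
  ∀ (α : Type) [DecidableEq α] (V : Finset α) (K : ℕ) (q : α × ℕ → ℝ) (E : Finset α → Prop),
    PS (V ×ˢ Finset.range (K + 1)) q (fun A => E (A.image Prod.fst)) =
      PS V (fun a => 1 - ∏ j ∈ Finset.range (K + 1), (1 - q (a, j))) E

/-- TOW: the tower property for a stopping set of coordinates. -/
def TowStmt : Prop :=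
  ∀ (α : Type) [DecidableEq α] (V : Finset α) (q : α → ℝ) (Δ : Finset α → Finset α),
    (∀ A ⊆ V, Δ A ⊆ V) →
    (∀ A ⊆ V, ∀ B ⊆ V, (∀ x ∈ Δ A, (x ∈ A ↔ x ∈ B)) → Δ B = Δ A) →
    ∀ Φ : Finset α → Prop, PS V q Φ =
      EX V q (fun A => PS V (fun x => if x ∈ Δ A then (if x ∈ A then 1 else 0) else q x) Φ)

/-! ### Seeds -/

/-- ANN: large boxes are joined to far spheres. -/
def AnnStmt : Prop :=
  ∀ (k : ℕ) (N : Finset (Pt k)) (ρ : ℕ) (p θ : ℝ), GoodN N ρ → 0 < p → p < 1 → 0 < θ →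
    PercN N ρ p θ → ∀ η : ℝ, 0 < η → ∃ m₀ : ℕ, ∀ m ≥ m₀, ∀ n ≥ m,
      1 - η ≤ PS (bx (0 : Pt k) (n + ρ)) (fun _ => p)
        (fun A => ∃ y ∈ bx (0 : Pt k) (n + ρ) \ bx 0 n, Hit N m A y)

/-- MANY: many boundary points are joined to the box of radius `m`. -/
def ManyStmt : Prop :=
  ∀ (k : ℕ) (N : Finset (Pt k)) (ρ : ℕ) (p : ℝ), GoodN N ρ → 0 < p → p < 1 →
    ∀ (m : ℕ) (η : ℝ), (∀ n ≥ m, 1 - η ≤ PS (bx (0 : Pt k) (n + ρ)) (fun _ => p)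
        (fun A => ∃ y ∈ bx (0 : Pt k) (n + ρ) \ bx 0 n, Hit N m A y)) →
      ∀ (M₀ : ℕ) (e : ℝ), 0 < e → ∀ n₁ : ℕ, ∃ n ≥ n₁,
        1 - η - e ≤ PS (bx (0 : Pt k) n) (fun _ => p) (fun A => M₀ ≤ cnt N m (lay k n ρ) A)

/-- ORTH: the square root trick. -/
def OrthStmt : Prop :=
  ∀ (k : ℕ) (N : Finset (Pt k)) (ρ : ℕ) (p : ℝ), GoodN N ρ → 0 < p → p < 1 →
    ∀ η : ℝ, 0 < η → ∃ η' : ℝ, 0 < η' ∧ ∀ n m M₀ : ℕ, ρ ≤ n →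
      1 - η' ≤ PS (bx (0 : Pt k) n) (fun _ => p)
        (fun A => (k + 2) * 2 ^ (k + 2) * M₀ ≤ cnt N m (lay k n ρ) A) →
      1 - η ≤ PS (bx (0 : Pt k) n) (fun _ => p) (fun A => M₀ ≤ cnt N m (fac k n ρ) A)

/-- ATS: seeds can be attached to many boundary points. -/
def AtsStmt : Prop :=
  ∀ (k : ℕ) (N : Finset (Pt k)) (ρ : ℕ) (p : ℝ), GoodN N ρ → 0 < p → p < 1 →
    ∀ (η : ℝ) (m : ℕ), 0 < η → ρ ≤ m → ∃ M₀ : ℕ, ∀ n : ℕ, 4 * m + 4 ≤ n →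
      PS (bx (0 : Pt k) n) (fun _ => p) (fun A => M₀ ≤ cnt N m (fac k n ρ) A) - η ≤
        PS (win m n (0 : Pt k) 0 (fun _ => 1)) (fun _ => p) (SeedEv N m n 0 0 (fun _ => 1))

/-- SYM: all seed events have the same probability. -/
def SymStmt : Prop :=
  ∀ (k : ℕ) (N : Finset (Pt k)) (ρ : ℕ) (p : ℝ), GoodN N ρ → ∀ (m n : ℕ) (b : Pt k)
    (a : Fin (k + 2)) (σ : Pt k), IsSg σ →
      PS (win m n b a σ) (fun _ => p) (SeedEv N m n b a σ) =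
        PS (win m n (0 : Pt k) 0 (fun _ => 1)) (fun _ => p) (SeedEv N m n 0 0 (fun _ => 1))

/-- SEED: seeds are attached with high probability. -/
def SeedStmt : Prop :=
  ∀ (k : ℕ) (N : Finset (Pt k)) (ρ : ℕ) (p θ : ℝ), GoodN N ρ → 0 < p → p < 1 → 0 < θ →
    PercN N ρ p θ → ∀ η : ℝ, 0 < η → ∀ m₁ : ℕ, ∃ m n : ℕ, m₁ ≤ m ∧ 4 * m + 4 ≤ n ∧
      ∀ (b : Pt k) (a : Fin (k + 2)) (σ : Pt k), IsSg σ →
        1 - η ≤ PS (win m n b a σ) (fun _ => p) (SeedEv N m n b a σ)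

/-! ### One step of the exploration -/

/-- SPR: the sprinkling lemma. -/
def SprStmt : Prop :=
  ∀ (k : ℕ) (N : Finset (Pt k)) (ρ : ℕ) (p ε : ℝ) (K m n : ℕ), GoodN N ρ → 0 < p → p < 1 →
    0 < ε → ε < 1 → ∀ (Λ : Finset (Pt k)) (s : St k) (b : Pt k) (a : Fin (k + 2)) (σ : Pt k)
    (ℓ : ℕ), IsSg σ → OKs p ε K s → 1 ≤ ℓ → ℓ ≤ K → win m n b a σ ⊆ Λ → bx b m ⊆ s.R →
    m ≤ n → Disjoint (tgt m n b a σ) (s.R ∪ s.E) → (∀ v ∈ win m n b a σ, s.q (v, ℓ) = ε) →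
    (∀ v ∈ s.E, v ∈ win m n b a σ → ∃ u ∈ s.R, v - u ∈ N) →
    ∀ (η : ℝ) (t : ℕ),
      1 - η ≤ PS (win m n b a σ) (fun _ => p) (SeedEv N m n b a σ) →
      PSt Λ K s (fun A => ¬ ∃ b', isNew m n b a σ b' ∧ bx b' m ⊆ nR N (win m n b a σ) ℓ s A) ≤
        η / (1 - p) ^ t + (1 - ε) ^ t

/-- STO: the state after a step, and the stopping property of the revealed set. -/
def StoStmt : Prop :=
  ∀ (k : ℕ) (N : Finset (Pt k)) (ρ : ℕ) (p ε : ℝ) (K : ℕ) (W : Finset (Pt k)) (ℓ : ℕ)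
    (s : St k), GoodN N ρ → OKs p ε K s → 1 ≤ ℓ → ℓ ≤ K →
    (∀ A, Nxt N p ε K W ℓ s (nxt N W ℓ s A)) ∧
    ∀ A B : Finset (Pt k × ℕ),
      (∀ v ∈ rv N W ℓ s A, ((v, ℓ) ∈ A ↔ (v, ℓ) ∈ B) ∧
        (v ∉ s.E → ((v, 0) ∈ A ↔ (v, 0) ∈ B))) →
      nR N W ℓ s B = nR N W ℓ s A ∧ rv N W ℓ s B = rv N W ℓ s A

/-- STEP: the one-step estimate. -/
def StepStmt : Prop :=
  ∀ (k : ℕ) (N : Finset (Pt k)) (ρ : ℕ) (p ε θ : ℝ), GoodN N ρ → 0 < p → p < 1 → 0 < ε →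
    ε < 1 → 0 < θ → PercN N ρ p θ → ∀ δ : ℝ, 0 < δ → ∀ m₁ : ℕ, ∃ m n : ℕ, m₁ ≤ m ∧
      4 * m + 4 ≤ n ∧ ∀ K : ℕ, StepAt N p ε K m n δ

/-! ### Geometry of attempts -/

/-- GEO: the region of an edge avoids the regions of the other edges. -/
def GeoStmt : Prop :=
  ∀ (k m n : ℕ), 4 * m + 4 ≤ n → ∀ (z : ℤ × ℤ) (a : Bool) (g : ℤ) (x : Pt k),
    (g = 1 ∨ g = -1) → Edg (Ms m n) n z a g x →
    (∀ y, y ≠ z → y ≠ nbr z a g → ¬ nearB (10 * Ms m n) y (4 * Ms m n) x) ∧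
    (∀ y a' g', (g' = 1 ∨ g' = -1) → (y, a', g') ≠ (z, a, g) → nbr y a' g' ≠ z →
      nbr y a' g' ≠ nbr z a g → y ≠ nbr z a g →
      ¬ (Ms m n + n + 1 ≤ pc (10 * Ms m n) y a' g' x ∧ pc (10 * Ms m n) y a' g' x < 6 * Ms m n ∧
        |lc (10 * Ms m n) y a' x| ≤ 2 * Ms m n)) ∧
    (∀ y a' g', (g' = 1 ∨ g' = -1) → y ≠ z → y ≠ nbr z a g → nbr y a' g' ≠ z →
      nbr y a' g' ≠ nbr z a g →
      ¬ (4 * Ms m n < pc (10 * Ms m n) y a' g' x ∧ pc (10 * Ms m n) y a' g' x < 6 * Ms m n ∧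
        |lc (10 * Ms m n) y a' x| ≤ 2 * Ms m n)) ∧
    (∀ y : ℤ × ℤ, y ≠ nbr z a g → y.1 % 3 = (nbr z a g).1 % 3 → y.2 % 3 = (nbr z a g).2 % 3 →
      ¬ nearB (10 * Ms m n) y (20 * Ms m n) x) ∧
    x 0 ≤ 10 * Ms m n * (nbr z a g).1 + 14 * Ms m n

/-- KEEP: a failed attempt leads to a valid state. -/
def KeepStmt : Prop :=
  ∀ (k : ℕ) (N : Finset (Pt k)) (ρ : ℕ) (p ε : ℝ) (m n : ℕ), GoodN N ρ → 4 * m + 4 ≤ n →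
    ∀ (Reg C F : Finset (ℤ × ℤ)) (X : ℤ) (s s' : St k) (z : ℤ × ℤ) (a : Bool) (g : ℤ),
    Valid N p ε m n Reg C F X s → (z ∈ C ∨ z ∉ Reg) → (g = 1 ∨ g = -1) → nbr z a g ∈ Reg →
    nbr z a g ∉ C → nbr z a g ∉ F → Post N p ε m n z a g 16 s s' →
    Valid N p ε m n Reg C (insert (nbr z a g) F) X s'

/-- SUCC: a successful attempt leads to a valid state. -/
def SuccStmt : Prop :=
  ∀ (k : ℕ) (N : Finset (Pt k)) (ρ : ℕ) (p ε : ℝ) (m n : ℕ), GoodN N ρ → 4 * m + 4 ≤ n →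
    ∀ (Reg C F : Finset (ℤ × ℤ)) (X : ℤ) (s s' : St k) (z : ℤ × ℤ) (a : Bool) (g : ℤ),
    Valid N p ε m n Reg C F X s → (z ∈ C ∨ z ∉ Reg) → (g = 1 ∨ g = -1) → nbr z a g ∈ Reg →
    nbr z a g ∉ C → nbr z a g ∉ F → Post N p ε m n z a g 16 s s' →
    HitB m n (nbr z a g) s' →
    (∀ a' g', (g' = 1 ∨ g' = -1) → nbr (nbr z a g) a' g' ∈ Reg →
      nbr (nbr z a g) a' g' ∉ C → nbr (nbr z a g) a' g' ∉ F → nbr (nbr z a g) a' g' ≠ z →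
      TubeD m n (nbr z a g) a' g' s') →
    Valid N p ε m n Reg (insert (nbr z a g) C) F X s'

/-- ONE: one step in plane coordinates. -/
def OneStmt : Prop :=
  ∀ (k : ℕ) (N : Finset (Pt k)) (ρ : ℕ) (p ε : ℝ) (m n : ℕ) (δ : ℝ), GoodN N ρ →
    4 * m + 4 ≤ n → 0 ≤ δ → 16 * δ ≤ 1 → StepAt N p ε KK m n δ →
    ∀ (Reg C F : Finset (ℤ × ℤ)) (X : ℤ) (Λ : Finset (Pt k)) (s s₁ : St k) (z : ℤ × ℤ)
      (a : Bool) (g : ℤ) (b : Pt k) (a' : Bool) (g' t : ℤ) (i : ℕ),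
    VolOK m n Reg Λ → Valid N p ε m n Reg C F X s → (g = 1 ∨ g = -1) → nbr z a g ∈ Reg →
    nbr z a g ∉ C → nbr z a g ∉ F → (g' = 1 ∨ g' = -1) → (t = 1 ∨ t = -1) → i < 16 →
    Post N p ε m n z a g i s s₁ → bx b m ⊆ s₁.R → (∀ j, j ≠ 0 → j ≠ 1 → |b j| ≤ n) →
    (∀ x : Pt k, (∀ j, j ≠ 0 → j ≠ 1 → |x j| ≤ 2 * Ms m n) → inW m n b a' g' t x →
      Edg (Ms m n) n z a g x) →
    (∀ x ∈ s₁.R ∪ s₁.E, ¬ inT m n b a' g' t x) →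
    ∀ (Φ : Finset (Pt k × ℕ) → Prop) (βS βF : ℝ), 0 ≤ βS → βS ≤ βF →
      (∀ s₂ b', Post N p ε m n z a g (i + 1) s s₂ → s₁.R ⊆ s₂.R →
        (∀ x ∈ s₂.R ∪ s₂.E, x ∈ s₁.R ∪ s₁.E ∨ inW m n b a' g' t x) → bx b' m ⊆ s₂.R →
        g' * (b' (axi k a') - b (axi k a')) = Ms m n →
        (m : ℤ) ≤ t * (b' (axi k (!a')) - b (axi k (!a'))) →
        t * (b' (axi k (!a')) - b (axi k (!a'))) ≤ n - m →
        (∀ j, j ≠ 0 → j ≠ 1 → |b' j| ≤ n) → PSt Λ KK s₂ Φ ≤ βS) →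
      (∀ s₂, Post N p ε m n z a g (i + 1) s s₂ → PSt Λ KK s₂ Φ ≤ βF) →
      PSt Λ KK s₁ Φ ≤ (1 - δ) * βS + δ * βF

/-- CORR: the steps of the corridor. -/
def CorrStmt : Prop :=
  ∀ (k : ℕ) (N : Finset (Pt k)) (ρ : ℕ) (p ε : ℝ) (m n : ℕ) (δ : ℝ), GoodN N ρ →
    4 * m + 4 ≤ n → 0 ≤ δ → 16 * δ ≤ 1 → StepAt N p ε KK m n δ →
    ∀ (Reg C F : Finset (ℤ × ℤ)) (X : ℤ) (Λ : Finset (Pt k)) (s : St k) (z : ℤ × ℤ) (a : Bool)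
      (g : ℤ), VolOK m n Reg Λ → Valid N p ε m n Reg C F X s → z ∈ C → (g = 1 ∨ g = -1) →
    nbr z a g ∈ Reg → nbr z a g ∉ C → nbr z a g ∉ F →
    ∀ (Φ : Finset (Pt k × ℕ) → Prop) (βS βF : ℝ), 0 ≤ βS → βS ≤ βF →
      (∀ s' b, Arr N p ε m n z a g s s' b → PSt Λ KK s' Φ ≤ βS) →
      (∀ s', Post N p ε m n z a g 16 s s' → PSt Λ KK s' Φ ≤ βF) →
      PSt Λ KK s Φ ≤ (1 - 10 * δ) * βS + 10 * δ * βF

/-- PLZ: the six steps at the new block. -/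
def PlzStmt : Prop :=
  ∀ (k : ℕ) (N : Finset (Pt k)) (ρ : ℕ) (p ε : ℝ) (m n : ℕ) (δ : ℝ), GoodN N ρ →
    4 * m + 4 ≤ n → 0 ≤ δ → 16 * δ ≤ 1 → StepAt N p ε KK m n δ →
    ∀ (Reg C F : Finset (ℤ × ℤ)) (X : ℤ) (Λ : Finset (Pt k)) (s s' : St k) (b : Pt k)
      (z : ℤ × ℤ) (a : Bool) (g : ℤ), VolOK m n Reg Λ → Valid N p ε m n Reg C F X s →
    (z ∈ C ∨ z ∉ Reg) → (g = 1 ∨ g = -1) → nbr z a g ∈ Reg → nbr z a g ∉ C →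
    nbr z a g ∉ F → Arr N p ε m n z a g s s' b →
    ∀ (Φ : Finset (Pt k × ℕ) → Prop) (βS βF : ℝ), 0 ≤ βS → βS ≤ βF →
      (∀ s'', Post N p ε m n z a g 16 s s'' → HitB m n (nbr z a g) s'' →
        (∀ a' g', (g' = 1 ∨ g' = -1) → nbr (nbr z a g) a' g' ∈ Reg →
          nbr (nbr z a g) a' g' ∉ C → nbr (nbr z a g) a' g' ∉ F → nbr (nbr z a g) a' g' ≠ z →
          TubeD m n (nbr z a g) a' g' s'') → PSt Λ KK s'' Φ ≤ βS) →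
      (∀ s'', Post N p ε m n z a g 16 s s'' → PSt Λ KK s'' Φ ≤ βF) →
      PSt Λ KK s' Φ ≤ (1 - 6 * δ) * βS + 6 * δ * βF

/-- ATT: one attempt. -/
def AttStmt : Prop :=
  ∀ (k : ℕ) (N : Finset (Pt k)) (ρ : ℕ) (p ε : ℝ) (m n : ℕ) (δ : ℝ), GoodN N ρ →
    4 * m + 4 ≤ n → 0 ≤ δ → 16 * δ ≤ 1 → StepAt N p ε KK m n δ →
    ∀ (Reg C F : Finset (ℤ × ℤ)) (X : ℤ) (Λ : Finset (Pt k)) (s : St k) (z : ℤ × ℤ) (a : Bool)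
      (g : ℤ), VolOK m n Reg Λ → Valid N p ε m n Reg C F X s → z ∈ C → (g = 1 ∨ g = -1) →
    nbr z a g ∈ Reg → nbr z a g ∉ C → nbr z a g ∉ F →
    ∀ (Φ : Finset (Pt k × ℕ) → Prop) (βS βF : ℝ), 0 ≤ βS → βS ≤ βF →
      (∀ s', Valid N p ε m n Reg (insert (nbr z a g) C) F X s' → PSt Λ KK s' Φ ≤ βS) →
      (∀ s', Valid N p ε m n Reg C (insert (nbr z a g) F) X s' → PSt Λ KK s' Φ ≤ βF) →
      PSt Λ KK s Φ ≤ (1 - 16 * δ) * βS + 16 * δ * βF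

/-- INIT: start of the exploration at the block `o`. -/
def InitStmt : Prop :=
  ∀ (k : ℕ) (N : Finset (Pt k)) (ρ : ℕ) (p ε : ℝ) (m n : ℕ) (δ : ℝ), GoodN N ρ →
    4 * m + 4 ≤ n → 0 < p → p < 1 → 0 < ε → ε < 1 → 0 ≤ δ → 16 * δ ≤ 1 → StepAt N p ε KK m n δ →
    ∀ (Reg : Finset (ℤ × ℤ)) (Λ : Finset (Pt k)) (o : ℤ × ℤ) (q : Pt k × ℕ → ℝ),
    VolOK m n Reg Λ → o ∈ Reg → (∀ z ∈ Reg, o.1 ≤ z.1) →
    Rst p ε (10 * Ms m n * o.1 - 20 * Ms m n) q →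
    ∀ (Φ : Finset (Pt k × ℕ) → Prop) (βS βF : ℝ), 0 ≤ βS → βS ≤ βF →
      (∀ s', Valid N p ε m n Reg {o} ∅ (10 * Ms m n * o.1 - 20 * Ms m n) s' →
        PSt Λ KK s' Φ ≤ βS) →
      (∀ q', Rst p ε (10 * Ms m n * o.1 + 14 * Ms m n + 1) q' →
        PS (Λ ×ˢ Finset.range (KK + 1)) q' Φ ≤ βF) →
      PS (Λ ×ˢ Finset.range (KK + 1)) q Φ ≤
        p ^ ((2 * m + 1) ^ (k + 2)) * ((1 - 6 * δ) * βS + 6 * δ * βF) +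
          (1 - p ^ ((2 * m + 1) ^ (k + 2))) * βF

/-! ### Coarse blocks: duality and counting -/

/-- POT: the potential argument. -/
def PotStmt : Prop :=
  ∀ (Reg : Finset (ℤ × ℤ)) (δ : ℝ), 0 ≤ δ → δ ≤ 1 → ∀ (𝒯 : Finset (Finset (ℤ × ℤ)))
    (w : Finset (ℤ × ℤ) → ℝ), (∀ T, 0 ≤ w T) → ∀ (g : Finset (ℤ × ℤ) → Finset (ℤ × ℤ) → ℝ)
    (I : Finset (ℤ × ℤ) → Finset (ℤ × ℤ) → Prop),
    (∀ C F, I C F → C ⊆ Reg ∧ F ⊆ Reg ∧ Disjoint C F) →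
    (∀ C F, I C F → ∀ z ∈ C, ∀ z' ∈ Reg, Z2.Adj z z' → z' ∉ C → z' ∉ F →
      I (insert z' C) F ∧ I C (insert z' F) ∧
        ∀ βS βF : ℝ, 0 ≤ βS → βS ≤ βF → g (insert z' C) F ≤ βS → g C (insert z' F) ≤ βF →
          g C F ≤ (1 - δ) * βS + δ * βF) →
    (∀ C F, I C F → (∀ z ∈ C, ∀ z' ∈ Reg, Z2.Adj z z' → z' ∈ C ∨ z' ∈ F) →
      g C F ≤ ∑ T ∈ 𝒯.filter (fun T => Disjoint T C), w T * δ ^ (T \ F).card) →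
    ∀ C F, I C F → g C F ≤ ∑ T ∈ 𝒯.filter (fun T => Disjoint T C), w T * δ ^ (T \ F).card

/-- AN8: number of connected sets for the eight neighbours. -/
def An8Stmt : Prop :=
  ∀ (j : ℕ) (v : ℤ × ℤ) (𝒜 : Finset (Finset (ℤ × ℤ))),
    (∀ T ∈ 𝒜, v ∈ T ∧ T.card = j ∧ SC T) → 𝒜.card ≤ 64 ^ j

/-- SUBT: connected subsets of every size. -/
def SubtStmt : Prop :=
  ∀ (T : Finset (ℤ × ℤ)) (v : ℤ × ℤ) (j : ℕ), SC T → v ∈ T → 1 ≤ j → j ≤ T.card →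
    ∃ T' ⊆ T, v ∈ T' ∧ T'.card = j ∧ SC T'

/-- SEP: separation of two connected sets in a rectangle by a connected set of failed blocks. -/
def SepStmt : Prop :=
  ∀ (a b : ℤ × ℤ) (C K F : Set (ℤ × ℤ)), C ⊆ Rect a b → K ⊆ Rect a b → Disjoint C K →
    C.Nonempty → K.Nonempty → ZC C → ZC K →
    (∀ u ∈ C, ∀ v ∈ Rect a b, Z2.Adj u v → v ∈ C ∨ v ∈ F) →
    ∃ T : Finset (ℤ × ℤ), ↑T ⊆ (F ∩ Rect a b) \ C ∧ SC T ∧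
      ∀ L : Set (ℤ × ℤ), L ⊆ Rect a b → ZC L → (L ∩ C).Nonempty → (L ∩ K).Nonempty →
        ∃ v ∈ T, v ∈ L

/-- DU1: a cluster started in the middle of the left side of a square. -/
def Du1Stmt : Prop :=
  ∀ (x₀ : ℤ) (h : ℕ) (C : Set (ℤ × ℤ)) (F : Finset (ℤ × ℤ)), 1 ≤ h →
    C ⊆ Rect (x₀, 0) (x₀ + 2 * h, 2 * h) → ZC C → (x₀, (h : ℤ)) ∈ C →
    (∀ u ∈ C, ∀ v ∈ Rect (x₀, 0) (x₀ + 2 * h, 2 * h), Z2.Adj u v → v ∈ C ∨ v ∈ F) →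
    ((∃ u ∈ C, u.2 = 0) ∧ ∃ u ∈ C, u.2 = 2 * h) ∨
    ∃ j : ℕ, 1 ≤ j ∧ j ≤ h ∧ ∃ T ⊆ F, T.card = j ∧ SC T ∧
      ((x₀, (h : ℤ) + j) ∈ T ∨ (x₀, (h : ℤ) - j) ∈ T)

/-- DU2: the structure from the absence of large connected sets of failed blocks. -/
def Du2Stmt : Prop :=
  ∀ (x₀ x₁ x₂ : ℤ) (h : ℕ) (C F : Finset (ℤ × ℤ)), 1 ≤ h → x₀ + 2 * h ≤ x₁ →
    x₁ + 2 * h ≤ x₂ → ↑C ⊆ Rect (x₀, 0) (x₂, 2 * (h : ℤ)) → ZC ↑C →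
    (∃ u ∈ C, u.1 = x₀) → (∃ u ∈ C, u.2 = 0) → (∃ u ∈ C, u.2 = 2 * h) →
    (∀ u ∈ C, ∀ v ∈ Rect (x₀, 0) (x₂, 2 * (h : ℤ)), Z2.Adj u v → v ∈ C ∨ v ∈ F) →
    (∀ T ⊆ F, SC T → T.card ≠ 2 * h + 1) → StrC x₀ x₁ x₂ (2 * h) C

/-- CNT: sum over the sets near the starting block and over the large sets. -/
def CntStmt : Prop :=
  ∀ (Reg : Finset (ℤ × ℤ)) (δ : ℝ), 0 ≤ δ → 64 * δ ≤ 1 / 16 → ∀ (h : ℕ) (x₀ : ℤ)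
    (𝒯 : Finset (Finset (ℤ × ℤ))),
    ((∀ T ∈ 𝒯, SC T ∧ ∃ j : ℕ, 1 ≤ j ∧ j ≤ h ∧ T.card = j ∧
      ((x₀, (h : ℤ) + j) ∈ T ∨ (x₀, (h : ℤ) - j) ∈ T)) →
      ∑ T ∈ 𝒯, δ ^ T.card ≤ 1 / 4) ∧
    ((∀ T ∈ 𝒯, T ⊆ Reg ∧ SC T ∧ T.card = 2 * h + 1) →
      ∑ T ∈ 𝒯, δ ^ T.card ≤ Reg.card * (64 * δ) ^ (2 * h + 1))

/-! ### The structure event -/

/-- TERM: at a terminal state with coarse structure the structure event is certain. -/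
def TermStmt : Prop :=
  ∀ (k : ℕ) (N : Finset (Pt k)) (ρ : ℕ) (p ε : ℝ) (m n : ℕ), GoodN N ρ → 0 < p → p < 1 →
    0 < ε → ε < 1 → ∀ (Reg C F : Finset (ℤ × ℤ)) (X x₀ x₁ x₂ H : ℤ) (Λ : Finset (Pt k))
    (s : St k), C ⊆ Reg → F ⊆ Reg → VolOK m n Reg Λ → Valid N p ε m n Reg C F X s →
    StrC x₀ x₁ x₂ H C →
    PSt Λ KK s (fun A => ¬ StrEv N (10 * (n + m + 1)) (2 * (n + m + 1)) x₀ x₁ x₂ H
      (A.image Prod.fst)) = 0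

/-- RUN: the structure event has high probability in the layered model. -/
def RunStmt : Prop :=
  ∀ (k : ℕ) (N : Finset (Pt k)) (ρ : ℕ) (p ε : ℝ) (m n : ℕ) (δ : ℝ), GoodN N ρ →
    4 * m + 4 ≤ n → 0 < p → p < 1 → 0 < ε → ε < 1 → 0 ≤ δ → 1024 * δ ≤ 1 / 16 →
    StepAt N p ε KK m n δ → ∀ (Λ : Finset (Pt k)) (x₀ x₁ x₂ : ℤ) (h L : ℕ), 1 ≤ h →
    x₀ + L * (2 * h + 4) ≤ x₁ → x₁ + 2 * h ≤ x₂ →
    VolOK m n (Finset.Icc x₀ x₂ ×ˢ Finset.Icc 0 (2 * (h : ℤ))) Λ →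
    PS (Λ ×ˢ Finset.range (KK + 1)) (q0 p ε) (fun A => ¬ StrEv N (10 * (n + m + 1))
        (2 * (n + m + 1)) x₀ x₁ x₂ (2 * h) (A.image Prod.fst)) ≤
      (1 - p ^ ((2 * m + 1) ^ (k + 2)) / 2) ^ L +
        L * ((x₂ - x₀ + 1) * (2 * h + 1) * (1024 * δ) ^ (2 * h + 1))

/-- STA: the static theorem. -/
def StaStmt : Prop :=
  ∀ (k : ℕ) (N : Finset (Pt k)) (ρ : ℕ) (p p' θ : ℝ), GoodN N ρ → 0 < p → p < p' → p' < 1 →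
    0 < θ → PercN N ρ p θ → ∃ (D B : ℕ) (c : ℝ) (l₁ : ℕ), 1 ≤ B ∧ 2 * B < D ∧ 0 < c ∧ 1 ≤ l₁ ∧
      ∀ l ≥ l₁, PS (bx (0 : Pt k) (D * 2 ^ (l + 3))) (fun _ => p')
        (fun O => ¬ StrL N D B l O) ≤ Real.exp (-(c * ((l : ℝ) + 1) ^ 2))

end Pool.Agent.TP
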