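import Pool.Agent.Helper28_TP.StS
import Pool.Agent.Helper28_TP.DyS

/-! # Assembly of the upper bound: lattice events -/

set_option autoImplicit false

namespace Pool.Agent.TP

open MeasureTheory ProbabilityTheory

variable {k : ℕ}

theorem bx_mono (b : Pt k) {n m : ℕ} (h : n ≤ m) : bx b n ⊆ bx b m := by
  intro x hx
  rw [mem_bx] at hx ⊢
  intro i
  have := hx i
  have h' : (n : ℤ) ≤ m := by exact_mod_cast h
  linarith

theorem MonoLoc.mono {R R' : ℕ} (h : R ≤ R') {E : Set (Pt k) → Prop} (hE : MonoLoc R E) :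
    MonoLoc R' E := by
  refine ⟨hE.1, fun O => ?_⟩
  rw [hE.2 O, hE.2 (O ∩ ↑(bx (0 : Pt k) R')), Set.inter_assoc]
  have : (↑(bx (0 : Pt k) R') : Set (Pt k)) ∩ ↑(bx (0 : Pt k) R) = ↑(bx (0 : Pt k) R) :=
    Set.inter_eq_right.2 (by exact_mod_cast bx_mono 0 h)
  rw [this]

theorem MonoLoc.PS_eq {R R' : ℕ} (h : R ≤ R') {E : Set (Pt k) → Prop} (hE : MonoLoc R E)
    (q : Pt k → ℝ) : PS (bx (0 : Pt k) R') q (fun A => E ↑A) = PS (bx (0 : Pt k) R) q (fun A => E ↑A) := by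
  refine PS_marg (bx_mono 0 h) q fun A _ => ?_
  rw [hE.2 ↑A]
  simp

theorem MonoLoc.PS_not_eq {R R' : ℕ} (h : R ≤ R') {E : Set (Pt k) → Prop} (hE : MonoLoc R E)
    (q : Pt k → ℝ) : PS (bx (0 : Pt k) R') q (fun A => ¬ E ↑A) =
      PS (bx (0 : Pt k) R) q (fun A => ¬ E ↑A) := by
  refine PS_marg (bx_mono 0 h) q fun A _ => ?_
  rw [hE.2 ↑A]
  simp

/-- Probability that a set is full. -/
theorem PS_full {α : Type} [DecidableEq α] {V S : Finset α} (h : S ⊆ V) (p : ℝ) :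
    PS V (fun _ => p) (fun A => S ⊆ A) = p ^ S.card := by
  classical
  rw [PS_marg h (fun _ => p) (E := fun A => S ⊆ A) (fun A _ => by
    simp [Finset.subset_inter_iff])]
  rw [PS_def, EX, Finset.sum_eq_single S]
  · rw [if_pos (Finset.Subset.refl S), mul_one, wt, Finset.prod_congr rfl (fun x hx => if_pos hx),
      Finset.prod_const]
  · intro A hA hne
    have hA' := Finset.mem_powerset.1 hA
    rw [if_neg (fun h' => hne (Finset.Subset.antisymm hA' h')), mul_zero]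
  · intro h'
    exact absurd (Finset.mem_powerset_self S) h'

open Classical in
/-- Trace of a set on a finite set. -/
noncomputable def fin (V : Finset (Pt k)) (O : Set (Pt k)) : Finset (Pt k) :=
  V.filter (fun c => c ∈ O)

theorem mem_fin {V : Finset (Pt k)} {O : Set (Pt k)} {x : Pt k} : x ∈ fin V O ↔ x ∈ V ∧ x ∈ O := by
  simp [fin]

theorem fin_coe {V A : Finset (Pt k)} (h : A ⊆ V) : fin V ↑A = A := by
  ext x
  rw [mem_fin]
  exact ⟨fun hx => hx.2, fun hx => ⟨h hx, hx⟩⟩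

/-- Volume of scale `l`. -/
noncomputable def Vl (k D l : ℕ) : Finset (Pt k) := bx (0 : Pt k) (D * 2 ^ (l + 3))

/-- Red structure event of scale `l` for a set of cells. -/
def redEv (N : Finset (Pt k)) (D B l : ℕ) (O : Set (Pt k)) : Prop :=
  StrL N D B l (fin (Vl k D l) O)

theorem Vis.mono {N : Finset (Pt k)} {D B : ℕ} {C : Finset (ℤ × ℤ)} {O O' : Finset (Pt k)}
    (h : O ⊆ O') (hv : Vis N D B C O) : Vis N D B C O' := by
  obtain ⟨S, h1, h2, h3⟩ := hv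
  exact ⟨S, h1.trans h, h2, h3⟩

theorem eight (D l : ℕ) : D * 2 ^ (l + 3) = 8 * D * 2 ^ l := by
  rw [pow_add]; ring

theorem redEv_monoLoc (N : Finset (Pt k)) (D B l : ℕ) :
    MonoLoc (8 * D * 2 ^ l) (redEv N D B l) := by
  constructor
  · rintro O O' h ⟨C, h1, h2⟩
    refine ⟨C, h1, h2.mono ?_⟩
    intro x hx
    rw [mem_fin] at hx ⊢
    exact ⟨hx.1, h hx.2⟩
  · intro O
    have : fin (Vl k D l) (O ∩ ↑(bx (0 : Pt k) (8 * D * 2 ^ l))) = fin (Vl k D l) O := by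
      ext x
      rw [mem_fin, mem_fin, Vl, eight]
      constructor
      · rintro ⟨h1, h2, h3⟩
        exact ⟨h1, h2⟩
      · rintro ⟨h1, h2⟩
        exact ⟨h1, h2, h1⟩
    unfold redEv
    rw [this]

/-- Bounded columns and rows of the structure of scale `l`. -/
def StrCl (l : ℕ) (C : Finset (ℤ × ℤ)) : Prop :=
  StrC (2 ^ l) (3 * 2 ^ (l - 1)) (2 ^ (l + 2)) (2 * ((l : ℤ) + 1) ^ 2) C

open Classical in
/-- Witness of the structure event. -/
noncomputable def wit (N : Finset (Pt k)) (D B l : ℕ) (S : Finset (Pt k)) : Finset (ℤ × ℤ) :=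
  if h : StrL N D B l S then h.choose else ∅

theorem wit_spec {N : Finset (Pt k)} {D B l : ℕ} {S : Finset (Pt k)} (h : StrL N D B l S) :
    StrCl l (wit N D B l S) ∧ Vis N D B (wit N D B l S) S := by
  unfold wit
  rw [dif_pos h]
  exact h.choose_spec

theorem wit_bd {N : Finset (Pt k)} {D B l : ℕ} {S : Finset (Pt k)} {z : ℤ × ℤ}
    (h : z ∈ wit N D B l S) : 2 ^ l ≤ z.1 ∧ z.1 ≤ 2 ^ (l + 2) ∧ 0 ≤ z.2 ∧
      z.2 ≤ 2 * ((l : ℤ) + 1) ^ 2 := by
  by_cases h' : StrL N D B l S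
  · exact (wit_spec h').1.1 z h
  · unfold wit at h
    rw [dif_neg h'] at h
    simp at h

/-- Gluing event of scale `l` for red cells `O` and blue cells `O'`. -/
def gluEv (N : Finset (Pt k)) (D B l : ℕ) (O O' : Set (Pt k)) : Prop :=
  redEv N D B l O → redEv N D B (l + 1) O →
    ∃ z ∈ wit N D B l (fin (Vl k D l) O) ∩ wit N D B (l + 1) (fin (Vl k D (l + 1)) O),
      (↑(bx (cen k (D : ℤ) z) B) : Set (Pt k)) ⊆ O'

theorem bx_cen_sub {D B l : ℕ} (hB : 1 ≤ B) (hD : 2 * B < D) {z : ℤ × ℤ} (h0 : 0 ≤ z.1)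
    (h1 : z.1 ≤ 2 ^ (l + 2)) (h2 : 0 ≤ z.2) (h3 : z.2 ≤ 2 ^ (l + 2)) :
    bx (cen k (D : ℤ) z) B ⊆ bx (0 : Pt k) (8 * D * 2 ^ l) := by
  intro x hx
  rw [mem_bx] at hx ⊢
  intro i
  have hi := hx i
  have hp : (1 : ℤ) ≤ 2 ^ l := one_le_pow₀ (by norm_num)
  have e1 : (2 : ℤ) ^ (l + 2) = 4 * 2 ^ l := by rw [pow_add]; ring
  have hBD : (2 : ℤ) * B < D := by exact_mod_cast hD
  have hB0 : (0 : ℤ) ≤ B := by positivity
  have hD0 : (0 : ℤ) ≤ D := by positivity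
  have key : |cen k (D : ℤ) z i| ≤ D * (4 * 2 ^ l) := by
    unfold cen
    split_ifs
    · rw [abs_of_nonneg (by positivity)]
      exact mul_le_mul_of_nonneg_left (by rw [← e1]; exact h1) hD0
    · rw [abs_of_nonneg (by positivity)]
      exact mul_le_mul_of_nonneg_left (by rw [← e1]; exact h3) hD0
    · simp
  have : |x i| ≤ |x i - cen k (D : ℤ) z i| + |cen k (D : ℤ) z i| := by
    have := abs_add_le (x i - cen k (D : ℤ) z i) (cen k (D : ℤ) z i)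
    simpa using this
  push_cast
  simp only [Pi.zero_apply, sub_zero]
  nlinarith

theorem two_sq_le {l : ℕ} (h : 2 * (l + 1) ^ 2 < 2 ^ l) : (2 : ℤ) * ((l : ℤ) + 1) ^ 2 ≤ 2 ^ (l + 2) := by
  have h1 : (2 : ℤ) * ((l : ℤ) + 1) ^ 2 < 2 ^ l := by exact_mod_cast h
  have h2 : (2 : ℤ) ^ (l + 2) = 4 * 2 ^ l := by rw [pow_add]; ring
  have h3 : (0 : ℤ) < 2 ^ l := by positivity
  linarith

theorem gluEv_monoLoc (N : Finset (Pt k)) {D B l : ℕ} (hB : 1 ≤ B) (hD : 2 * B < D)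
    (hl : 2 * (l + 1) ^ 2 < 2 ^ l) (O : Set (Pt k)) :
    MonoLoc (8 * D * 2 ^ l) (gluEv N D B l O) := by
  constructor
  · intro P P' hP h h1 h2
    obtain ⟨z, hz, hs⟩ := h h1 h2
    exact ⟨z, hz, hs.trans hP⟩
  · intro P
    have key : ∀ z ∈ wit N D B l (fin (Vl k D l) O) ∩ wit N D B (l + 1) (fin (Vl k D (l + 1)) O),
        ((↑(bx (cen k (D : ℤ) z) B) : Set (Pt k)) ⊆ P ↔
          (↑(bx (cen k (D : ℤ) z) B) : Set (Pt k)) ⊆ P ∩ ↑(bx (0 : Pt k) (8 * D * 2 ^ l))) := by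
      intro z hz
      obtain ⟨h1, h2, h3, h4⟩ := wit_bd (Finset.mem_inter.1 hz).1
      have h0 : (0 : ℤ) ≤ z.1 := le_trans (by positivity) h1
      have hsub := bx_cen_sub (k := k) hB hD h0 h2 h3 (h4.trans (two_sq_le hl))
      constructor
      · intro h
        exact Set.subset_inter h (by exact_mod_cast hsub)
      · intro h
        exact h.trans Set.inter_subset_left
    constructor
    · intro h h1 h2
      obtain ⟨z, hz, hs⟩ := h h1 h2
      exact ⟨z, hz, (key z hz).1 hs⟩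
    · intro h h1 h2
      obtain ⟨z, hz, hs⟩ := h h1 h2
      exact ⟨z, hz, (key z hz).2 hs⟩

/-- Failure probability of gluing. -/
theorem gluEv_prob (hG : GlpStmt) {l₂ : ℕ} (hC : ∀ l ≥ l₂, ∀ C C' : Finset (ℤ × ℤ),
    StrC (2 ^ l) (3 * 2 ^ (l - 1)) (2 ^ (l + 2)) (2 * ((l : ℤ) + 1) ^ 2) C →
    StrC (2 ^ (l + 1)) (3 * 2 ^ l) (2 ^ (l + 3)) (2 * ((l : ℤ) + 2) ^ 2) C' →
    ∃ Z : Finset (ℤ × ℤ), Z ⊆ C ∩ C' ∧ Z.card = (l + 1) ^ 2) (N : Finset (Pt k)) {D B l : ℕ}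
    (hB : 1 ≤ B) (hD : 2 * B < D) (hl : 2 * (l + 1) ^ 2 < 2 ^ l) (hl2 : l₂ ≤ l) {p : ℝ}
    (hp : 0 < p) (hp1 : p < 1) (O : Set (Pt k)) :
    PS (bx (0 : Pt k) (8 * D * 2 ^ l)) (fun _ => p) (fun A => ¬ gluEv N D B l O ↑A) ≤
      (1 - p ^ (2 * B + 1) ^ (k + 2)) ^ ((l + 1) ^ 2) := by
  have hU : U01 (bx (0 : Pt k) (8 * D * 2 ^ l)) (fun _ => p) := fun _ _ => ⟨hp.le, hp1.le⟩
  have hpp : p ^ (2 * B + 1) ^ (k + 2) ≤ 1 := pow_le_one₀ hp.le hp1.le
  by_cases h : redEv N D B l O ∧ redEv N D B (l + 1) O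
  · obtain ⟨h1, h2⟩ := h
    obtain ⟨Z, hZ, hZc⟩ := hC l hl2 _ _ (wit_spec h1).1 (by
      have := (wit_spec h2).1
      unfold StrCl at this
      have e1 : l + 1 - 1 = l := by omega
      have e2 : l + 1 + 2 = l + 3 := by omega
      rw [e1, e2] at this
      push_cast at this
      have e3 : (l : ℤ) + 1 + 1 = l + 2 := by ring
      rw [e3] at this
      exact this)
    have h3 := hG k D B (8 * D * 2 ^ l) p hD hp hp1 Z (fun z hz => by
      obtain ⟨h1, h2, h3, h4⟩ := wit_bd (Finset.mem_inter.1 (hZ hz)).1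
      have h0 : (0 : ℤ) ≤ z.1 := le_trans (by positivity) h1
      exact bx_cen_sub hB hD h0 h2 h3 (h4.trans (two_sq_le hl)))
    rw [hZc] at h3
    refine le_trans (PS_mono hU ?_) h3
    intro A _ hA hex
    apply hA
    intro _ _
    obtain ⟨z, hz, hs⟩ := hex
    exact ⟨z, hZ hz, by exact_mod_cast hs⟩
  · have h0 : PS (bx (0 : Pt k) (8 * D * 2 ^ l)) (fun _ => p) (fun A => ¬ gluEv N D B l O ↑A) ≤
        PS (bx (0 : Pt k) (8 * D * 2 ^ l)) (fun _ => p) (fun _ => False) := by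
      refine PS_mono hU ?_
      intro A _ hA
      exact hA fun h1 h2 => absurd ⟨h1, h2⟩ h
    rw [PS_false] at h0
    exact h0.trans (pow_nonneg (by linarith) _)

end Pool.Agent.TP
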