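import Pool.Agent.Helper28_TP.U1
import Pool.Agent.Helper28_TP.Inst

/-! # Assembly of the upper bound: the good time, and the bound for a fixed path -/

set_option autoImplicit false

namespace Pool.Agent.TP

open MeasureTheory ProbabilityTheory

variable {k : ℕ}

/-- The local blue event: the central box is full and the first gluings succeed. -/
def locEv (N : Finset (Pt k)) (D B l₁ l₂ : ℕ) (O O' : Set (Pt k)) : Prop :=
  (↑(bx (0 : Pt k) (D * 2 ^ (l₁ + 1))) : Set (Pt k)) ⊆ O' ∧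
    ∀ l ∈ Finset.Ico l₁ l₂, gluEv N D B l O O'

/-- Deterministic part: if all events occur, the component of the origin is infinite. -/
theorem good_inf (hF : FincStmt) {N : Finset (Pt k)} {ρ D B l₁ l₂ : ℕ} (hN : GoodN N ρ)
    (hB : 1 ≤ B) (hD : 2 * B < D) (hl1 : 1 ≤ l₁) (hsq : 2 * (l₁ + 1) ^ 2 < 2 ^ l₁)
    {O O' : Set (Pt k)} (h1 : ∀ l ≥ l₁, redEv N D B l O) (h2 : ∀ l ≥ l₂, gluEv N D B l O O')
    (h3 : locEv N D B l₁ l₂ O O') : {x | Conn N (O ∪ O') 0 x}.Infinite := by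
  refine hF k N ρ D B l₁ O O' (fun l => wit N D B l (fin (Vl k D l) O))
    (fun l => fin (Vl k D l) O) hN hB hD hl1 hsq ?_ ?_ h3.1
  · intro l hl
    refine ⟨(wit_spec (h1 l hl)).1, (wit_spec (h1 l hl)).2, ?_⟩
    intro x hx
    exact (mem_fin.1 (by exact_mod_cast hx)).2
  · intro l hl
    have hg : gluEv N D B l O O' := by
      rcases lt_or_ge l l₂ with h | h
      · exact h3.2 l (Finset.mem_Ico.2 ⟨hl, h⟩)
      · exact h2 l h
    exact hg (h1 l hl) (h1 (l + 1) (by omega))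

/-- Counting: a good time exists. -/
theorem exists_good {A : ℕ} {c₁ : ℝ} (hc : 0 < c₁) (P₁ P₂ P₃ : ℕ → Prop) [DecidablePred P₁]
    [DecidablePred P₂] [DecidablePred P₃]
    (h1 : (((Finset.Ico (2 ^ A) (2 ^ (A + 1))).filter (fun q => ¬ P₁ q)).card : ℝ) < 1 / 4 * 2 ^ A)
    (h2 : (((Finset.Ico (2 ^ A) (2 ^ (A + 1))).filter (fun q => ¬ P₂ q)).card : ℝ) < c₁ / 8 * 2 ^ A)
    (h3 : c₁ / 2 * (((Finset.Ico (2 ^ A) (2 ^ (A + 1))).filter P₁).card : ℝ) - c₁ / 8 * 2 ^ A <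
      ((((Finset.Ico (2 ^ A) (2 ^ (A + 1))).filter P₁).filter P₃).card : ℝ)) :
    ∃ q ∈ Finset.Ico (2 ^ A) (2 ^ (A + 1)), P₁ q ∧ P₂ q ∧ P₃ q := by
  by_contra hcon
  push Not at hcon
  have hI : ((Finset.Ico (2 ^ A) (2 ^ (A + 1))).card : ℝ) = 2 ^ A := by
    rw [Nat.card_Ico]
    have : 2 ^ (A + 1) - 2 ^ A = 2 ^ A := by rw [pow_succ]; omega
    rw [this]; push_cast; rfl
  have hsplit := Finset.card_filter_add_card_filter_not (s := Finset.Ico (2 ^ A) (2 ^ (A + 1))) P₁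
  have hsplit' : (((Finset.Ico (2 ^ A) (2 ^ (A + 1))).filter P₁).card : ℝ) +
      (((Finset.Ico (2 ^ A) (2 ^ (A + 1))).filter (fun q => ¬ P₁ q)).card : ℝ) = 2 ^ A := by
    rw [← hI]; exact_mod_cast hsplit
  have hsub : ((Finset.Ico (2 ^ A) (2 ^ (A + 1))).filter P₁).filter P₃ ⊆
      (Finset.Ico (2 ^ A) (2 ^ (A + 1))).filter (fun q => ¬ P₂ q) := by
    intro q hq
    rw [Finset.mem_filter, Finset.mem_filter] at hq
    rw [Finset.mem_filter]
    exact ⟨hq.1.1, fun h => hcon q hq.1.1 hq.1.2 h hq.2⟩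
  have hle : ((((Finset.Ico (2 ^ A) (2 ^ (A + 1))).filter P₁).filter P₃).card : ℝ) ≤
      (((Finset.Ico (2 ^ A) (2 ^ (A + 1))).filter (fun q => ¬ P₂ q)).card : ℝ) := by
    exact_mod_cast Finset.card_le_card hsub
  have hpos : (0 : ℝ) < 2 ^ A := by positivity
  nlinarith [mul_pos hc hpos]

open Classical in
/-- The bound for a fixed path of the additional node. -/
theorem fixed_path {r lamr lamb s h : ℝ} {ρ D B l₁ l₂ : ℕ} {c₁ e₁ e₂ e₃ : ℝ}
    (hFinc : FincStmt) (hCont : ContStmt) (hMtp : MtpStmt)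
    (hr : 0 < r) (hh : 0 < h) (hN : GoodN (Nb k r h) ρ) (hB : 1 ≤ B) (hD : 2 * B < D)
    (hl1 : 1 ≤ l₁) (hsq : 2 * (l₁ + 1) ^ 2 < 2 ^ l₁) (hc₁ : 0 < c₁)
    (G : Cf k × Cf k → Cf k)
    (hG : MeasurePreserving G ((confLaw k lamr s).prod (confLaw k lamb s))
      (confLaw k (lamr + lamb) s))
    (hocc : ∀ (h : ℝ) (w : Sp k) (i : ℕ) (ω : Cf k × Cf k),
      occ h w i (G ω) = occ h w i ω.1 ∪ occ h w i ω.2)
    (A τ t : ℕ) (hτ : 0 < τ) (ht : 2 ^ (A + 1) * τ ≤ t) (y : ℕ → Sp k)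
    (hRed : (confLaw k lamr s).real {ω | 1 / 4 * 2 ^ A ≤
      (((Finset.Ico (2 ^ A) (2 ^ (A + 1))).filter (fun q => ∃ l ≥ l₁,
        ¬ redEv (Nb k r h) D B l (occ h (walk 0 y (q * τ)) (q * τ) ω))).card : ℝ)} ≤ e₁)
    (hBlue : ∀ O : ℕ → Set (Pt k), (confLaw k lamb s).real {ω | c₁ / 8 * 2 ^ A ≤
      (((Finset.Ico (2 ^ A) (2 ^ (A + 1))).filter (fun q => ∃ l ≥ l₂,
        ¬ gluEv (Nb k r h) D B l (O q) (occ h (walk 0 y (q * τ)) (q * τ) ω))).card : ℝ)} ≤ e₂)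
    (hLoc : ∀ (O : ℕ → Set (Pt k)) (Q : Finset ℕ), Q ⊆ Finset.Ico (2 ^ A) (2 ^ (A + 1)) →
      (confLaw k lamb s).real {ω | ((Q.filter (fun q => locEv (Nb k r h) D B l₁ l₂ (O q)
        (occ h (walk 0 y (q * τ)) (q * τ) ω))).card : ℝ) ≤
          c₁ / 2 * Q.card - c₁ / 8 * 2 ^ A} ≤ e₃) :
    confLaw k (lamr + lamb) s {ω | (t : ℕ∞) ≤ Tperc r ω y} ≤ ENNReal.ofReal (e₁ + e₂ + e₃) := by
  set Pr := confLaw k lamr s with hPr
  set Pb := confLaw k lamb s with hPb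
  set S : Set (Cf k) := {ω | (t : ℕ∞) ≤ Tperc r ω y} with hS
  have hSm : MeasurableSet S := (measurable_prodMk_right (y := y)) (hMtp k r t)
  set BR : Set (Cf k) := {ω | 1 / 4 * 2 ^ A ≤
      (((Finset.Ico (2 ^ A) (2 ^ (A + 1))).filter (fun q => ∃ l ≥ l₁,
        ¬ redEv (Nb k r h) D B l (occ h (walk 0 y (q * τ)) (q * τ) ω))).card : ℝ)} with hBR
  have e1nn : 0 ≤ e₁ := le_trans measureReal_nonneg hRed
  have e2nn : 0 ≤ e₂ := le_trans measureReal_nonneg (hBlue fun _ => ∅)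
  have e3nn : 0 ≤ e₃ := le_trans measureReal_nonneg (hLoc (fun _ => ∅) ∅ (by simp))
  have key : ∀ ω₁, ω₁ ∉ BR → Pb {ω₂ | (ω₁, ω₂) ∈ G ⁻¹' S} ≤ ENNReal.ofReal (e₂ + e₃) := by
    intro ω₁ hω₁
    set O : ℕ → Set (Pt k) := fun q => occ h (walk 0 y (q * τ)) (q * τ) ω₁ with hO
    set Q : Finset ℕ := (Finset.Ico (2 ^ A) (2 ^ (A + 1))).filter
      (fun q => ∀ l ≥ l₁, redEv (Nb k r h) D B l (O q)) with hQ
    have hb := hBlue O
    have hl := hLoc O Q (Finset.filter_subset _ _)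
    set BB : Set (Cf k) := {ω | c₁ / 8 * 2 ^ A ≤
      (((Finset.Ico (2 ^ A) (2 ^ (A + 1))).filter (fun q => ∃ l ≥ l₂,
        ¬ gluEv (Nb k r h) D B l (O q) (occ h (walk 0 y (q * τ)) (q * τ) ω))).card : ℝ)} with hBB
    set BL : Set (Cf k) := {ω | ((Q.filter (fun q => locEv (Nb k r h) D B l₁ l₂ (O q)
        (occ h (walk 0 y (q * τ)) (q * τ) ω))).card : ℝ) ≤
          c₁ / 2 * Q.card - c₁ / 8 * 2 ^ A} with hBL
    have hsub : {ω₂ | (ω₁, ω₂) ∈ G ⁻¹' S} ⊆ BB ∪ BL := by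
      intro ω₂ hω₂
      by_contra hcon
      rw [Set.mem_union, not_or] at hcon
      obtain ⟨hn1, hn2⟩ := hcon
      rw [hBB, Set.mem_ofPred_eq, not_le] at hn1
      rw [hBL, Set.mem_ofPred_eq, not_le] at hn2
      rw [hBR, Set.mem_ofPred_eq, not_le] at hω₁
      obtain ⟨q, hq, q1, q2, q3⟩ := exists_good (A := A) hc₁
        (fun q => ∀ l ≥ l₁, redEv (Nb k r h) D B l (O q))
        (fun q => ∀ l ≥ l₂, gluEv (Nb k r h) D B l (O q) (occ h (walk 0 y (q * τ)) (q * τ) ω₂))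
        (fun q => locEv (Nb k r h) D B l₁ l₂ (O q) (occ h (walk 0 y (q * τ)) (q * τ) ω₂))
        (by
          refine lt_of_eq_of_lt ?_ hω₁
          congr 2
          refine Finset.filter_congr fun q _ => ?_
          push Not
          rfl)
        (by
          refine lt_of_eq_of_lt ?_ hn1
          congr 2
          refine Finset.filter_congr fun q _ => ?_
          push Not
          rfl)
        hn2
      have hinf := good_inf hFinc hN hB hD hl1 hsq q1 q2 q3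
      rw [hO] at hinf
      simp only at hinf
      have hocc' := hocc h (walk 0 y (q * τ)) (q * τ) (ω₁, ω₂)
      simp only at hocc'
      rw [← hocc'] at hinf
      have hin := hCont k r h (G (ω₁, ω₂)) (walk 0 y (q * τ)) (q * τ) hr hh hinf
      have hT : Tperc r (G (ω₁, ω₂)) y ≤ ((q * τ : ℕ) : ℕ∞) := by
        unfold Tperc
        exact sInf_le ⟨q * τ, hin, rfl⟩
      have hT' : (t : ℕ∞) ≤ ((q * τ : ℕ) : ℕ∞) := le_trans hω₂ hT
      have hT'' : t ≤ q * τ := by exact_mod_cast hT'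
      have hq' := (Finset.mem_Ico.1 hq).2
      have : q * τ < 2 ^ (A + 1) * τ := Nat.mul_lt_mul_of_pos_right hq' hτ
      omega
    calc Pb {ω₂ | (ω₁, ω₂) ∈ G ⁻¹' S} ≤ Pb (BB ∪ BL) := measure_mono hsub
      _ ≤ Pb BB + Pb BL := measure_union_le _ _
      _ ≤ ENNReal.ofReal e₂ + ENNReal.ofReal e₃ := by
          refine add_le_add ?_ ?_
          · rw [← ofReal_measureReal (μ := Pb) (s := BB)]
            exact ENNReal.ofReal_le_ofReal hb
          · rw [← ofReal_measureReal (μ := Pb) (s := BL)]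
            exact ENNReal.ofReal_le_ofReal hl
      _ = ENNReal.ofReal (e₂ + e₃) := (ENNReal.ofReal_add e2nn e3nn).symm
  have h1 : confLaw k (lamr + lamb) s S = (Pr.prod Pb) (G ⁻¹' S) :=
    (hG.measure_preimage hSm.nullMeasurableSet).symm
  rw [h1, Measure.prod_apply (hG.measurable hSm)]
  calc ∫⁻ ω₁, Pb (Prod.mk ω₁ ⁻¹' (G ⁻¹' S)) ∂Pr
      ≤ ∫⁻ ω₁, (BR.indicator (fun _ => (1 : ENNReal)) ω₁ + ENNReal.ofReal (e₂ + e₃)) ∂Pr := by
        refine lintegral_mono fun ω₁ => ?_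
        by_cases hω : ω₁ ∈ BR
        · rw [Set.indicator_of_mem hω]
          exact le_trans prob_le_one le_self_add
        · rw [Set.indicator_of_notMem hω, zero_add]
          exact key ω₁ hω
    _ = ∫⁻ ω₁, BR.indicator (fun _ => (1 : ENNReal)) ω₁ ∂Pr + ENNReal.ofReal (e₂ + e₃) := by
        rw [lintegral_add_right _ measurable_const]
        simp
    _ ≤ Pr BR + ENNReal.ofReal (e₂ + e₃) := by
        refine add_le_add ?_ le_rfl
        have := lintegral_indicator_const_le (μ := Pr) BR (1 : ENNReal)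
        simpa using this
    _ ≤ ENNReal.ofReal e₁ + ENNReal.ofReal (e₂ + e₃) := by
        refine add_le_add ?_ le_rfl
        rw [← ofReal_measureReal (μ := Pr) (s := BR)]
        exact ENNReal.ofReal_le_ofReal hRed
    _ = ENNReal.ofReal (e₁ + e₂ + e₃) := by
        rw [← ENNReal.ofReal_add e1nn (add_nonneg e2nn e3nn), add_assoc]

end Pool.Agent.TP
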