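import Pool.Agent.Helper28_TP.U2

/-! # Assembly of the upper bound: constants -/

set_option autoImplicit false

namespace Pool.Agent.TP

open MeasureTheory ProbabilityTheory

variable {k : ℕ}

theorem log_le_sqrt {x : ℝ} (hx : 0 < x) : Real.log x ≤ 2 * Real.sqrt x := by
  have h1 : Real.log x = 2 * Real.log (Real.sqrt x) := by
    rw [Real.log_sqrt hx.le]; ring
  have h2 := Real.log_le_sub_one_of_pos (Real.sqrt_pos.2 hx)
  rw [h1]
  linarith

theorem expo_large (k : ℕ) (K : ℝ) : ∃ t₀ : ℕ, ∀ t ≥ t₀, K ≤ expo k t := by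
  refine ⟨⌈4 * K ^ 2⌉₊ + ⌈K⌉₊ + 3, fun t ht => ?_⟩
  have h3 : (3 : ℝ) ≤ t := by
    have : 3 ≤ t := by omega
    exact_mod_cast this
  have hK : K ≤ t := by
    have : ⌈K⌉₊ ≤ t := by omega
    exact (Nat.le_ceil K).trans (by exact_mod_cast this)
  have hK2 : 4 * K ^ 2 ≤ t := by
    have : ⌈4 * K ^ 2⌉₊ ≤ t := by omega
    exact (Nat.le_ceil _).trans (by exact_mod_cast this)
  unfold expo
  split_ifs with hk
  · have hl : 0 < Real.log t := Real.log_pos (by linarith)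
    rw [le_div_iff₀ hl]
    have hs : 0 < Real.sqrt t := Real.sqrt_pos.2 (by linarith)
    have h1 := log_le_sqrt (x := t) (by linarith)
    have hss : Real.sqrt t * Real.sqrt t = t := Real.mul_self_sqrt (by linarith)
    rcases le_or_gt K 0 with h0 | h0
    · nlinarith
    · have h2 : 2 * K ≤ Real.sqrt t := by
        apply Real.le_sqrt_of_sq_le
        nlinarith
      nlinarith
  · exact hK

theorem choice (k : ℕ) {C₀ : ℝ} (hC : 0 < C₀) : ∃ (K : ℝ) (t₀ : ℕ), 0 < K ∧ ∀ t ≥ t₀,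
    ∃ A τ : ℕ, 0 < τ ∧ C₀ * Lw k A ≤ τ ∧ 2 ^ (A + 1) * τ ≤ t ∧ expo k t ≤ K * 2 ^ A := by
  have hlog2 : 0 < Real.log 2 := Real.log_pos (by norm_num)
  set K' : ℝ := C₀ + 1 + C₀ / Real.log 2 with hK'
  have hK'pos : 0 < K' := by positivity
  refine ⟨4 * K', ⌈16 * K' ^ 2⌉₊ + ⌈2 * K'⌉₊ + 3, by positivity, fun t ht => ?_⟩
  have h3n : 3 ≤ t := by omega
  have h3 : (3 : ℝ) ≤ t := by exact_mod_cast h3n
  have ht0 : (0 : ℝ) < t := by linarith
  have hK1 : 16 * K' ^ 2 ≤ t := by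
    have : ⌈16 * K' ^ 2⌉₊ ≤ t := by omega
    exact (Nat.le_ceil _).trans (by exact_mod_cast this)
  have hK2 : 2 * K' ≤ t := by
    have : ⌈2 * K'⌉₊ ≤ t := by omega
    exact (Nat.le_ceil _).trans (by exact_mod_cast this)
  have hlogt : 1 ≤ Real.log t := by
    rw [Real.le_log_iff_exp_le ht0]
    exact le_trans Real.exp_one_lt_three.le h3
  have hnl : (Nat.log 2 t : ℝ) ≤ Real.log t / Real.log 2 := by
    rw [le_div_iff₀ hlog2]
    have h1 : 2 ^ Nat.log 2 t ≤ t := Nat.pow_log_le_self 2 (by omega)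
    have h2 : ((2 : ℝ) ^ Nat.log 2 t) ≤ t := by exact_mod_cast h1
    have h3' := Real.log_le_log (by positivity) h2
    rwa [Real.log_pow] at h3'
  -- the quantity bounding `Lw`
  set L : ℝ := if k = 0 then 1 + (Nat.log 2 t : ℝ) else 1 with hL
  set W : ℝ := if k = 0 then Real.log t else 1 with hW
  have hL1 : 1 ≤ L := by
    rw [hL]; split_ifs
    · have : (0 : ℝ) ≤ (Nat.log 2 t : ℝ) := by positivity
      linarith
    · exact le_rfl
  set τ : ℕ := ⌈C₀ * L⌉₊ with hτ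
  have hτpos : 0 < τ := Nat.ceil_pos.2 (by positivity)
  have hτle : (τ : ℝ) ≤ K' * W := by
    have h1 : (τ : ℝ) ≤ C₀ * L + 1 := (Nat.ceil_lt_add_one (by positivity)).le
    rw [hL] at h1
    rw [hW, hK']
    split_ifs at h1 ⊢ with hk
    · have h2 : C₀ * (Nat.log 2 t : ℝ) ≤ C₀ / Real.log 2 * Real.log t := by
        have := mul_le_mul_of_nonneg_left hnl hC.le
        refine this.trans (le_of_eq ?_)
        field_simp
      nlinarith
    · have : 0 < C₀ / Real.log 2 := by positivity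
      linarith
  have hWt : 2 * (K' * W) ≤ t := by
    rw [hW]; split_ifs
    · have h1 := log_le_sqrt ht0
      have hs : 0 < Real.sqrt t := Real.sqrt_pos.2 ht0
      have hss : Real.sqrt t * Real.sqrt t = t := Real.mul_self_sqrt ht0.le
      have h2 : 4 * K' ≤ Real.sqrt t := by
        apply Real.le_sqrt_of_sq_le
        nlinarith
      have h4 : K' * Real.log t ≤ K' * (2 * Real.sqrt t) := mul_le_mul_of_nonneg_left h1 hK'pos.le
      nlinarith
    · linarith
  have h2τ : 2 * τ ≤ t := by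
    have : (2 * τ : ℝ) ≤ t := by linarith
    exact_mod_cast this
  have hWpos : 0 < W := by
    rw [hW]; split_ifs <;> linarith
  set A : ℕ := Nat.log 2 (t / (2 * τ)) with hA
  have hq : t / (2 * τ) ≠ 0 := by
    have := Nat.div_pos h2τ (by omega)
    omega
  have hA1 : 2 ^ A ≤ t / (2 * τ) := Nat.pow_log_le_self 2 hq
  have hA2 : t / (2 * τ) < 2 ^ (A + 1) := Nat.lt_pow_succ_log_self (by norm_num) _
  have hA3 : A ≤ Nat.log 2 t := Nat.log_mono_right (Nat.div_le_self _ _)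
  refine ⟨A, τ, hτpos, ?_, ?_, ?_⟩
  · have h1 : Lw k A ≤ L := by
      unfold Lw
      rw [hL]
      split_ifs
      · have : (A : ℝ) ≤ (Nat.log 2 t : ℝ) := by exact_mod_cast hA3
        linarith
      · exact le_rfl
    exact (mul_le_mul_of_nonneg_left h1 hC.le).trans (Nat.le_ceil _)
  · have := (Nat.le_div_iff_mul_le (by omega)).1 hA1
    rw [pow_succ]
    nlinarith
  · have h1 : t < 2 ^ (A + 1) * (2 * τ) := (Nat.div_lt_iff_lt_mul (by omega)).1 hA2
    have h2 : (t : ℝ) ≤ 2 ^ (A + 1) * (2 * τ) := by exact_mod_cast h1.le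
    have hp : (0 : ℝ) < 2 ^ A := by positivity
    have h4 : (t : ℝ) ≤ 4 * K' * 2 ^ A * W := by
      rw [pow_succ] at h2
      have := mul_le_mul_of_nonneg_left hτle hp.le
      nlinarith
    unfold expo
    rw [hW] at h4
    split_ifs at h4 ⊢ with hk
    · rw [div_le_iff₀ (by linarith)]
      exact h4
    · linarith

/-- Final conversion of the bound. -/
theorem conv {k : ℕ} {C₀ c' : ℝ} {A₀ : ℕ} (hC : 0 < C₀) (hc : 0 < c') {f : ℕ → ℝ}
    (hf : ∀ A τ t : ℕ, 0 < τ → A₀ ≤ A → C₀ * Lw k A ≤ τ → 2 ^ (A + 1) * τ ≤ t →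
      f t ≤ 3 * Real.exp (-(c' * 2 ^ A))) :
    ∃ c : ℝ, 0 < c ∧ ∃ t₀ : ℕ, ∀ t ≥ t₀, f t ≤ Real.exp (-(c * expo k t)) := by
  obtain ⟨K, t₀, hK, h⟩ := choice k hC
  obtain ⟨t₁, h1⟩ := expo_large k (max (2 * K * Real.log 3 / c') (K * 2 ^ A₀))
  refine ⟨c' / (2 * K), by positivity, max t₀ t₁, fun t ht => ?_⟩
  obtain ⟨A, τ, hτ, hL, hA, hex⟩ := h t (le_trans (le_max_left _ _) ht)
  have hAA : A₀ ≤ A := by
    have h0 := (le_max_right _ _).trans (h1 t (le_trans (le_max_right _ _) ht))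
    have h00 : (2 : ℝ) ^ A₀ ≤ 2 ^ A := le_of_mul_le_mul_left (h0.trans hex) hK
    exact (pow_le_pow_iff_right₀ (by norm_num)).1 h00
  refine (hf A τ t hτ hAA hL hA).trans ?_
  have h2 := (le_max_left _ _).trans (h1 t (le_trans (le_max_right _ _) ht))
  rw [← Real.exp_log (show (0 : ℝ) < 3 by norm_num), ← Real.exp_add, Real.exp_le_exp]
  rw [div_le_iff₀ hc] at h2
  have h3 : c' / (2 * K) * expo k t = c' * expo k t / (2 * K) := by ring
  rw [h3]
  have h4 : Real.log 3 ≤ c' * expo k t / (2 * K) := by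
    rw [le_div_iff₀ (by positivity)]
    nlinarith
  have h5 : 2 * (c' * expo k t / (2 * K)) ≤ c' * 2 ^ A := by
    have : 2 * (c' * expo k t / (2 * K)) = c' * (expo k t / K) := by
      field_simp
    rw [this]
    refine mul_le_mul_of_nonneg_left ?_ hc.le
    rw [div_le_iff₀ hK]
    linarith
  linarith

theorem two_mul_sq_lt {l : ℕ} (h : 8 ≤ l) : 2 * (l + 1) ^ 2 < 2 ^ l := by
  induction l, h using Nat.le_induction with
  | base => norm_num
  | succ n hn ih =>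
    rw [pow_succ (2 : ℕ)]
    nlinarith

theorem sum_tail {cg : ℝ} (hc : 0 < cg) : ∃ l₀ : ℕ, ∀ l₁ ≥ l₀, ∀ l₂ : ℕ,
    ∑ l ∈ Finset.Ico l₁ l₂, Real.exp (-(cg * ((l : ℝ) + 1) ^ 2)) ≤ 1 / 2 := by
  have hs : Summable (fun l : ℕ => Real.exp (-(cg * ((l : ℝ) + 1) ^ 2))) := by
    refine Summable.of_nonneg_of_le (fun l => (Real.exp_pos _).le) (fun l => ?_)
      (summable_geometric_of_lt_one (Real.exp_pos (-cg)).le (by
        rw [Real.exp_lt_one_iff]; linarith))
    rw [← Real.exp_nat_mul, Real.exp_le_exp]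
    have h0 : (0 : ℝ) ≤ l := by positivity
    have h1 : (l : ℝ) ≤ ((l : ℝ) + 1) ^ 2 := by nlinarith
    have h2 := mul_le_mul_of_nonneg_left h1 hc.le
    linarith
  obtain ⟨s, hs'⟩ := hs.vanishing (Metric.ball_mem_nhds (0 : ℝ) (show (0 : ℝ) < 1 / 2 by norm_num))
  refine ⟨s.sup id + 1, fun l₁ hl₁ l₂ => ?_⟩
  have h1 := hs' (Finset.Ico l₁ l₂) (by
    rw [Finset.disjoint_left]
    intro x hx hxs
    have h2 := Finset.le_sup (f := id) hxs
    have h3 := (Finset.mem_Ico.1 hx).1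
    simp only [id] at h2
    omega)
  rw [Metric.mem_ball, dist_zero_right, Real.norm_eq_abs] at h1
  exact (le_abs_self _).trans h1.le

end Pool.Agent.TP
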