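import Pool.Agent.Helper28_TP.U3

/-! # Assembly of the upper bound -/

set_option autoImplicit false

namespace Pool.Agent.TP

open MeasureTheory ProbabilityTheory

variable {k : ℕ}

/-- Choice of the lattice constants. -/
theorem lattice_constants (hNbg : NbgStmt) (hPrc : PrcStmt) (hSta : StaStmt) (k : ℕ)
    {r lam : ℝ} (hr : 0 < r) (hlam : lamC k r < ENNReal.ofReal lam) :
    ∃ (lamr lamb h p' : ℝ) (ρ D B : ℕ) (c : ℝ) (l₁ : ℕ), 0 < lamr ∧ 0 < lamb ∧
      lamr + lamb = lam ∧ 0 < h ∧ GoodN (Nb k r h) ρ ∧ 0 < p' ∧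
      p' < 1 - Real.exp (-(lamr * h ^ (k + 2))) ∧ 1 ≤ B ∧ 2 * B < D ∧ 0 < c ∧ 1 ≤ l₁ ∧
      ∀ l ≥ l₁, PS (bx (0 : Pt k) (D * 2 ^ (l + 3))) (fun _ => p')
        (fun O => ¬ StrL (Nb k r h) D B l O) ≤ Real.exp (-(c * ((l : ℝ) + 1) ^ 2)) := by
  obtain ⟨x, ⟨lam1, h1, hperc, rfl⟩, hx⟩ := sInf_lt_iff.1 hlam
  have hl : lam1 < lam := by
    by_contra hcon
    exact absurd hx (not_lt.2 (ENNReal.ofReal_le_ofReal (not_lt.1 hcon)))
  have hlampos : 0 < lam := h1.trans hl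
  -- the ratio `b`
  have hcont : ContinuousAt (fun b : ℝ => lam * b ^ (k + 2)) 1 := by fun_prop
  have hev : ∀ᶠ b in nhds (1 : ℝ), lam1 < lam * b ^ (k + 2) := by
    apply hcont.eventually (lt_mem_nhds _)
    simpa using hl
  obtain ⟨b, hb1, hb0, hblt⟩ : ∃ b : ℝ, lam1 < lam * b ^ (k + 2) ∧ 0 < b ∧ b < 1 := by
    have hev2 : ∀ᶠ b in nhdsWithin (1 : ℝ) (Set.Iio 1),
        lam1 < lam * b ^ (k + 2) ∧ 0 < b ∧ b < 1 := by
      refine (hev.filter_mono nhdsWithin_le_nhds).and ?_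
      refine Filter.Eventually.and ?_ (eventually_mem_nhdsWithin)
      exact (lt_mem_nhds (show (0 : ℝ) < 1 by norm_num)).filter_mono nhdsWithin_le_nhds
    exact hev2.exists
  have hbr : 0 < (1 - b) * r := by
    apply mul_pos (by linarith) hr
  set d2 : ℝ := 2 * Real.sqrt (k + 2) with hd2
  have hd2pos : 0 < d2 := by positivity
  set M : ℕ := ⌈d2 * b / ((1 - b) * r)⌉₊ + 1 with hM
  have hM1 : 1 ≤ M := by omega
  have hMpos : (0 : ℝ) < M := by exact_mod_cast hM1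
  have hMle : d2 * b / ((1 - b) * r) ≤ M := by
    refine (Nat.le_ceil _).trans ?_
    rw [hM]; push_cast; linarith
  have hMb : d2 * (b / M) ≤ (1 - b) * r := by
    rw [div_le_iff₀ hbr] at hMle
    rw [mul_div_assoc', div_le_iff₀ hMpos]
    linarith
  have hh : 0 < b / M := by positivity
  obtain ⟨ρ, hρ⟩ := hNbg k r (b / M) hr hh (by
    have : (1 - b) * r ≤ r := by nlinarith
    exact hMb.trans this)
  obtain ⟨θ, hθ, hPN⟩ := hPrc k r lam1 b M hr h1 hb0 hM1 (by linarith) hperc ρ hρ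
  have hbk : 0 < b ^ (k + 2) := by positivity
  -- the two intensities
  have hq : lam1 / b ^ (k + 2) < lam := by rw [div_lt_iff₀ hbk]; exact hb1
  have hq0 : 0 < lam1 / b ^ (k + 2) := by positivity
  set lamr : ℝ := (lam + lam1 / b ^ (k + 2)) / 2 with hlamr
  set lamb : ℝ := (lam - lam1 / b ^ (k + 2)) / 2 with hlamb
  have hlamr0 : 0 < lamr := by positivity
  have hlamb0 : 0 < lamb := by
    rw [hlamb]; linarith
  have hrb : lam1 < lamr * b ^ (k + 2) := by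
    have : lam1 / b ^ (k + 2) < lamr := by rw [hlamr]; linarith
    rwa [div_lt_iff₀ hbk] at this
  have hMk : (0 : ℝ) < (M : ℝ) ^ (k + 2) := by positivity
  have hexp : lam1 / (M : ℝ) ^ (k + 2) < lamr * (b / M) ^ (k + 2) := by
    rw [div_pow, mul_div_assoc', div_lt_div_iff_of_pos_right hMk]
    exact hrb
  set p : ℝ := 1 - Real.exp (-(lam1 / (M : ℝ) ^ (k + 2))) with hp
  set pr : ℝ := 1 - Real.exp (-(lamr * (b / M) ^ (k + 2))) with hpr
  have hppr : p < pr := by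
    rw [hp, hpr]
    have : Real.exp (-(lamr * (b / M) ^ (k + 2))) < Real.exp (-(lam1 / (M : ℝ) ^ (k + 2))) :=
      Real.exp_lt_exp.2 (by linarith)
    linarith
  have hp0 : 0 < p := by
    rw [hp]
    have : Real.exp (-(lam1 / (M : ℝ) ^ (k + 2))) < 1 := by
      rw [Real.exp_lt_one_iff]
      have : 0 < lam1 / (M : ℝ) ^ (k + 2) := by positivity
      linarith
    linarith
  have hpr1 : pr < 1 := by
    rw [hpr]
    have := Real.exp_pos (-(lamr * (b / M) ^ (k + 2)))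
    linarith
  obtain ⟨D, B, c, l₁, hB, hD, hc, hl₁, hS⟩ := hSta k (Nb k r (b / M)) ρ p ((p + pr) / 2) θ hρ hp0
    (by linarith) (by linarith) hθ hPN
  exact ⟨lamr, lamb, b / M, (p + pr) / 2, ρ, D, B, c, l₁, hlamr0, hlamb0, by
    rw [hlamr, hlamb]; ring, hh, hρ, by linarith, by linarith, hB, hD, hc, hl₁, hS⟩

/-- Lower bound for the probability of the local blue event. -/
theorem locEv_prob (hPsh : PshStmt) (hG : GlpStmt) {l₂' : ℕ}
    (hC : ∀ l ≥ l₂', ∀ C C' : Finset (ℤ × ℤ),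
      StrC (2 ^ l) (3 * 2 ^ (l - 1)) (2 ^ (l + 2)) (2 * ((l : ℤ) + 1) ^ 2) C →
      StrC (2 ^ (l + 1)) (3 * 2 ^ l) (2 ^ (l + 3)) (2 * ((l : ℤ) + 2) ^ 2) C' →
      ∃ Z : Finset (ℤ × ℤ), Z ⊆ C ∩ C' ∧ Z.card = (l + 1) ^ 2) (N : Finset (Pt k))
    {D B l₁ l₂ : ℕ} (hB : 1 ≤ B) (hD : 2 * B < D) (hl1 : l₂' ≤ l₁) (h8 : 8 ≤ l₁)
    (h12 : l₁ ≤ l₂) {p cg : ℝ} (hp : 0 < p) (hp1 : p < 1)
    (hcg : 1 - p ^ (2 * B + 1) ^ (k + 2) = Real.exp (-cg))
    (hsum : ∑ l ∈ Finset.Ico l₁ l₂, Real.exp (-(cg * ((l : ℝ) + 1) ^ 2)) ≤ 1 / 2)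
    (O : Set (Pt k)) :
    MonoLoc (8 * D * 2 ^ l₂) (locEv N D B l₁ l₂ O) ∧
    p ^ (bx (0 : Pt k) (D * 2 ^ (l₁ + 1))).card / 2 ≤
      PS (bx (0 : Pt k) (8 * D * 2 ^ l₂)) (fun _ => p) (fun A => locEv N D B l₁ l₂ O ↑A) := by
  have hU : U01 (bx (0 : Pt k) (8 * D * 2 ^ l₂)) (fun _ => p) := fun _ _ => ⟨hp.le, hp1.le⟩
  have hpow : ∀ {l : ℕ}, l ≤ l₂ → 8 * D * 2 ^ l ≤ 8 * D * 2 ^ l₂ := fun h =>
    Nat.mul_le_mul_left _ (Nat.pow_le_pow_right (by norm_num) h)
  have hfull : bx (0 : Pt k) (D * 2 ^ (l₁ + 1)) ⊆ bx (0 : Pt k) (8 * D * 2 ^ l₂) := by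
    apply bx_mono
    refine le_trans ?_ (hpow h12)
    rw [pow_succ]
    nlinarith [Nat.zero_le (D * 2 ^ l₁)]
  have hml : ∀ l ∈ Finset.Ico l₁ l₂, MonoLoc (8 * D * 2 ^ l) (gluEv N D B l O) := by
    intro l hl
    have := Finset.mem_Ico.1 hl
    exact gluEv_monoLoc N hB hD (two_mul_sq_lt (by omega)) O
  constructor
  · constructor
    · rintro P P' hP ⟨h1, h2⟩
      exact ⟨h1.trans hP, fun l hl => (hml l hl).1 P P' hP (h2 l hl)⟩
    · intro P
      have h1 : ((↑(bx (0 : Pt k) (D * 2 ^ (l₁ + 1))) : Set (Pt k)) ⊆ P ↔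
          (↑(bx (0 : Pt k) (D * 2 ^ (l₁ + 1))) : Set (Pt k)) ⊆ P ∩ ↑(bx (0 : Pt k) (8 * D * 2 ^ l₂))) := by
        constructor
        · intro h
          exact Set.subset_inter h (by exact_mod_cast hfull)
        · intro h
          exact h.trans Set.inter_subset_left
      have h2 : ∀ l ∈ Finset.Ico l₁ l₂, (gluEv N D B l O P ↔
          gluEv N D B l O (P ∩ ↑(bx (0 : Pt k) (8 * D * 2 ^ l₂)))) := by
        intro l hl
        exact ((hml l hl).mono (hpow (Finset.mem_Ico.1 hl).2.le)).2 P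
      unfold locEv
      rw [← h1]
      exact and_congr Iff.rfl (forall₂_congr h2)
  · have hH := (hPsh (Pt k) (bx (0 : Pt k) (8 * D * 2 ^ l₂)) (fun _ => p) hU Bool Finset.univ
      (fun i A => if i = true then bx (0 : Pt k) (D * 2 ^ (l₁ + 1)) ⊆ A else
        ∀ l ∈ Finset.Ico l₁ l₂, gluEv N D B l O ↑A)).1 (by
        intro i _ A A' hA
        cases i
        · simp only [Bool.false_eq_true, if_false]
          intro h l hl
          exact (hml l hl).1 _ _ (by exact_mod_cast hA) (h l hl)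
        · simp only [if_true]
          intro h
          exact h.trans hA)
    rw [Fintype.prod_bool] at hH
    simp only [Bool.false_eq_true, if_false, if_true] at hH
    rw [PS_full hfull] at hH
    have h3 : PS (bx (0 : Pt k) (8 * D * 2 ^ l₂)) (fun _ => p)
        (fun A => ¬ ∀ l ∈ Finset.Ico l₁ l₂, gluEv N D B l O ↑A) ≤ 1 / 2 := by
      calc PS (bx (0 : Pt k) (8 * D * 2 ^ l₂)) (fun _ => p)
            (fun A => ¬ ∀ l ∈ Finset.Ico l₁ l₂, gluEv N D B l O ↑A)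
          ≤ PS (bx (0 : Pt k) (8 * D * 2 ^ l₂)) (fun _ => p)
            (fun A => ∃ l ∈ Finset.Ico l₁ l₂, ¬ gluEv N D B l O ↑A) := by
            refine PS_mono hU ?_
            intro A _ h
            push Not at h
            exact h
        _ ≤ ∑ l ∈ Finset.Ico l₁ l₂, PS (bx (0 : Pt k) (8 * D * 2 ^ l₂)) (fun _ => p)
            (fun A => ¬ gluEv N D B l O ↑A) := PS_exists_le hU _ _
        _ ≤ ∑ l ∈ Finset.Ico l₁ l₂, Real.exp (-(cg * ((l : ℝ) + 1) ^ 2)) := by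
            refine Finset.sum_le_sum fun l hl => ?_
            have hl' := Finset.mem_Ico.1 hl
            rw [(hml l hl).PS_not_eq (hpow hl'.2.le)]
            refine (gluEv_prob hG hC N hB hD (two_mul_sq_lt (by omega)) (by omega) hp hp1 O).trans ?_
            rw [hcg, ← Real.exp_nat_mul, Real.exp_le_exp]
            push_cast
            apply le_of_eq
            ring
        _ ≤ 1 / 2 := hsum
    rw [PS_not] at h3
    have h4 : PS (bx (0 : Pt k) (8 * D * 2 ^ l₂)) (fun _ => p)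
        (fun A => ∀ i ∈ (Finset.univ : Finset Bool), if i = true then
          bx (0 : Pt k) (D * 2 ^ (l₁ + 1)) ⊆ A else
            ∀ l ∈ Finset.Ico l₁ l₂, gluEv N D B l O ↑A) ≤
        PS (bx (0 : Pt k) (8 * D * 2 ^ l₂)) (fun _ => p) (fun A => locEv N D B l₁ l₂ O ↑A) := by
      refine PS_mono hU ?_
      intro A _ h
      have ht := h true (Finset.mem_univ _)
      have hf := h false (Finset.mem_univ _)
      simp only [if_true] at ht
      simp only [Bool.false_eq_true, if_false] at hf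
      exact ⟨by exact_mod_cast ht, hf⟩
    refine le_trans ?_ h4
    refine le_trans ?_ hH
    have h5 : (0 : ℝ) < p ^ (bx (0 : Pt k) (D * 2 ^ (l₁ + 1))).card := by positivity
    have h6 : 1 / 2 ≤ PS (bx (0 : Pt k) (8 * D * 2 ^ l₂)) (fun _ => p)
      (fun A => ∀ l ∈ Finset.Ico l₁ l₂, gluEv N D B l O ↑A) := by linarith
    rw [div_eq_mul_one_div]
    exact mul_le_mul_of_nonneg_left h6 h5.le

end Pool.Agent.TP
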