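import Pool.Agent.Helper28_TP.U4

/-! # The upper bound -/

set_option autoImplicit false

namespace Pool.Agent.TP

open MeasureTheory ProbabilityTheory

/-- UPP: the upper bound. -/
theorem upp (hPsh : PshStmt) (hSta : StaStmt) (hDyn : DynStmt) (hLoc : LocStmt) (hMrg : MrgStmt)
    (hNbg : NbgStmt) (hPrc : PrcStmt) (hCont : ContStmt) (hCap : CapStmt) (hGlp : GlpStmt)
    (hFinc : FincStmt) (hMtp : MtpStmt) : UppStmt := by
  intro k r lam s hr hs hlam
  obtain ⟨lamr, lamb, h, p', ρ, D, B, c, l₁, hlamr, hlamb, hsumlam, hh, hN, hp'0, hp', hB, hD,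
    hc, hl₁, hS⟩ := lattice_constants hNbg hPrc hSta k hr hlam
  -- blue parameter
  set pb : ℝ := (1 - Real.exp (-(lamb * h ^ (k + 2)))) / 2 with hpb
  have hexb : Real.exp (-(lamb * h ^ (k + 2))) < 1 := by
    rw [Real.exp_lt_one_iff]
    have : 0 < lamb * h ^ (k + 2) := by positivity
    linarith
  have hpb0 : 0 < pb := by rw [hpb]; linarith
  have hpblt : pb < 1 - Real.exp (-(lamb * h ^ (k + 2))) := by rw [hpb]; linarith
  have hpb1 : pb < 1 := by
    have := Real.exp_pos (-(lamb * h ^ (k + 2)))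
    linarith
  have hπ0 : 0 < pb ^ (2 * B + 1) ^ (k + 2) := by positivity
  have hπ1 : pb ^ (2 * B + 1) ^ (k + 2) < 1 := pow_lt_one₀ hpb0.le hpb1 (by positivity)
  set cg : ℝ := -Real.log (1 - pb ^ (2 * B + 1) ^ (k + 2)) with hcg
  have hcg0 : 0 < cg := by
    rw [hcg]
    have := Real.log_neg (x := 1 - pb ^ (2 * B + 1) ^ (k + 2)) (by linarith) (by linarith)
    linarith
  have hcge : 1 - pb ^ (2 * B + 1) ^ (k + 2) = Real.exp (-cg) := by
    rw [hcg, neg_neg, Real.exp_log (by linarith)]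
  obtain ⟨lc, hC⟩ := hCap
  obtain ⟨ls, hsum⟩ := sum_tail hcg0
  obtain ⟨Lr, hDr⟩ := hDyn k lamr s h p' hlamr hs hh hp'0 hp' (1 / 4) c (8 * D) (by norm_num) hc
  set L1 : ℕ := l₁ + lc + ls + Lr + 8 with hL1
  obtain ⟨C₀r, hC₀r, hDr'⟩ := hDr L1 (by omega)
  set c₁ : ℝ := pb ^ (bx (0 : Pt k) (D * 2 ^ (L1 + 1))).card / 2 with hc₁
  have hc₁0 : 0 < c₁ := by positivity
  have hc₁1 : c₁ ≤ 1 := by
    have : pb ^ (bx (0 : Pt k) (D * 2 ^ (L1 + 1))).card ≤ 1 := pow_le_one₀ hpb0.le hpb1.le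
    rw [hc₁]; linarith
  obtain ⟨Lb, hDb⟩ := hDyn k lamb s h pb hlamb hs hh hpb0 hpblt (c₁ / 8) cg (8 * D)
    (by positivity) hcg0
  set L2 : ℕ := L1 + Lb with hL2
  obtain ⟨C₀b, hC₀b, hDb'⟩ := hDb L2 (by omega)
  obtain ⟨C₀l, cl, A₀, hC₀l, hcl, hLl⟩ := hLoc k lamb s h pb hlamb hs hh hpb0 hpblt c₁
    (8 * D * 2 ^ L2) hc₁0 hc₁1
  obtain ⟨G, hG, hocc⟩ := hMrg k lamr lamb s hlamr.le hlamb.le
  have hLw : ∀ A, 0 < Lw k A := by
    intro A
    unfold Lw
    split_ifs <;> positivity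
  refine conv (k := k) (C₀ := max C₀r (max C₀b C₀l)) (c' := min 1 cl) (A₀ := A₀)
    (lt_of_lt_of_le hC₀r (le_max_left _ _)) (lt_min one_pos hcl) ?_
  intro A τ t hτ hA₀ hL ht
  have hLr : C₀r * Lw k A ≤ τ :=
    (mul_le_mul_of_nonneg_right (le_max_left _ _) (hLw A).le).trans hL
  have hLb : C₀b * Lw k A ≤ τ :=
    (mul_le_mul_of_nonneg_right ((le_max_left _ _).trans (le_max_right _ _)) (hLw A).le).trans hL
  have hLl' : C₀l * Lw k A ≤ τ :=
    (mul_le_mul_of_nonneg_right ((le_max_right _ _).trans (le_max_right _ _)) (hLw A).le).trans hL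
  set e₁ : ℝ := Real.exp (-(2 ^ A)) with he₁
  set e₃ : ℝ := Real.exp (-(cl * 2 ^ A)) with he₃
  have hfix : ∀ y : ℕ → Sp k, confLaw k lam s {ω | (t : ℕ∞) ≤ Tperc r ω y} ≤
      ENNReal.ofReal (e₁ + e₁ + e₃) := by
    intro y
    rw [← hsumlam]
    refine fixed_path (D := D) (B := B) (l₁ := L1) (l₂ := L2) (c₁ := c₁) hFinc hCont hMtp hr hh hN
      hB hD (by omega) (two_mul_sq_lt (by omega)) hc₁0 G hG hocc A τ t hτ ht y ?_ ?_ ?_
    · refine hDr' A τ (fun q => walk 0 y (q * τ)) (fun l _ => redEv (Nb k r h) D B l) hLr ?_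
      intro l hl q
      refine ⟨redEv_monoLoc _ D B l, ?_⟩
      refine le_trans (le_of_eq ?_) (hS l (by omega))
      rw [← eight]
      refine PS_congr (fun _ _ => rfl) ?_
      intro A' hA'
      unfold redEv
      rw [show fin (Vl k D l) ↑A' = A' from fin_coe hA']
    · intro O
      refine hDb' A τ (fun q => walk 0 y (q * τ)) (fun l q => gluEv (Nb k r h) D B l (O q)) hLb ?_
      intro l hl q
      refine ⟨gluEv_monoLoc _ hB hD (two_mul_sq_lt (by omega)) (O q), ?_⟩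
      refine (gluEv_prob hGlp hC _ hB hD (two_mul_sq_lt (by omega)) (by omega) hpb0 hpb1
        (O q)).trans ?_
      rw [hcge, ← Real.exp_nat_mul, Real.exp_le_exp]
      push_cast
      apply le_of_eq
      ring
    · intro O Q hQ
      refine hLl A τ (fun q => walk 0 y (q * τ)) Q
        (fun q => locEv (Nb k r h) D B L1 L2 (O q)) hA₀ hLl' hQ ?_
      intro q _
      exact locEv_prob hPsh hGlp hC _ hB hD (by omega) (by omega) (by omega) hpb0 hpb1 hcge
        (hsum L1 (by omega) L2) (O q)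
  -- integration over the path
  have hmeas := hMtp k r t
  have h1 : ((confLaw k lam s).prod (walkLaw k s)) {x | (t : ℕ∞) ≤ Tperc r x.1 x.2} ≤
      ENNReal.ofReal (e₁ + e₁ + e₃) := by
    rw [Measure.prod_apply_symm hmeas]
    calc ∫⁻ y, confLaw k lam s ((fun x => (x, y)) ⁻¹'
          {x : Cf k × (ℕ → Sp k) | (t : ℕ∞) ≤ Tperc r x.1 x.2}) ∂(walkLaw k s)
        ≤ ∫⁻ _, ENNReal.ofReal (e₁ + e₁ + e₃) ∂(walkLaw k s) := lintegral_mono fun y => hfix y
      _ = ENNReal.ofReal (e₁ + e₁ + e₃) := by simp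
  have he1 : 0 < e₁ := Real.exp_pos _
  have he3 : 0 < e₃ := Real.exp_pos _
  have h2 : tail k r lam s t ≤ e₁ + e₁ + e₃ := by
    unfold tail Measure.real
    exact ENNReal.toReal_le_of_le_ofReal (by positivity) h1
  refine h2.trans ?_
  have hp : (0 : ℝ) < 2 ^ A := by positivity
  have g1 : e₁ ≤ Real.exp (-(min 1 cl * 2 ^ A)) := by
    rw [he₁, Real.exp_le_exp]
    have := mul_le_mul_of_nonneg_right (min_le_left 1 cl) hp.le
    linarith
  have g3 : e₃ ≤ Real.exp (-(min 1 cl * 2 ^ A)) := by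
    rw [he₃, Real.exp_le_exp]
    have := mul_le_mul_of_nonneg_right (min_le_right 1 cl) hp.le
    linarith
  linarith

end Pool.Agent.TP
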